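import Pool.Agent.Helper31.TT.Defs

/-!
# TT-22  Base change

`Ω = AlgebraicClosure F`, `Ω' = AlgebraicClosure F'`, an algebraic closure of `F` as well (`F'` is finite over `F`). There is an
isomorphism `σ : Ω ≃ₐ[F] Ω'` (`IsAlgClosure.equiv F Ω Ω'`; the instance `IsAlgClosure F Ω'` from algebraicity of `Ω' / F' / F`; give `Ω'` its
`F`-algebra structure through `F'`, `IsScalarTower F F' Ω'`; Mathlib has `AlgebraicClosure.instAlgebra`). For `x : Fin m → Ω`, `g` over `F`:
`aeval (σ ∘ x) (map (algebraMap F F') g) = σ (aeval x g)` (`MvPolynomial.aeval_map_algebraMap`, `MvPolynomial.map_aeval`/`AlgEquiv` and `aeval`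
commute), so `x ↦ σ ∘ x` is a bijection of the points of `V` with the points of `V.baseChange F'`, and
`x i ^ (|F| ^ (m n)) = x i` iff `(σ (x i)) ^ (|F'| ^ n) = σ (x i)`, as `|F'| = |F| ^ m` (`Module.card_eq_pow_finrank`).
-/

set_option autoImplicit false

namespace Pool.Agent.Helper31.TT

variable {F : Type} [Field F] [Fintype F]

omit [Fintype F] in
private theorem tb_aeval {F' : Type} [Field F'] [Algebra F F'] {m : ℕ}
    (σ : AlgebraicClosure F ≃ₐ[F] AlgebraicClosure F') (x : Fin m → AlgebraicClosure F)
    (g : MvPolynomial (Fin m) F) :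
    MvPolynomial.aeval (fun i => σ (x i)) (MvPolynomial.map (algebraMap F F') g) =
      σ (MvPolynomial.aeval x g) := by
  rw [MvPolynomial.aeval_map_algebraMap]
  have h1 : ((σ : AlgebraicClosure F →ₐ[F] AlgebraicClosure F')).comp (MvPolynomial.aeval x) =
      MvPolynomial.aeval (fun i => (σ : AlgebraicClosure F →ₐ[F] AlgebraicClosure F') (x i)) :=
    MvPolynomial.comp_aeval _ _
  have h2 := DFunLike.congr_fun h1 g
  exact h2.symm

omit [Fintype F] in
private theorem tb_points (V : AffVar F) (F' : Type) [Field F'] [Fintype F'] [Algebra F F']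
    (n : ℕ) (y : Fin V.dim → AlgebraicClosure F') :
    (show Fin (V.baseChange F').dim → AlgebraicClosure F' from y) ∈ (V.baseChange F').points n ↔
      ((∀ g ∈ V.eqs, MvPolynomial.aeval y (MvPolynomial.map (algebraMap F F') g) = 0) ∧
        MvPolynomial.aeval y (MvPolynomial.map (algebraMap F F') V.neq) ≠ 0) ∧
      ∀ i, y i ^ (Fintype.card F' ^ n) = y i := by
  constructor
  · rintro ⟨⟨h1, h2⟩, h3⟩
    exact ⟨⟨fun g hg => h1 _ ⟨g, hg, rfl⟩, h2⟩, h3⟩
  · rintro ⟨⟨h1, h2⟩, h3⟩
    refine ⟨⟨?_, h2⟩, h3⟩
    rintro _ ⟨g, hg, rfl⟩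
    exact h1 g hg

theorem baseChange_count (V : AffVar F) (F' : Type) [Field F'] [Fintype F'] [Algebra F F']
    (n : ℕ) : (V.baseChange F').count n = V.count (Module.finrank F F' * n) := by
  have hfd : Module.Finite F F' := Module.Finite.of_finite
  have halg : Algebra.IsAlgebraic F F' := Algebra.IsAlgebraic.of_finite F F'
  have hac : IsAlgClosure F (AlgebraicClosure F') := inferInstance
  let σ : AlgebraicClosure F ≃ₐ[F] AlgebraicClosure F' :=
    IsAlgClosure.equiv F (AlgebraicClosure F) (AlgebraicClosure F')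
  have hcard : Fintype.card F' = Fintype.card F ^ Module.finrank F F' :=
    Module.card_eq_pow_finrank
  have key : ∀ x : Fin V.dim → AlgebraicClosure F,
      x ∈ V.points (Module.finrank F F' * n) ↔
        ((∀ g ∈ V.eqs, MvPolynomial.aeval (fun i => σ (x i))
          (MvPolynomial.map (algebraMap F F') g) = 0) ∧
        MvPolynomial.aeval (fun i => σ (x i)) (MvPolynomial.map (algebraMap F F') V.neq) ≠ 0) ∧
        ∀ i, σ (x i) ^ (Fintype.card F' ^ n) = σ (x i) := by
    intro x
    have e1 : ∀ g : MvPolynomial (Fin V.dim) F, MvPolynomial.aeval (fun i => σ (x i))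
        (MvPolynomial.map (algebraMap F F') g) = 0 ↔ MvPolynomial.aeval x g = 0 := by
      intro g
      rw [tb_aeval]
      exact map_eq_zero σ
    have e2 : ∀ i, σ (x i) ^ (Fintype.card F' ^ n) = σ (x i) ↔
        x i ^ (Fintype.card F ^ (Module.finrank F F' * n)) = x i := by
      intro i
      rw [hcard, ← pow_mul, ← map_pow]
      exact σ.injective.eq_iff
    simp only [e1, e2, ne_eq]
    exact Iff.rfl
  have himg : (fun (x : Fin V.dim → AlgebraicClosure F) =>
      (fun i => σ (x i) : Fin (V.baseChange F').dim → AlgebraicClosure F')) ''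
      (V.points (Module.finrank F F' * n)) = (V.baseChange F').points n := by
    ext y
    constructor
    · rintro ⟨x, hx, rfl⟩
      exact (tb_points V F' n (fun i => σ (x i))).2 ((key x).1 hx)
    · intro hy
      have hy2 : (fun i => σ (σ.symm ((show Fin V.dim → AlgebraicClosure F' from y) i))) =
          (show Fin V.dim → AlgebraicClosure F' from y) := by
        funext i
        exact σ.apply_symm_apply _
      refine ⟨fun i => σ.symm ((show Fin V.dim → AlgebraicClosure F' from y) i), ?_, hy2⟩
      refine (key _).2 ?_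
      rw [hy2]
      have h3 := (tb_points V F' n (show Fin V.dim → AlgebraicClosure F' from y)).1 hy
      refine ⟨h3.1, fun i => ?_⟩
      have h4 := congrFun hy2 i
      simp only at h4
      rw [h4]
      exact h3.2 i
  unfold AffVar.count
  rw [← himg]
  apply Set.ncard_image_of_injective
  intro x x' hxx
  funext i
  exact σ.injective (congrFun hxx i)

end Pool.Agent.Helper31.TT
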