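import Pool.Agent.Helper31.TT.Defs

/-!
# TT-07  Conjugates of a root of unity in a product of roots

PROOF. `K` = the algebraic closure of `ℚ` in `ℂ` (`algebraicClosure ℚ ℂ` or `integralClosure ℚ ℂ`; it is algebraically closed and
algebraic over `ℚ`), or work in `AlgebraicClosure ℚ` with an embedding `ι : AlgebraicClosure ℚ →ₐ[ℚ] ℂ` (`IsAlgClosed.lift`): `z`, `u`, `ξ` are
algebraic, so they are in the image of `ι` (all the roots in `ℂ` of a rational polynomial are images, since the polynomial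
splits in `AlgebraicClosure ℚ`). There is an automorphism `σ` of `AlgebraicClosure ℚ` with `σ ξ = ξ ^ j`: the minimal polynomials of
`ξ` and `ξ ^ j` over `ℚ` agree (`IsPrimitiveRoot.minpoly_eq_pow_coprime` over `ℤ`, or both are `cyclotomic m ℚ`,
`Polynomial.cyclotomic_eq_minpoly_rat`, `IsPrimitiveRoot.pow_of_coprime`), and the field is normal over `ℚ`
(`IsGalois`/`Normal`: `minpoly.exists_algEquiv_of_root`). `z' = σ z`, `u' = σ u` are roots of the same integral polynomials.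
Compare `exists_sigma` in `Helper2/Tate/GMain.lean`.
-/

set_option autoImplicit false

namespace Pool.Agent.Helper31.TT

open Polynomial

private theorem cj_isAlg : Algebra.IsAlgebraic ℚ (AlgebraicClosure ℚ) := by
  exact AlgebraicClosure.isAlgebraic ℚ

private theorem cj_normal : Normal ℚ (AlgebraicClosure ℚ) := by
  have := cj_isAlg
  have h : IsAlgClosure ℚ (AlgebraicClosure ℚ) := ⟨inferInstance, inferInstance⟩
  exact IsAlgClosure.normal ℚ (AlgebraicClosure ℚ)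

private theorem cj_range (ι : AlgebraicClosure ℚ →ₐ[ℚ] ℂ) (Q : ℤ[X]) (hQ : Q.Monic) (z : ℂ)
    (hz : aeval z Q = 0) : ∃ z₀ : AlgebraicClosure ℚ, ι z₀ = z ∧ aeval z₀ Q = 0 := by
  let _ : Algebra (AlgebraicClosure ℚ) ℂ := ι.toRingHom.toAlgebra
  have h1 : IsIntegral (AlgebraicClosure ℚ) z := by
    refine ⟨Q.map (Int.castRingHom _), hQ.map _, ?_⟩
    rw [eval₂_map]
    have h2 : (algebraMap (AlgebraicClosure ℚ) ℂ).comp (Int.castRingHom (AlgebraicClosure ℚ)) =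
      algebraMap ℤ ℂ := RingHom.ext_int _ _
    rw [h2]
    exact hz
  have h2 := IsAlgClosed.degree_eq_one_of_irreducible (AlgebraicClosure ℚ) (minpoly.irreducible h1)
  obtain ⟨z₀, hz₀⟩ := minpoly.mem_range_of_degree_eq_one (AlgebraicClosure ℚ) z h2
  have h3 : ι z₀ = z := hz₀
  refine ⟨z₀, h3, ?_⟩
  apply ι.injective
  rw [map_zero, ← hz, ← h3]
  exact (aeval_algHom_apply (ι.restrictScalars ℤ) z₀ Q).symm

private theorem cj_croots (Q : ℤ[X]) (hQ : Q.Monic) (z : ℂ) : z ∈ croots Q ↔ aeval z Q = 0 := by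
  unfold croots
  rw [mem_roots (hQ.map _).ne_zero, IsRoot.def, eval_map]
  rfl

theorem exists_conj (Q B : ℤ[X]) (hQ : Q.Monic) (hB : B.Monic) (z u ξ : ℂ) (hz : z ∈ croots Q)
    (hu : u ∈ croots B) (m : ℕ) (hm : 0 < m) (hξ : IsPrimitiveRoot ξ m) (g : ℕ)
    (h : (z * u) ^ 2 = ξ * g) (j : ℕ) (hj : j.Coprime m) :
    ∃ z' ∈ croots Q, ∃ u' ∈ croots B, (z' * u') ^ 2 = ξ ^ j * g := by
  have := cj_isAlg
  have := cj_normal
  rw [cj_croots Q hQ] at hz
  rw [cj_croots B hB] at hu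
  obtain ⟨ι⟩ : Nonempty (AlgebraicClosure ℚ →ₐ[ℚ] ℂ) := ⟨IsAlgClosed.lift⟩
  obtain ⟨z₀, hz₀, hz₁⟩ := cj_range ι Q hQ z hz
  obtain ⟨u₀, hu₀, hu₁⟩ := cj_range ι B hB u hu
  obtain ⟨ξ₀, hξ₀, -⟩ := cj_range ι (X ^ m - 1) (monic_X_pow_sub_C (1 : ℤ) hm.ne') ξ (by
    rw [map_sub, map_pow, aeval_X, map_one, hξ.pow_eq_one, sub_self])
  have hprim : IsPrimitiveRoot ξ₀ m := by
    refine IsPrimitiveRoot.of_map_of_injective (f := ι) ?_ ι.injective
    rw [hξ₀]
    exact hξ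
  have hmin : minpoly ℚ ξ₀ = minpoly ℚ (ξ₀ ^ j) := by
    rw [← cyclotomic_eq_minpoly_rat hprim hm,
      ← cyclotomic_eq_minpoly_rat (hprim.pow_of_coprime j hj) hm]
  obtain ⟨σ, hσ⟩ := minpoly.exists_algEquiv_of_root' (K := ℚ) (L := AlgebraicClosure ℚ)
    (x := ξ₀ ^ j) (y := ξ₀) (Algebra.IsAlgebraic.isAlgebraic _) (by rw [hmin, minpoly.aeval])
  have hroot : ∀ (P : ℤ[X]) (w : AlgebraicClosure ℚ), aeval w P = 0 →
      aeval (ι (σ w)) P = 0 := by
    intro P w hw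
    have h1 : aeval (ι (σ w)) P = ι (σ (aeval w P)) := by
      have h2 := aeval_algHom_apply ((ι.comp (σ : AlgebraicClosure ℚ →ₐ[ℚ] AlgebraicClosure ℚ)).restrictScalars ℤ) w P
      exact h2
    rw [h1, hw, map_zero, map_zero]
  refine ⟨ι (σ z₀), (cj_croots Q hQ _).2 (hroot Q z₀ hz₁), ι (σ u₀),
    (cj_croots B hB _).2 (hroot B u₀ hu₁), ?_⟩
  have hinj : Function.Injective ι := ι.toRingHom.injective
  have h1 : (z₀ * u₀) ^ 2 = ξ₀ * g := by
    apply hinj
    rw [map_pow, map_mul, map_mul, hz₀, hu₀, hξ₀, map_natCast, h]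
  rw [← map_mul, ← map_mul, ← map_pow, ← map_pow, h1, map_mul, hσ, map_mul, map_natCast,
    map_natCast, map_pow, hξ₀]

end Pool.Agent.Helper31.TT
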