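import Mathlib

/-!
# Towers of coverings over a finite field: definitions (project TT, MP_8ac872_ag)

`F` is a finite field with `q` elements. An affine variety over `F` is given by a set of equations and one inequation in
an affine space; `V.count n` is the number of its points over the extension of degree `n` of `F`. A covering of `V` which is
Galois with a group of prime order `ℓ` is a polynomial map `V' → V` whose fibres are the orbits of a polynomial map `τ : V' → V'` of
order `ℓ` without fixed points; a tower of degree `ℓ ^ k` is a sequence of `k` such coverings.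
-/

set_option autoImplicit false

namespace Pool.Agent.Helper31.TT

open Polynomial

/-- Affine varieties over `F`: the points of an affine space over `F` at which all the equations
`g = 0` hold and `f ≠ 0` holds, for a set `eqs` of polynomials `g` and a polynomial `neq = f`. -/
structure AffVar (F : Type) [Field F] where
  /-- the dimension of the affine space -/
  dim : ℕ
  /-- the polynomials which vanish on the variety -/
  eqs : Set (MvPolynomial (Fin dim) F)
  /-- the polynomial which does not vanish on the variety -/
  neq : MvPolynomial (Fin dim) F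

variable {F : Type} [Field F]

/-- `x` is a point of `V` (over the algebraic closure). -/
def AffVar.IsPoint (V : AffVar F) (x : Fin V.dim → AlgebraicClosure F) : Prop :=
  (∀ g ∈ V.eqs, MvPolynomial.aeval x g = 0) ∧ MvPolynomial.aeval x V.neq ≠ 0

/-- The points of `V` over the extension of degree `n` of `F`. -/
def AffVar.points [Fintype F] (V : AffVar F) (n : ℕ) : Set (Fin V.dim → AlgebraicClosure F) :=
  {x | V.IsPoint x ∧ ∀ i, x i ^ (Fintype.card F ^ n) = x i}

/-- The number of points of `V` over the extension of degree `n` of `F`. -/
noncomputable def AffVar.count [Fintype F] (V : AffVar F) (n : ℕ) : ℕ := (V.points n).ncard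

/-- The map of affine spaces over the algebraic closure given by polynomials over `F`. -/
noncomputable def polyMap {m n : ℕ} (φ : Fin n → MvPolynomial (Fin m) F)
    (y : Fin m → AlgebraicClosure F) : Fin n → AlgebraicClosure F :=
  fun i => MvPolynomial.aeval y (φ i)

/-- `V'` is a Galois covering of `V` over `F` whose group is cyclic of the prime order `ℓ`: there are
polynomial maps `π : V' → V` and `τ : V' → V'` over `F` such that (over the algebraic closure) `π` is
surjective, `τ` has no fixed points, its `ℓ`-th power is the identity, and the fibres of `π` are the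
orbits of `τ`. -/
def CyclicCover (ℓ : ℕ) (V V' : AffVar F) : Prop :=
  ∃ (π : Fin V.dim → MvPolynomial (Fin V'.dim) F) (τ : Fin V'.dim → MvPolynomial (Fin V'.dim) F),
    (∀ y, V'.IsPoint y → V.IsPoint (polyMap π y) ∧ V'.IsPoint (polyMap τ y) ∧
      polyMap τ y ≠ y ∧ (polyMap τ)^[ℓ] y = y) ∧
    (∀ x, V.IsPoint x → ∃ y, V'.IsPoint y ∧ polyMap π y = x) ∧
    (∀ y y', V'.IsPoint y → V'.IsPoint y' →
      (polyMap π y' = polyMap π y ↔ ∃ i : ℕ, y' = (polyMap τ)^[i] y))

/-- `LTower ℓ V k V'`: `V'` is the top of a tower of `k` Galois coverings over `V`, each one over `F`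
and with a cyclic group of order `ℓ`. -/
inductive LTower (ℓ : ℕ) (V : AffVar F) : ℕ → AffVar F → Prop
  | zero : LTower ℓ V 0 V
  | succ (k : ℕ) (V' V'' : AffVar F) (hV : LTower ℓ V k V') (h : CyclicCover ℓ V' V'') :
      LTower ℓ V (k + 1) V''

/-- The variety over the extension field `F'` given by the same equations. -/
noncomputable def AffVar.baseChange (V : AffVar F) (F' : Type) [Field F'] [Algebra F F'] :
    AffVar F' where
  dim := V.dim
  eqs := MvPolynomial.map (algebraMap F F') '' V.eqs
  neq := MvPolynomial.map (algebraMap F F') V.neq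

/-- The multiset of the complex roots of an integral polynomial. -/
noncomputable def croots (Q : ℤ[X]) : Multiset ℂ := (Q.map (Int.castRingHom ℂ)).roots

/-- The sum of the `n`-th powers of the complex roots of an integral polynomial. -/
noncomputable def powSum (Q : ℤ[X]) (n : ℕ) : ℂ := ((croots Q).map (fun α => α ^ n)).sum

/-- The number of complex roots `z` of `Q`, with multiplicity, such that the product `z v` is
supersingular over the field with `q` elements: `(z v) ^ (2 j) = q ^ (w j)` for some integers
`j > 0`, `w ≥ 0`. -/
noncomputable def ssCount (q : ℕ) (Q : ℤ[X]) (v : ℂ) : ℕ := by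
  classical exact ((croots Q).filter
    (fun z => ∃ j w : ℕ, 0 < j ∧ (z * v) ^ (2 * j) = (q : ℂ) ^ (w * j))).card

/-- `V` has `c (q ^ n) + (sum of the n-th powers of the roots of P)` more points than `W` over the
extension of degree `n` of `F`, for all `n ≥ 1`. -/
def Counts [Fintype F] (V W : AffVar F) (c P : ℤ[X]) : Prop :=
  ∀ n : ℕ, 1 ≤ n → (V.count n : ℂ) - (W.count n : ℂ) =
    ((c.eval ((Fintype.card F : ℤ) ^ n) : ℤ) : ℂ) + powSum P n

/-- The integral polynomial `R` has no nonzero root modulo `ℓ`. -/
def NoRootMod (R : ℤ[X]) (ℓ : ℕ) : Prop :=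
  ∀ a : ZMod ℓ, a ≠ 0 → (R.map (Int.castRingHom (ZMod ℓ))).eval a ≠ 0

/-- The lower Dirichlet density of the set `S` of natural numbers is at least `δ`: the sum of the
`l ^ (- s)`, `l ∈ S`, is at least `δ log (1 / (s - 1)) - C` for `1 < s ≤ 2`. -/
def LowerDensity (S : Set ℕ) (δ : ℝ) : Prop :=
  ∃ C : ℝ, ∀ s : ℝ, 1 < s → s ≤ 2 →
    δ * Real.log (1 / (s - 1)) - C ≤ ∑' l : S, ((l : ℕ) : ℝ) ^ (-s)

end Pool.Agent.Helper31.TT
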