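import Pool.Agent.Helper31.TT.Defs

/-!
# TT-09  The sum of the norms of the ideals near `s = 1`

`ζ(s) = ∑_n a_n n ^ (- s)`, `a_n` = the number of ideals of norm `n` (`NumberField.dedekindZeta` is an `LSeries`; `a_0 = 1` for the zero
ideal, but the term `n = 0` of an `LSeries` is `0`). Mathlib: `NumberField.tendsto_sub_one_mul_dedekindZeta_nhdsGT`:
`(s - 1) ζ(s) → κ > 0` (`dedekindZeta_residue_pos`) for real `s → 1+` (as complex numbers, take norms or real parts).
So there is `η > 0` (`η ≤ 1`) with `κ/2 ≤ (s - 1) ζ(s) ≤ 2 κ` for `1 < s ≤ 1 + η`. For `1 + η ≤ s ≤ 2`: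
the sums decrease in `s`, so `∑_J ≤ 2 κ / η ≤ (2 κ/η) / (s - 1)`, and `J = {⊤}` has sum `1 ≥ η/(s-1)`.
The series converges for real `s > 1`: otherwise `LSeries` would be `0` (not summable), against
the positive limit, for `s ≤ 1 + η` (and by comparison for all `s > 1`); or use
`LSeriesSummable` from the partial sums (`Ideal.tendsto_norm_le_div_atTop₀`, `LSeriesSummable_of_sum_norm_bigO..`).
All terms are real and nonnegative. A finite set `J` of nonzero ideals: `∑_J N ^ (- s) ≤ ∑_n a_n n ^ (- s)` (group by the norm: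
`Finset.sum_fiberwise`, the fibre over `n` has at most `a_n` elements; finiteness: `Ideal.finite_setOf_absNorm_eq`).
Conversely a partial sum `∑_{1 ≤ n ≤ M} a_n n ^ (- s)` is the sum over the finite set of all the nonzero ideals of norm `≤ M`
(`Ideal.finite_setOf_absNorm_le`), and is `≥ ζ(s)/2` for `M` large.
-/

set_option autoImplicit false

namespace Pool.Agent.Helper31.TT

open NumberField

/-- the real terms of the zeta series -/
private noncomputable def zt (K : Type) [Field K] [NumberField K] (s : ℝ) (n : ℕ) : ℝ :=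
  if n = 0 then 0 else (Nat.card {I : Ideal (𝓞 K) // Ideal.absNorm I = n} : ℝ) * (n : ℝ) ^ (-s)

private theorem zt_nonneg (K : Type) [Field K] [NumberField K] (s : ℝ) (n : ℕ) :
    0 ≤ zt K s n := by
  unfold zt
  split_ifs <;> positivity

private theorem zt_anti (K : Type) [Field K] [NumberField K] {s t : ℝ} (h : s ≤ t) (n : ℕ) :
    zt K t n ≤ zt K s n := by
  unfold zt
  split_ifs with hn
  · exact le_rfl
  · have : (1 : ℝ) ≤ n := by exact_mod_cast Nat.one_le_iff_ne_zero.2 hn
    exact mul_le_mul_of_nonneg_left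
      (Real.rpow_le_rpow_of_exponent_le this (by linarith)) (by positivity)

private theorem zeta_eq (K : Type) [Field K] [NumberField K] (s : ℝ) :
    dedekindZeta K (s : ℂ) = ((∑' n, zt K s n : ℝ) : ℂ) := by
  unfold dedekindZeta LSeries
  rw [Complex.ofReal_tsum]
  refine tsum_congr fun n => ?_
  unfold zt
  rcases Nat.eq_zero_or_pos n with rfl | hn
  · simp
  · rw [LSeries.term_of_ne_zero hn.ne', if_neg hn.ne']
    push_cast
    rw [Real.rpow_neg (Nat.cast_nonneg n), Complex.ofReal_inv,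
      Complex.ofReal_cpow (Nat.cast_nonneg n), div_eq_mul_inv]
    push_cast
    rfl

private theorem exists_eta (K : Type) [Field K] [NumberField K] :
    ∃ η κ : ℝ, 0 < η ∧ η ≤ 1 ∧ 0 < κ ∧ ∀ s : ℝ, 1 < s → s ≤ 1 + η →
      κ / 2 ≤ (s - 1) * ∑' n, zt K s n ∧ (s - 1) * ∑' n, zt K s n ≤ 2 * κ := by
  have h1 := NumberField.tendsto_sub_one_mul_dedekindZeta_nhdsGT K
  have hκ := NumberField.dedekindZeta_residue_pos K
  set κ := NumberField.dedekindZeta_residue K with hκd
  have h2 : Filter.Tendsto (fun s : ℝ => (s - 1) * ∑' n, zt K s n) (nhdsWithin 1 (Set.Ioi 1))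
      (nhds κ) := by
    have h3 := (Complex.continuous_re.tendsto _).comp h1
    rw [Complex.ofReal_re] at h3
    refine h3.congr fun s => ?_
    simp only [Function.comp_apply]
    rw [zeta_eq, ← Complex.ofReal_one, ← Complex.ofReal_sub, ← Complex.ofReal_mul,
      Complex.ofReal_re]
  have h4 : ∀ᶠ s in nhdsWithin (1 : ℝ) (Set.Ioi 1),
      (s - 1) * ∑' n, zt K s n ∈ Set.Ioo (κ / 2) (2 * κ) :=
    h2.eventually (Ioo_mem_nhds (by linarith) (by linarith))
  rw [eventually_nhdsWithin_iff, Metric.eventually_nhds_iff] at h4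
  obtain ⟨ε, hε, h5⟩ := h4
  refine ⟨min (ε / 2) 1, κ, by positivity, min_le_right _ _, hκ, fun s hs1 hs2 => ?_⟩
  have h6 : s ≤ 1 + ε / 2 := hs2.trans (by linarith [min_le_left (ε / 2) 1])
  have h7 := h5 (y := s) (by rw [Real.dist_eq, abs_of_pos (by linarith)]; linarith) hs1
  exact ⟨h7.1.le, h7.2.le⟩

private theorem sum_le_zt (K : Type) [Field K] [NumberField K] {s : ℝ}
    (hs : Summable (zt K s)) (J : Finset (Ideal (𝓞 K))) (hJ : ∀ I ∈ J, I ≠ ⊥) :
    ∑ I ∈ J, (Ideal.absNorm I : ℝ) ^ (-s) ≤ ∑' n, zt K s n := by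
  classical
  refine le_trans ?_ (hs.sum_le_tsum (J.image fun I => Ideal.absNorm I)
    fun n _ => zt_nonneg K s n)
  rw [← Finset.sum_fiberwise_of_maps_to (s := J) (t := J.image fun I => Ideal.absNorm I)
    (g := fun I => Ideal.absNorm I) fun I hI => Finset.mem_image_of_mem _ hI]
  refine Finset.sum_le_sum fun n hn => ?_
  have hn0 : n ≠ 0 := by
    obtain ⟨I, hI, rfl⟩ := Finset.mem_image.1 hn
    exact fun h => hJ I hI (Ideal.absNorm_eq_zero_iff.1 h)
  rw [zt, if_neg hn0]
  calc ∑ I ∈ J with Ideal.absNorm I = n, (Ideal.absNorm I : ℝ) ^ (-s)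
      = ∑ I ∈ J with Ideal.absNorm I = n, (n : ℝ) ^ (-s) := by
        refine Finset.sum_congr rfl fun I hI => ?_
        rw [(Finset.mem_filter.1 hI).2]
    _ = ((J.filter fun I => Ideal.absNorm I = n).card : ℝ) * (n : ℝ) ^ (-s) := by
        rw [Finset.sum_const, nsmul_eq_mul]
    _ ≤ _ := by
        refine mul_le_mul_of_nonneg_right ?_ (by positivity)
        have hfin := Ideal.finite_setOfPred_absNorm_eq (S := 𝓞 K) n
        have h1 : (J.filter fun I => Ideal.absNorm I = n).card
            ≤ Nat.card {I : Ideal (𝓞 K) // Ideal.absNorm I = n} := by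
          have h2 : Nat.card {I : Ideal (𝓞 K) // Ideal.absNorm I = n} = hfin.toFinset.card :=
            Nat.card_eq_card_finite_toFinset hfin
          rw [h2]
          refine Finset.card_le_card fun I hI => ?_
          rw [Set.Finite.mem_toFinset]
          exact (Finset.mem_filter.1 hI).2
        exact_mod_cast h1

private theorem exists_sum_ge (K : Type) [Field K] [NumberField K] {s : ℝ}
    (hs : Summable (zt K s)) (hpos : 0 < ∑' n, zt K s n) :
    ∃ J : Finset (Ideal (𝓞 K)), (∀ I ∈ J, I ≠ ⊥) ∧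
      (∑' n, zt K s n) / 2 ≤ ∑ I ∈ J, (Ideal.absNorm I : ℝ) ^ (-s) := by
  classical
  obtain ⟨T, hT⟩ := (hs.hasSum.eventually (lt_mem_nhds (half_lt_self hpos))).exists
  have hfin := fun n => Ideal.finite_setOfPred_absNorm_eq (S := 𝓞 K) n
  refine ⟨(T.erase 0).biUnion fun n => (hfin n).toFinset, ?_, ?_⟩
  · intro I hI hbot
    obtain ⟨n, hn, hI⟩ := Finset.mem_biUnion.1 hI
    rw [Set.Finite.mem_toFinset] at hI
    have hI' : Ideal.absNorm I = n := hI
    rw [hbot, Ideal.absNorm_bot] at hI'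
    exact (Finset.mem_erase.1 hn).1 hI'.symm
  · rw [Finset.sum_biUnion]
    · refine hT.le.trans ?_
      have h0 : ∑ n ∈ T, zt K s n ≤ ∑ n ∈ T.erase 0, zt K s n := by
        by_cases h0 : 0 ∈ T
        · rw [← Finset.add_sum_erase T _ h0]
          simp [zt]
        · rw [Finset.erase_eq_of_notMem h0]
      refine h0.trans (Finset.sum_le_sum fun n hn => ?_)
      rw [zt, if_neg (Finset.mem_erase.1 hn).1]
      have h2 : Nat.card {I : Ideal (𝓞 K) // Ideal.absNorm I = n} = (hfin n).toFinset.card :=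
        Nat.card_eq_card_finite_toFinset (hfin n)
      rw [h2, ← nsmul_eq_mul, ← Finset.sum_const]
      refine (Finset.sum_congr rfl fun I hI => ?_).le
      rw [Set.Finite.mem_toFinset] at hI
      have hI' : Ideal.absNorm I = n := hI
      rw [hI']
    · intro n _ m _ hnm
      simp only [Function.onFun]
      rw [Finset.disjoint_left]
      intro I hI hI2
      rw [Set.Finite.mem_toFinset] at hI hI2
      have hI' : Ideal.absNorm I = n := hI
      have hI2' : Ideal.absNorm I = m := hI2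
      exact hnm (hI'.symm.trans hI2')

theorem zeta_bounds (K : Type) [Field K] [NumberField K] :
    ∃ c C : ℝ, 0 < c ∧ 0 < C ∧ ∀ s : ℝ, 1 < s → s ≤ 2 →
      (∀ J : Finset (Ideal (𝓞 K)), (∀ I ∈ J, I ≠ ⊥) →
        ∑ I ∈ J, (Ideal.absNorm I : ℝ) ^ (-s) ≤ C / (s - 1)) ∧
      ∃ J : Finset (Ideal (𝓞 K)), (∀ I ∈ J, I ≠ ⊥) ∧
        c / (s - 1) ≤ ∑ I ∈ J, (Ideal.absNorm I : ℝ) ^ (-s) := by
  obtain ⟨η, κ, hη, hη1, hκ, h⟩ := exists_eta K
  have hsum1 : ∀ s : ℝ, 1 < s → s ≤ 1 + η → Summable (zt K s) := by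
    intro s hs1 hs2
    by_contra hn
    have h1 := (h s hs1 hs2).1
    rw [tsum_eq_zero_of_not_summable hn, mul_zero] at h1
    linarith
  have hub : ∀ s : ℝ, 1 < s → s ≤ 1 + η → ∀ J : Finset (Ideal (𝓞 K)), (∀ I ∈ J, I ≠ ⊥) →
      ∑ I ∈ J, (Ideal.absNorm I : ℝ) ^ (-s) ≤ 2 * κ / (s - 1) := by
    intro s hs1 hs2 J hJ
    refine (sum_le_zt K (hsum1 s hs1 hs2) J hJ).trans ?_
    rw [le_div_iff₀ (by linarith), mul_comm]
    exact (h s hs1 hs2).2
  refine ⟨min (κ / 4) η, 2 * κ / η, lt_min (by linarith) hη, by positivity,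
    fun s hs1 hs2 => ⟨fun J hJ => ?_, ?_⟩⟩
  · rcases le_or_gt s (1 + η) with hs | hs
    · refine (hub s hs1 hs J hJ).trans ?_
      refine div_le_div_of_nonneg_right ?_ (by linarith)
      rw [le_div_iff₀ hη]
      nlinarith
    · have h1 : ∑ I ∈ J, (Ideal.absNorm I : ℝ) ^ (-s)
          ≤ ∑ I ∈ J, (Ideal.absNorm I : ℝ) ^ (-(1 + η)) := by
        refine Finset.sum_le_sum fun I hI => ?_
        have h2 : (1 : ℝ) ≤ Ideal.absNorm I := by
          have : Ideal.absNorm I ≠ 0 := fun h0 => hJ I hI (Ideal.absNorm_eq_zero_iff.1 h0)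
          exact_mod_cast Nat.one_le_iff_ne_zero.2 this
        exact Real.rpow_le_rpow_of_exponent_le h2 (by linarith)
      refine h1.trans ((hub (1 + η) (by linarith) le_rfl J hJ).trans ?_)
      have h3 : 1 + η - 1 = η := by ring
      rw [h3, le_div_iff₀ (by linarith)]
      have h4 : 0 < 2 * κ / η := by positivity
      nlinarith
  · rcases le_or_gt s (1 + η) with hs | hs
    · have h1 := (h s hs1 hs).1
      have hs0 : 0 < s - 1 := by linarith
      have hpos : 0 < ∑' n, zt K s n := by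
        by_contra hn
        push Not at hn
        have := mul_nonpos_of_nonneg_of_nonpos hs0.le hn
        linarith
      obtain ⟨J, hJ, h2⟩ := exists_sum_ge K (hsum1 s hs1 hs) hpos
      refine ⟨J, hJ, le_trans ?_ h2⟩
      rw [div_le_iff₀ hs0]
      have h3 := min_le_left (κ / 4) η
      nlinarith
    · refine ⟨{⊤}, ?_, ?_⟩
      · intro I hI
        rw [Finset.mem_singleton] at hI
        rw [hI]
        exact top_ne_bot
      · rw [Finset.sum_singleton, Ideal.absNorm_top, Nat.cast_one, Real.one_rpow,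
          div_le_one (by linarith)]
        have h3 := min_le_right (κ / 4) η
        linarith

end Pool.Agent.Helper31.TT
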