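import Pool.Agent.Helper31.TT.Over
import Pool.Agent.Helper31.TT.ZBounds

/-!
# TT-10  Lower bound for the sum over the prime ideals of degree one

* `sum_ideals_le_prod`: `J` a finite set of nonzero ideals: there is a finite set `T` of nonzero prime ideals
  with `∑_{I ∈ J} N(I) ^ (- s) ≤ ∏_{P ∈ T} (1 - N(P) ^ (- s))⁻¹` for all `s ≥ 1`. `T` = all the prime factors of the `I ∈ J`
  (`UniqueFactorizationMonoid.normalizedFactors`), `E` = a bound for the exponents. `I = ∏_{P ∈ T} P ^ (e_P)` with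
  `e_P < E`: `I ↦ (e_P)` is injective on `J`, `N(I) ^ (-s) = ∏ (N(P) ^ (-s)) ^ (e_P)` (`absNorm` is multiplicative, `Real.rpow`),
  `∑_J ≤ ∑_{e ∈ Fintype.piFinset (range E)} ∏_P (..) ^ (e_P) = ∏_P ∑_{e < E} (..) ^ e` (`Finset.prod_univ_sum`/`Finset.prod_sum`) and
  the geometric series. (Alternatively induction on `T` for the sum over all the ideals in `J` whose prime factors are in `T`.)
* `zeta_low`: `c/(s-1) ≤ ∏ (1 - x_P)⁻¹`, `x_P = N(P) ^ (-s) ≤ 1/2`; logarithms: `- log (1 - x) ≤ x + x ^ 2` for `0 ≤ x ≤ 1/2`;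
  `∑ x_P ^ 2 ≤ ∑ N ^ (-2) ≤ C₁` and the `P` whose norm is not a prime number contribute at most `C₁` (`absNorm_pow_sum_le`,
  `N ^ (-s) ≤ N ^ (-1)`). Take the `P ∈ T` of prime norm.
-/

set_option autoImplicit false

namespace Pool.Agent.Helper31.TT

open NumberField

private theorem tt_absNorm_prod (K : Type) [Field K] [NumberField K] (s : ℝ)
    (m : Multiset (Ideal (𝓞 K))) :
    (Ideal.absNorm m.prod : ℝ) ^ s = (m.map fun P => (Ideal.absNorm P : ℝ) ^ s).prod := by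
  induction m using Multiset.induction_on with
  | empty => simp
  | cons P m ih =>
    rw [Multiset.prod_cons, Multiset.map_cons, Multiset.prod_cons, map_mul, Nat.cast_mul,
      Real.mul_rpow (Nat.cast_nonneg _) (Nat.cast_nonneg _), ih]

private theorem tt_x_le (K : Type) [Field K] [NumberField K] {P : Ideal (𝓞 K)} (hP : P.IsPrime)
    (h0 : P ≠ ⊥) {s : ℝ} (hs : 1 ≤ s) :
    0 < (Ideal.absNorm P : ℝ) ^ (-s) ∧ (Ideal.absNorm P : ℝ) ^ (-s) ≤ 1 / 2 := by
  have h1 : Ideal.absNorm P ≠ 0 := by rwa [Ne, Ideal.absNorm_eq_zero_iff]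
  have h2 : Ideal.absNorm P ≠ 1 := by
    rw [Ne, Ideal.absNorm_eq_one_iff]
    exact hP.ne_top
  have h3 : (2 : ℝ) ≤ Ideal.absNorm P := by
    have : 2 ≤ Ideal.absNorm P := by omega
    exact_mod_cast this
  refine ⟨Real.rpow_pos_of_pos (by linarith) _, ?_⟩
  calc (Ideal.absNorm P : ℝ) ^ (-s) ≤ (2 : ℝ) ^ (-s) :=
        Real.rpow_le_rpow_of_nonpos (by norm_num) h3 (by linarith)
    _ ≤ (2 : ℝ) ^ (-1 : ℝ) := Real.rpow_le_rpow_of_exponent_le (by norm_num) (by linarith)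
    _ = 1 / 2 := by rw [Real.rpow_neg_one]; norm_num

theorem sum_ideals_le_prod (K : Type) [Field K] [NumberField K] (J : Finset (Ideal (𝓞 K)))
    (hJ : ∀ I ∈ J, I ≠ ⊥) : ∃ T : Finset (Ideal (𝓞 K)), (∀ P ∈ T, P.IsPrime ∧ P ≠ ⊥) ∧
      ∀ s : ℝ, 1 ≤ s → ∑ I ∈ J, (Ideal.absNorm I : ℝ) ^ (-s) ≤
        ∏ P ∈ T, (1 - (Ideal.absNorm P : ℝ) ^ (-s))⁻¹ := by
  classical
  obtain ⟨E, hE⟩ : ∃ E : ℕ, E =
      (J.sup fun I => Multiset.card (UniqueFactorizationMonoid.normalizedFactors I)) + 1 :=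
    ⟨_, rfl⟩
  obtain ⟨T, hT⟩ : ∃ T : Finset (Ideal (𝓞 K)), T =
      J.biUnion fun I => (UniqueFactorizationMonoid.normalizedFactors I).toFinset := ⟨_, rfl⟩
  have hTp : ∀ P ∈ T, P.IsPrime ∧ P ≠ ⊥ := by
    intro P hP
    rw [hT, Finset.mem_biUnion] at hP
    obtain ⟨I, hI, hP⟩ := hP
    rw [Multiset.mem_toFinset] at hP
    have h1 := UniqueFactorizationMonoid.prime_of_normalized_factor P hP
    exact ⟨Ideal.isPrime_of_prime h1, h1.ne_zero⟩
  refine ⟨T, hTp, fun s hs => ?_⟩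
  obtain ⟨x, hx⟩ : ∃ x : Ideal (𝓞 K) → ℝ, x = fun P => (Ideal.absNorm P : ℝ) ^ (-s) := ⟨_, rfl⟩
  have hx' : ∀ P, (Ideal.absNorm P : ℝ) ^ (-s) = x P := fun P => by rw [hx]
  simp only [hx']
  obtain ⟨φ, hφ⟩ : ∃ φ : Ideal (𝓞 K) → (T → ℕ), φ = fun I P =>
      (UniqueFactorizationMonoid.normalizedFactors I).count P.1 := ⟨_, rfl⟩
  have hx01 : ∀ P ∈ T, 0 < x P ∧ x P ≤ 1 / 2 := by
    intro P hP
    rw [← hx']
    exact tt_x_le K (hTp P hP).1 (hTp P hP).2 hs
  have hval : ∀ I ∈ J, x I = ∏ P : T, x P.1 ^ φ I P := by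
    intro I hI
    have h1 : x I = ((UniqueFactorizationMonoid.normalizedFactors I).map x).prod := by
      have h2 := tt_absNorm_prod K (-s) (UniqueFactorizationMonoid.normalizedFactors I)
      rw [Ideal.prod_normalizedFactors_eq_self (hJ I hI)] at h2
      rw [hx]
      exact h2
    rw [h1, Finset.prod_multiset_map_count, hφ]
    have h3 := Finset.prod_coe_sort T
      (fun P => x P ^ (UniqueFactorizationMonoid.normalizedFactors I).count P)
    refine Eq.trans ?_ h3.symm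
    refine Finset.prod_subset ?_ ?_
    · intro P hP
      rw [hT]
      exact Finset.mem_biUnion.2 ⟨I, hI, hP⟩
    · intro P _ hP
      rw [Multiset.mem_toFinset] at hP
      rw [Multiset.count_eq_zero_of_notMem hP, pow_zero]
  have hinj : Set.InjOn φ J := by
    intro I hI I' hI' h
    have h2 : UniqueFactorizationMonoid.normalizedFactors I =
        UniqueFactorizationMonoid.normalizedFactors I' := by
      ext P
      by_cases hP : P ∈ T
      · have h4 := congrFun h ⟨P, hP⟩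
        rw [hφ] at h4
        exact h4
      · have h3 : ∀ I₁ ∈ J, P ∉ UniqueFactorizationMonoid.normalizedFactors I₁ := by
          intro I₁ h₁ hh
          apply hP
          rw [hT]
          exact Finset.mem_biUnion.2 ⟨I₁, h₁, Multiset.mem_toFinset.2 hh⟩
        rw [Multiset.count_eq_zero_of_notMem (h3 I hI),
          Multiset.count_eq_zero_of_notMem (h3 I' hI')]
    rw [← Ideal.prod_normalizedFactors_eq_self (hJ I hI), h2,
      Ideal.prod_normalizedFactors_eq_self (hJ I' hI')]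
  have hmem : ∀ I ∈ J, φ I ∈ Fintype.piFinset fun _ : T => Finset.range E := by
    intro I hI
    rw [Fintype.mem_piFinset]
    intro P
    rw [Finset.mem_range, hE, Nat.lt_succ_iff, hφ]
    exact (Multiset.count_le_card _ _).trans (Finset.le_sup
      (f := fun I => Multiset.card (UniqueFactorizationMonoid.normalizedFactors I)) hI)
  calc ∑ I ∈ J, x I = ∑ I ∈ J, ∏ P : T, x P.1 ^ φ I P := Finset.sum_congr rfl hval
    _ = ∑ p ∈ J.image φ, ∏ P : T, x P.1 ^ p P := by rw [Finset.sum_image hinj]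
    _ ≤ ∑ p ∈ Fintype.piFinset fun _ : T => Finset.range E, ∏ P : T, x P.1 ^ p P := by
        refine Finset.sum_le_sum_of_subset_of_nonneg ?_ ?_
        · intro p hp
          obtain ⟨I, hI, rfl⟩ := Finset.mem_image.1 hp
          exact hmem I hI
        · intro p _ _
          exact Finset.prod_nonneg fun P _ => pow_nonneg (hx01 P.1 P.2).1.le _
    _ = ∏ P : T, ∑ e ∈ Finset.range E, x P.1 ^ e := by
        rw [Finset.prod_univ_sum]
    _ ≤ ∏ P : T, (1 - x P.1)⁻¹ := by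
        refine Finset.prod_le_prod (fun P _ => Finset.sum_nonneg fun e _ =>
          pow_nonneg (hx01 P.1 P.2).1.le _) fun P _ => ?_
        obtain ⟨h1, h2⟩ := hx01 P.1 P.2
        have h3 : 0 < 1 - x P.1 := by linarith
        have h4 := mul_neg_geom_sum (x P.1) E
        rw [inv_eq_one_div, le_div_iff₀ h3, mul_comm, h4]
        have h5 := pow_nonneg h1.le E
        linarith
    _ = ∏ P ∈ T, (1 - x P)⁻¹ := Finset.prod_coe_sort T (fun P => (1 - x P)⁻¹)

theorem zeta_low (K : Type) [Field K] [NumberField K] :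
    ∃ C : ℝ, ∀ s : ℝ, 1 < s → s ≤ 2 → ∃ T : Finset (Ideal (𝓞 K)),
      (∀ P ∈ T, P.IsPrime ∧ (Ideal.absNorm P).Prime) ∧
      Real.log (1 / (s - 1)) - C ≤ ∑ P ∈ T, (Ideal.absNorm P : ℝ) ^ (-s) := by
  classical
  obtain ⟨c, C₀, hc, -, hb⟩ := zeta_bounds K
  obtain ⟨C₁, hC₁, hsum⟩ := absNorm_pow_sum_le K
  refine ⟨3 * C₁ - Real.log c, fun s hs1 hs2 => ?_⟩
  obtain ⟨J, hJ, hJle⟩ := (hb s hs1 hs2).2
  obtain ⟨T, hT, hTle⟩ := sum_ideals_le_prod K J hJ
  have hle := hJle.trans (hTle s hs1.le)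
  have hpos : 0 < c / (s - 1) := div_pos hc (by linarith)
  have h1 : Real.log (c / (s - 1)) ≤
      ∑ P ∈ T, ((Ideal.absNorm P : ℝ) ^ (-s) + 2 * ((Ideal.absNorm P : ℝ) ^ (-s)) ^ 2) := by
    refine (Real.log_le_log hpos hle).trans ?_
    rw [Real.log_prod]
    · refine Finset.sum_le_sum fun P hP => ?_
      obtain ⟨h2, h3⟩ := tt_x_le K (hT P hP).1 (hT P hP).2 hs1.le
      rw [Real.log_inv]
      have h4 : 0 < 1 - (Ideal.absNorm P : ℝ) ^ (-s) := by linarith
      have h5 := Real.one_sub_inv_le_log_of_pos h4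
      have h6 : (1 - (Ideal.absNorm P : ℝ) ^ (-s))⁻¹ ≤
          1 + (Ideal.absNorm P : ℝ) ^ (-s) + 2 * ((Ideal.absNorm P : ℝ) ^ (-s)) ^ 2 := by
        rw [inv_eq_one_div, div_le_iff₀ h4]
        nlinarith [mul_nonneg (sq_nonneg ((Ideal.absNorm P : ℝ) ^ (-s)))
          (by linarith : 0 ≤ 1 - 2 * (Ideal.absNorm P : ℝ) ^ (-s))]
      linarith
    · intro P hP
      obtain ⟨h2, h3⟩ := tt_x_le K (hT P hP).1 (hT P hP).2 hs1.le
      exact inv_ne_zero (by linarith)
  rw [Finset.sum_add_distrib, ← Finset.mul_sum] at h1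
  have hN1 : ∀ P ∈ T, (1 : ℝ) ≤ Ideal.absNorm P := by
    intro P hP
    have h2 : Ideal.absNorm P ≠ 0 := by
      rw [Ne, Ideal.absNorm_eq_zero_iff]
      exact (hT P hP).2
    have : 1 ≤ Ideal.absNorm P := by omega
    exact_mod_cast this
  have h2 : ∑ P ∈ T, ((Ideal.absNorm P : ℝ) ^ (-s)) ^ 2 ≤ C₁ := by
    refine (Finset.sum_le_sum fun P hP => ?_).trans (hsum T hT).1
    rw [← Real.rpow_natCast, ← Real.rpow_mul (by linarith [hN1 P hP])]
    refine Real.rpow_le_rpow_of_exponent_le (hN1 P hP) ?_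
    push_cast
    linarith
  have h3 : ∑ P ∈ T.filter (fun P => ¬ (Ideal.absNorm P).Prime), (Ideal.absNorm P : ℝ) ^ (-s) ≤
      C₁ := by
    refine (Finset.sum_le_sum fun P hP => ?_).trans
      ((hsum (T.filter (fun P => ¬ (Ideal.absNorm P).Prime))
        (fun P hP => hT P (Finset.mem_filter.1 hP).1)).2 (fun P hP => (Finset.mem_filter.1 hP).2))
    refine Real.rpow_le_rpow_of_exponent_le (hN1 P (Finset.mem_filter.1 hP).1) ?_
    linarith
  have h4 := Finset.sum_filter_add_sum_filter_not T (fun P => (Ideal.absNorm P).Prime)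
    (fun P => (Ideal.absNorm P : ℝ) ^ (-s))
  refine ⟨T.filter (fun P => (Ideal.absNorm P).Prime), fun P hP => ?_, ?_⟩
  · exact ⟨(hT P (Finset.mem_filter.1 hP).1).1, (Finset.mem_filter.1 hP).2⟩
  · have h5 : Real.log (c / (s - 1)) = Real.log c + Real.log (1 / (s - 1)) := by
      rw [div_eq_mul_one_div, Real.log_mul hc.ne' (by
        have : 0 < 1 / (s - 1) := one_div_pos.2 (by linarith)
        exact this.ne')]
    linarith

end Pool.Agent.Helper31.TT
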