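import Pool.Agent.Helper31.TT.Over
import Pool.Agent.Helper31.TT.ZLow

/-!
# TT-12  Lower Dirichlet density: general lemmas

All the sums `∑' l : S, l ^ (-s)` converge for `s > 1` (`Real.summable_nat_rpow`, subtype; `0 ^ (-s) = 0`), the terms are
nonnegative, so finite partial sums are `≤` the `tsum` (`Summable.sum_le_tsum`; move a finset of naturals contained
in `S` to the subtype).
* `lowerDensity_of_ideals`: by `sum_deg_one_le`, `δ log (1/(s-1)) - C ≤ ∑_T ≤ n ∑_{l ∈ T.image absNorm} l ^ (-s) ≤ n ∑' l : S`.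
* `lowerDensity_of_finite_diff`: `∑' l : S ≤ ∑' l : S' + ∑_{l ∈ S \ S'} l ^ (-s)` and the last sum is at most `|S \ S'|`
  (`l ^ (-s) ≤ 1` for `l ≥ 1`, and `0 ^ (-s) = 0` for `s > 1`).
* `lowerDensity_primes`: `lowerDensity_of_ideals` for `K = ℚ`, `zeta_low ℚ`, `finrank ℚ ℚ = 1`.
-/

set_option autoImplicit false

namespace Pool.Agent.Helper31.TT

open NumberField

private lemma ttd_summable (s : ℝ) (hs : 1 < s) : Summable (fun n : ℕ => (n : ℝ) ^ (-s)) :=
  Real.summable_nat_rpow.mpr (by linarith)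

private lemma ttd_nonneg (s : ℝ) (n : ℕ) : 0 ≤ (n : ℝ) ^ (-s) :=
  Real.rpow_nonneg (Nat.cast_nonneg n) _

private lemma ttd_tsum (S : Set ℕ) (s : ℝ) :
    ∑' l : S, ((l : ℕ) : ℝ) ^ (-s) = ∑' n : ℕ, S.indicator (fun n : ℕ => (n : ℝ) ^ (-s)) n :=
  tsum_subtype S (fun n : ℕ => (n : ℝ) ^ (-s))

private lemma ttd_fin_le (S : Set ℕ) (F : Finset ℕ) (hF : ∀ l ∈ F, l ∈ S) (s : ℝ) (hs : 1 < s) :
    ∑ l ∈ F, (l : ℝ) ^ (-s) ≤ ∑' l : S, ((l : ℕ) : ℝ) ^ (-s) := by
  rw [ttd_tsum]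
  have h1 : ∑ l ∈ F, (l : ℝ) ^ (-s) = ∑ l ∈ F, S.indicator (fun n : ℕ => (n : ℝ) ^ (-s)) l :=
    Finset.sum_congr rfl fun l hl => by rw [Set.indicator_of_mem (hF l hl)]
  rw [h1]
  exact ((ttd_summable s hs).indicator S).sum_le_tsum F
    (fun n _ => Set.indicator_nonneg (fun n _ => ttd_nonneg s n) n)

private lemma ttd_le_one (s : ℝ) (hs : 1 < s) (n : ℕ) : (n : ℝ) ^ (-s) ≤ 1 := by
  rcases Nat.eq_zero_or_pos n with h | h
  · rw [h, Nat.cast_zero, Real.zero_rpow (by linarith)]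
    exact zero_le_one
  · exact Real.rpow_le_one_of_one_le_of_nonpos (by exact_mod_cast h) (by linarith)

theorem lowerDensity_of_ideals (K : Type) [Field K] [NumberField K] (S : Set ℕ) (δ : ℝ)
    (h : ∃ C : ℝ, ∀ s : ℝ, 1 < s → s ≤ 2 → ∃ T : Finset (Ideal (𝓞 K)),
      (∀ P ∈ T, P.IsPrime ∧ (Ideal.absNorm P).Prime ∧ Ideal.absNorm P ∈ S) ∧
      δ * Real.log (1 / (s - 1)) - C ≤ ∑ P ∈ T, (Ideal.absNorm P : ℝ) ^ (-s)) :
    LowerDensity S (δ / Module.finrank ℚ K) := by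
  obtain ⟨C, h⟩ := h
  have hn : (0 : ℝ) < Module.finrank ℚ K := by exact_mod_cast Module.finrank_pos
  refine ⟨C / Module.finrank ℚ K, fun s hs1 hs2 => ?_⟩
  obtain ⟨T, hT, hb⟩ := h s hs1 hs2
  have h1 := sum_deg_one_le K s T (fun P hP => ⟨(hT P hP).1, (hT P hP).2.1⟩)
  have h2 := ttd_fin_le S (T.image Ideal.absNorm) (fun l hl => by
    obtain ⟨P, hP, rfl⟩ := Finset.mem_image.mp hl
    exact (hT P hP).2.2) s hs1
  have h3 : δ * Real.log (1 / (s - 1)) - C ≤
      Module.finrank ℚ K * ∑' l : S, ((l : ℕ) : ℝ) ^ (-s) :=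
    (hb.trans h1).trans (mul_le_mul_of_nonneg_left h2 hn.le)
  have h4 : δ / Module.finrank ℚ K * Real.log (1 / (s - 1)) - C / Module.finrank ℚ K =
      (δ * Real.log (1 / (s - 1)) - C) / Module.finrank ℚ K := by
    ring
  rw [h4, div_le_iff₀ hn]
  linarith

theorem lowerDensity_of_finite_diff (S S' : Set ℕ) (δ : ℝ) (h : LowerDensity S δ)
    (hfin : (S \ S').Finite) : LowerDensity S' δ := by
  obtain ⟨C, h⟩ := h
  refine ⟨C + hfin.toFinset.card, fun s hs1 hs2 => ?_⟩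
  have hb := h s hs1 hs2
  have hsm := ttd_summable s hs1
  have h1 : ∑' l : S, ((l : ℕ) : ℝ) ^ (-s) ≤
      ∑' l : S', ((l : ℕ) : ℝ) ^ (-s) + hfin.toFinset.card := by
    rw [ttd_tsum, ttd_tsum]
    have h2 : ∑' n : ℕ, S.indicator (fun n : ℕ => (n : ℝ) ^ (-s)) n ≤
        ∑' n : ℕ, (S'.indicator (fun n : ℕ => (n : ℝ) ^ (-s)) n +
          (S \ S').indicator (fun n : ℕ => (n : ℝ) ^ (-s)) n) := by
      refine (hsm.indicator S).tsum_le_tsum (fun n => ?_)
        ((hsm.indicator S').add (hsm.indicator (S \ S')))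
      by_cases hS : n ∈ S
      · by_cases hS' : n ∈ S'
        · rw [Set.indicator_of_mem hS, Set.indicator_of_mem hS',
            Set.indicator_of_notMem (fun h => h.2 hS')]
          linarith
        · rw [Set.indicator_of_mem hS, Set.indicator_of_notMem hS',
            Set.indicator_of_mem (show n ∈ S \ S' from ⟨hS, hS'⟩)]
          linarith
      · rw [Set.indicator_of_notMem hS]
        exact add_nonneg (Set.indicator_nonneg (fun n _ => ttd_nonneg s n) n)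
          (Set.indicator_nonneg (fun n _ => ttd_nonneg s n) n)
    rw [(hsm.indicator S').tsum_add (hsm.indicator (S \ S'))] at h2
    have h3 : ∑' n : ℕ, (S \ S').indicator (fun n : ℕ => (n : ℝ) ^ (-s)) n ≤
        hfin.toFinset.card := by
      rw [tsum_eq_sum (s := hfin.toFinset) (fun n hn => Set.indicator_of_notMem
        (fun h => hn (hfin.mem_toFinset.mpr h)) _)]
      calc ∑ n ∈ hfin.toFinset, (S \ S').indicator (fun n : ℕ => (n : ℝ) ^ (-s)) n
          ≤ ∑ _n ∈ hfin.toFinset, (1 : ℝ) := by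
            refine Finset.sum_le_sum fun n hn => ?_
            rw [Set.indicator_of_mem (hfin.mem_toFinset.mp hn)]
            exact ttd_le_one s hs1 n
        _ = hfin.toFinset.card := by simp
    linarith
  linarith

theorem lowerDensity_primes : LowerDensity {ℓ | ℓ.Prime} 1 := by
  obtain ⟨C, h⟩ := zeta_low ℚ
  have h1 : LowerDensity {ℓ | ℓ.Prime} ((1 : ℝ) / Module.finrank ℚ ℚ) := by
    refine lowerDensity_of_ideals ℚ {ℓ | ℓ.Prime} 1 ⟨C, fun s hs1 hs2 => ?_⟩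
    obtain ⟨T, hT, hb⟩ := h s hs1 hs2
    exact ⟨T, fun P hP => ⟨(hT P hP).1, (hT P hP).2, (hT P hP).2⟩, by rw [one_mul]; exact hb⟩
  rw [Module.finrank_self, Nat.cast_one, div_one] at h1
  exact h1

end Pool.Agent.Helper31.TT
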