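import Pool.Agent.Helper31.TT.RootRed

/-!
# TT-16  Integral polynomials without nonzero real roots have no nonzero root modulo many primes

`L` = the splitting field of `R` over `ℚ` (a number field, Galois over `ℚ`), `φ : L →ₐ[ℚ] ℂ` an embedding (`IsAlgClosed.lift`); `L` becomes
a subfield of `ℂ` (`φ.toRingHom.toAlgebra`, `IsScalarTower ℚ L ℂ`). Complex conjugation restricts to an automorphism `c` of `L`
(`AlgEquiv.restrictNormal (Complex.conjAe.restrictScalars ℚ) L`), `φ (c x) = conj (φ x)`, `c ∘ c = id`.
Case 1: `c = id`. Then `φ x` is real for all `x`, so all roots of `R` (in `ℂ`, they are in the image of `φ`) are real, hence `0`: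
`R = X ^ d`; every prime `ℓ` satisfies `NoRootMod R ℓ` (`a ^ d ≠ 0`), `[L : ℚ] = 1` (`X ^ d` splits over `ℚ`) and `lowerDensity_primes` gives it.
(The natural number `finrank` in the statement is the one of `(R.map (Int.castRingHom ℚ)).SplittingField`.)
Case 2: `c ≠ id`. `K = IntermediateField.fixedField (Subgroup.zpowers c)` (a number field), `c` is an automorphism over `K`
(`IntermediateField.fixingSubgroup`, or build `AlgEquiv.ofRingEquiv`), `c x = x` implies `x ∈ K`, `[L : K] = 2` (the group has `2`
elements, `IntermediateField.finrank_fixedField_eq_card`), `[L : ℚ] = 2 [K : ℚ]`. A nonzero root `x ∈ L` of `R` with `c x = x` would give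
the nonzero real root `φ x`. `frob_density`, `noRootMod_of_frob`, `lowerDensity_of_finite_diff` (the `ℓ` which divide `M`).
-/

set_option autoImplicit false

namespace Pool.Agent.Helper31.TT

open NumberField Polynomial

private theorem pd_mono {S S' : Set ℕ} {δ δ' : ℝ} (h : LowerDensity S δ) (hδ : δ' ≤ δ)
    (hS : S ⊆ S') : LowerDensity S' δ' := by
  have h1 : LowerDensity S δ' := by
    obtain ⟨C, hC⟩ := h
    refine ⟨C, fun s hs1 hs2 => le_trans ?_ (hC s hs1 hs2)⟩
    have h2 : 0 ≤ Real.log (1 / (s - 1)) := by
      apply Real.log_nonneg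
      rw [le_div_iff₀ (by linarith)]
      linarith
    have h3 := mul_le_mul_of_nonneg_right hδ h2
    linarith
  refine lowerDensity_of_finite_diff S S' δ' h1 ?_
  rw [Set.sdiff_eq_empty.2 hS]
  exact Set.finite_empty

private theorem pd_real {L : Type} [Field L] [Algebra ℚ L] (φ : L →ₐ[ℚ] ℂ) {R : ℤ[X]}
    (h : ∀ x : ℝ, x ≠ 0 → (R.map (Int.castRingHom ℝ)).eval x ≠ 0) {x : L}
    (hx : aeval x R = 0) (hc : (starRingEnd ℂ) (φ x) = φ x) : x = 0 := by
  obtain ⟨y, hy⟩ := Complex.conj_eq_iff_real.1 hc
  have h1 : aeval (φ x) R = 0 := by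
    have h2 : aeval (φ x) R = φ (aeval x R) := by
      rw [aeval_def, aeval_def]
      change _ = φ.toRingHom (eval₂ (algebraMap ℤ L) x R)
      rw [hom_eval₂]
      have h3 : φ.toRingHom.comp (algebraMap ℤ L) = algebraMap ℤ ℂ := RingHom.ext_int _ _
      rw [h3]
      rfl
    rw [h2, hx, map_zero]
  rw [hy] at h1
  have h3 : (((R.map (Int.castRingHom ℝ)).eval y : ℝ) : ℂ) = aeval (y : ℂ) R := by
    rw [eval_map, aeval_def]
    change Complex.ofRealHom (eval₂ (Int.castRingHom ℝ) y R) = _
    rw [hom_eval₂]
    have h4 : Complex.ofRealHom.comp (Int.castRingHom ℝ) = algebraMap ℤ ℂ := RingHom.ext_int _ _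
    rw [h4]
    rfl
  rw [h1] at h3
  have h4 : (R.map (Int.castRingHom ℝ)).eval y = 0 := by exact_mod_cast h3
  by_contra hne
  refine h y ?_ h4
  rintro rfl
  apply hne
  apply φ.toRingHom.injective
  change φ x = φ 0
  rw [hy, map_zero, Complex.ofReal_zero]

theorem poly_density (R : ℤ[X]) (hR : R.Monic)
    (h : ∀ x : ℝ, x ≠ 0 → (R.map (Int.castRingHom ℝ)).eval x ≠ 0) :
    LowerDensity {ℓ | ℓ.Prime ∧ NoRootMod R ℓ}
      (1 / Module.finrank ℚ (R.map (Int.castRingHom ℚ)).SplittingField) := by
  classical
  have key : ∀ (L : Type) [Field L] [Algebra ℚ L] [NumberField L] [IsGalois ℚ L],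
      (R.map (Int.castRingHom L)).Splits →
      LowerDensity {ℓ | ℓ.Prime ∧ NoRootMod R ℓ} (1 / Module.finrank ℚ L) := by
    intro L _ _ _ _ hs
    obtain ⟨φ⟩ : Nonempty (L →ₐ[ℚ] ℂ) := ⟨IsAlgClosed.lift⟩
    obtain ⟨c, hc⟩ : ∃ c : L ≃ₐ[ℚ] L, ∀ x, φ (c x) = (starRingEnd ℂ) (φ x) := by
      let _ : Algebra L ℂ := φ.toRingHom.toAlgebra
      have _ : IsScalarTower ℚ L ℂ := IsScalarTower.of_algebraMap_eq fun q => (φ.commutes q).symm
      refine ⟨AlgEquiv.restrictNormal (Complex.conjAe.restrictScalars ℚ) L, fun x => ?_⟩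
      exact AlgEquiv.restrictNormal_commutes (Complex.conjAe.restrictScalars ℚ) L x
    have hinj : Function.Injective φ := φ.toRingHom.injective
    have hcc : ∀ x, c (c x) = x := by
      intro x
      apply hinj
      rw [hc, hc]
      exact Complex.conj_conj _
    have hroot : ∀ x : L, aeval x R = 0 → c x = x → x = 0 := by
      intro x hx hcx
      refine pd_real φ h hx ?_
      rw [← hc, hcx]
    by_cases hid : ∀ x, c x = x
    · -- all roots are zero
      have hm : (R.map (Int.castRingHom L)).Monic := hR.map _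
      have hroots : (R.map (Int.castRingHom L)).roots =
          Multiset.replicate (R.map (Int.castRingHom L)).roots.card 0 := by
        rw [Multiset.eq_replicate]
        refine ⟨rfl, fun x hx => ?_⟩
        have h1 := (mem_roots hm.ne_zero).1 hx
        rw [IsRoot.def, eval_map] at h1
        refine hroot x ?_ (hid x)
        rw [aeval_def]
        exact h1
      have hX : R.map (Int.castRingHom L) = X ^ (R.map (Int.castRingHom L)).roots.card := by
        conv_lhs => rw [hs.eq_prod_roots_of_monic hm, hroots]
        rw [Multiset.map_replicate, Multiset.prod_replicate, C_0, sub_zero]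
      have hRX : R = X ^ (R.map (Int.castRingHom L)).roots.card := by
        apply map_injective (Int.castRingHom L) Int.cast_injective
        conv_lhs => rw [hX]
        rw [Polynomial.map_pow, map_X]
      refine pd_mono lowerDensity_primes ?_ ?_
      · rw [div_le_one (by exact_mod_cast Module.finrank_pos)]
        exact_mod_cast (Nat.one_le_iff_ne_zero.2 Module.finrank_pos.ne')
      · intro ℓ hℓ
        have hℓ' : ℓ.Prime := hℓ
        have : Fact ℓ.Prime := ⟨hℓ'⟩
        refine ⟨hℓ', fun a ha => ?_⟩
        rw [hRX, Polynomial.map_pow, map_X, eval_pow, eval_X]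
        exact pow_ne_zero _ ha
    · push Not at hid
      obtain ⟨x₀, hx₀⟩ := hid
      have hc1 : c ≠ 1 := by
        rintro rfl
        exact hx₀ rfl
      have hc2 : c ^ 2 = 1 := by
        ext x
        rw [pow_two]
        exact hcc x
      have hord : orderOf c = 2 := orderOf_eq_prime hc2 hc1
      obtain ⟨K, hK⟩ : ∃ K : IntermediateField ℚ L,
          K = IntermediateField.fixedField (Subgroup.zpowers c) := ⟨_, rfl⟩
      have hKc : ∀ x : L, x ∈ K ↔ c x = x := by
        intro x
        rw [hK, IntermediateField.mem_fixedField_iff]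
        constructor
        · intro h1
          exact h1 c (Subgroup.mem_zpowers c)
        · intro h1 g hg
          obtain ⟨n, rfl⟩ := Subgroup.mem_zpowers_iff.1 hg
          have h2 : c ∈ MulAction.stabilizer (L ≃ₐ[ℚ] L) x := h1
          exact Subgroup.zpow_mem _ h2 n
      have hnK : NumberField K := inferInstance
      obtain ⟨c', hc'⟩ : ∃ c' : L ≃ₐ[K] L, ∀ x, c' x = c x := by
        refine ⟨AlgEquiv.ofRingEquiv (f := c.toRingEquiv) fun k => ?_, fun x => rfl⟩
        exact (hKc _).1 k.2
      have hd := frob_density c' (fun x => by rw [hc', hc', hcc])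
        (fun x hx => ⟨⟨x, (hKc x).2 (by rw [← hc', hx])⟩, rfl⟩) ⟨x₀, by rw [hc']; exact hx₀⟩
      have hfin : (Module.finrank ℚ L : ℝ) = 2 * Module.finrank ℚ K := by
        have h1 : Module.finrank ℚ K * Module.finrank K L = Module.finrank ℚ L :=
          Module.finrank_mul_finrank ℚ K L
        have h2 : Module.finrank K L = 2 := by
          rw [hK, IntermediateField.finrank_fixedField_eq_card, Nat.card_zpowers, hord]
        rw [h2] at h1
        rw [← h1]
        push_cast
        ring
      obtain ⟨M, hM, hMr⟩ := noRootMod_of_frob c' R hR hs (fun x hx hxr hcx => hx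
        (hroot x hxr (by rw [← hc', hcx])))
      have hfd : (frobPrimes c' \ {ℓ | ℓ.Prime ∧ NoRootMod R ℓ}).Finite := by
        refine Set.Finite.subset (Nat.divisors M).finite_toSet ?_
        rintro ℓ ⟨h1, h2⟩
        rw [Finset.mem_coe, Nat.mem_divisors]
        refine ⟨?_, hM.ne'⟩
        by_contra h3
        exact h2 ⟨h1.1, hMr ℓ h1 h3⟩
      have h5 := lowerDensity_of_finite_diff _ _ _ hd hfd
      convert h5 using 1
      rw [hfin, div_div]
      congr!
      exact (subsingleton_rat_module K).elim _ _
  have hSF : IsSplittingField ℚ (R.map (Int.castRingHom ℚ)).SplittingField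
      (R.map (Int.castRingHom ℚ)) := IsSplittingField.splittingField _
  have hGal : IsGalois ℚ (R.map (Int.castRingHom ℚ)).SplittingField :=
    { to_isSeparable := inferInstance
      to_normal := Normal.of_isSplittingField (R.map (Int.castRingHom ℚ)) }
  have hNF : NumberField (R.map (Int.castRingHom ℚ)).SplittingField :=
    { to_charZero := inferInstance
      to_finiteDimensional := inferInstance }
  refine key (R.map (Int.castRingHom ℚ)).SplittingField ?_
  have h1 := SplittingField.splits (R.map (Int.castRingHom ℚ))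
  rw [Polynomial.map_map] at h1
  convert h1 using 2
  exact RingHom.ext_int _ _

end Pool.Agent.Helper31.TT
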