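import Pool.Agent.Helper31.TT.Defs

/-!
# TT: the statement
-/

set_option autoImplicit false

namespace Pool.Agent.Helper31.TT

open Polynomial

/-- The statement of the theorem. -/
def TTStatement : Prop :=
  ∀ (F : Type) [Field F] [Fintype F] (V W : AffVar F) (c P B R : ℤ[X]) (M : ℕ),
    P.Monic → B.Monic → R.Monic → Counts V W c P →
    (∀ α ∈ croots P, ∀ u ∈ croots B, ∀ n : ℕ, 0 < n →
      n.totient ≤ (P.natDegree + 1) * B.natDegree →
      ∃ i : ℕ, (α * u) ^ (2 * n * M * i) ∈ croots R) →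
    (∀ ℓ : ℕ, ℓ.Prime → NoRootMod R ℓ →
      ∀ (F' : Type) [Field F'] [Fintype F'] [Algebra F F'], ℓ ∣ Fintype.card F' - 1 →
      (∃ a : ℕ, Module.finrank F F' ∣ M * (ℓ - 1) * ℓ ^ a) →
      ∀ (k : ℕ) (V' W' : AffVar F'), LTower ℓ (V.baseChange F') k V' →
      LTower ℓ (W.baseChange F') k W' → ∀ c' Q : ℤ[X], Q.Monic →
      Counts V' W' c' Q → ∀ u ∈ croots B,
        (ssCount (Fintype.card F') Q (u ^ Module.finrank F F') : ℤ) ≤
          max 0 ((ℓ : ℤ) ^ k * c.eval 1 - c'.eval 1)) ∧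
    ((∀ x : ℝ, x ≠ 0 → (R.map (Int.castRingHom ℝ)).eval x ≠ 0) →
      LowerDensity {ℓ | ℓ.Prime ∧ NoRootMod R ℓ}
        (1 / Module.finrank ℚ (R.map (Int.castRingHom ℚ)).SplittingField))

end Pool.Agent.Helper31.TT
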