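import Pool.Agent.Helper31.TT.Main3
import Pool.Agent.Helper31.TT.PolyDens
import Pool.Agent.Helper31.TT.Stmt

/-!
# TT-25  The theorem
-/

set_option autoImplicit false

namespace Pool.Agent.Helper31.TT

theorem tt_final : TTStatement := by
  intro F _ _ V W c P B R M hP hB hR hPc hroots
  refine ⟨?_, fun h => poly_density R hR h⟩
  intro ℓ hℓ hno F' _ _ _ hF' hdeg k V' W' hV hW c' Q hQ hQc u hu
  exact part_one_count V W c P B R M hP hB hR hPc hroots ℓ hℓ hno F' hF' hdeg k V' W'
    hV hW c' Q hQ hQc u hu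

end Pool.Agent.Helper31.TT
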