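import Pool.Agent.Helper31.TT.Defs

/-!
# TT-13  An involution and the prime ideals of degree one

`c` is an automorphism of `L` over `K` with `c ∘ c = id`, `K` = all its fixed elements (`[L : K] = 2`). `c` acts on `𝓞 L`
(`RingOfIntegers.mapRingEquiv`); `conjI c P` is the inverse image of `P` under `c`.
* `frob_of_inert`: `κ = 𝓞 L ⧸ P` has characteristic `ℓ` (`ℓ ∈ P`). For `x ∈ 𝓞 L` the elements `t = x + c x`, `n = x (c x)` are fixed by
  `c`, so they come from `𝓞 K` (integral elements of `K`), and every element `a` of `𝓞 K` satisfies `a ^ ℓ - a ∈ 𝔭`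
  (`𝔭 = P ∩ 𝓞 K`, `𝓞 K ⧸ 𝔭` is a field with `ℓ` elements, `ZMod`/`FiniteField.pow_card`). So in `κ`: `x ^ ℓ` is a root of
  `(T - x)(T - c x) = T ^ 2 - t T + n` (Frobenius applied to `x ^ 2 - t x + n = 0`; `t ^ ℓ = t`, `n ^ ℓ = n` in `κ`). Hence
  `(x ^ ℓ - x) (x ^ ℓ - c x) ∈ P` for all `x`. `A = {x | x ^ ℓ - x ∈ P}` and `B = {x | x ^ ℓ - c x ∈ P}` are additive subgroups
  (`(x + y) ^ ℓ ≡ x ^ ℓ + y ^ ℓ` mod `P`) with union `𝓞 L`, so one of them is everything (a group is not the union of two proper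
  subgroups: take `x ∉ A`, `y ∉ B`, then `x + y` is in neither). If `A` is everything then all elements of the field `κ` are roots
  of `T ^ ℓ - T`, so `|κ| ≤ ℓ`, and `|κ| = absNorm P` is then `ℓ` (a field of characteristic `ℓ` has at least `ℓ` elements),
  a contradiction.
* `conjI_*`: `c` is an automorphism: `𝓞 L ⧸ conjI c P ≃ 𝓞 L ⧸ P`; `c` is the identity on `𝓞 K`.
* `finite_fixed`: `c x₀ ≠ x₀` for some `x₀ ∈ 𝓞 L` (clear denominators). If `conjI c P = P` and `absNorm P = ℓ` is prime, `x₀ ≡ a` mod `P` with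
  `a ∈ ℤ` (`𝓞 L ⧸ P` has `ℓ` elements, `ℤ → 𝓞 L ⧸ P` is surjective), so `c x₀ ≡ a` mod `P`, `c x₀ - x₀ ∈ P`. Only finitely many prime
  ideals contain the nonzero element `c x₀ - x₀` (`Ideal.finite_factors` or the norm is bounded: `Ideal.absNorm P ∣ absNorm (span ..)`,
  `Ideal.finite_setOf_absNorm_le`).
-/

set_option autoImplicit false

namespace Pool.Agent.Helper31.TT

open NumberField

variable {K L : Type} [Field K] [NumberField K] [Field L] [NumberField L] [Algebra K L]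

/-- the inverse image of an ideal under an automorphism -/
noncomputable def conjI (c : L ≃ₐ[K] L) (P : Ideal (𝓞 L)) : Ideal (𝓞 L) :=
  P.comap (RingOfIntegers.mapRingHom ((c : L ≃+* L) : L →+* L))

/-- the automorphism on the integers -/
private noncomputable def h86s (c : L ≃ₐ[K] L) : 𝓞 L →+* 𝓞 L :=
  RingOfIntegers.mapRingHom ((c : L ≃+* L) : L →+* L)

private theorem h86s_coe (c : L ≃ₐ[K] L) (x : 𝓞 L) : ((h86s c x : 𝓞 L) : L) = c (x : L) := rfl

private theorem h86coe_inj {x y : 𝓞 L} (h : (x : L) = (y : L)) : x = y :=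
  RingOfIntegers.coe_injective h

private theorem h86s_alg (c : L ≃ₐ[K] L) (a : 𝓞 K) :
    h86s c (algebraMap (𝓞 K) (𝓞 L) a) = algebraMap (𝓞 K) (𝓞 L) a := by
  apply h86coe_inj
  rw [h86s_coe]
  change c (algebraMap K L (a : K)) = algebraMap K L (a : K)
  exact c.commutes _

private theorem h86mem_conjI (c : L ≃ₐ[K] L) (P : Ideal (𝓞 L)) (x : 𝓞 L) :
    x ∈ conjI c P ↔ h86s c x ∈ P := Iff.rfl

private theorem h86fix (c : L ≃ₐ[K] L) (hfix : ∀ x, c x = x → ∃ a : K, algebraMap K L a = x)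
    (x : 𝓞 L) (hx : h86s c x = x) : ∃ a : 𝓞 K, algebraMap (𝓞 K) (𝓞 L) a = x := by
  obtain ⟨a, ha⟩ := hfix (x : L) (by rw [← h86s_coe, hx])
  have hi : IsIntegral ℤ a := by
    have h1 : IsIntegral ℤ (algebraMap K L a) := by
      rw [ha]
      exact x.isIntegral_coe
    exact (isIntegral_algebraMap_iff (algebraMap K L).injective).mp h1
  exact ⟨⟨a, hi⟩, h86coe_inj ha⟩

private theorem h86ne_bot {F : Type} [Field F] [NumberField F] (P : Ideal (𝓞 F)) {ℓ : ℕ}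
    (hℓ : ℓ.Prime) (h : Ideal.absNorm P = ℓ) : P ≠ ⊥ := by
  rintro rfl
  rw [Ideal.absNorm_bot] at h
  exact hℓ.ne_zero h.symm

private theorem h86card {F : Type} [Field F] [NumberField F] (P : Ideal (𝓞 F)) :
    Nat.card (𝓞 F ⧸ P) = Ideal.absNorm P := by
  rw [Ideal.absNorm_apply, Submodule.cardQuot_apply]

/-- `a ^ ℓ - a` is in a prime ideal with `ℓ` residue classes. -/
private theorem h86pow {F : Type} [Field F] [NumberField F] (p : Ideal (𝓞 F)) (hp : p.IsPrime)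
    {ℓ : ℕ} (hℓ : ℓ.Prime) (h : Ideal.absNorm p = ℓ) (a : 𝓞 F) : a ^ ℓ - a ∈ p := by
  have hb : p ≠ ⊥ := h86ne_bot p hℓ h
  have hm : p.IsMaximal := hp.isMaximal hb
  have hfin : Finite (𝓞 F ⧸ p) := Ideal.finiteQuotientOfFreeOfNeBot p hb
  letI := Fintype.ofFinite (𝓞 F ⧸ p)
  letI := Ideal.Quotient.field p
  have hc : Fintype.card (𝓞 F ⧸ p) = ℓ := by rw [← Nat.card_eq_fintype_card, h86card, h]
  have h1 := FiniteField.pow_card (Ideal.Quotient.mk p a)
  rw [hc] at h1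
  rw [← Ideal.Quotient.eq_zero_iff_mem, map_sub, map_pow, h1, sub_self]

private theorem h86int (P : Ideal (𝓞 L)) (hP : (Ideal.absNorm P).Prime) (x : 𝓞 L) :
    ∃ a : ℤ, x - (a : 𝓞 L) ∈ P := by
  have hcard : (Nat.card (𝓞 L ⧸ P)).Prime := by rw [h86card]; exact hP
  haveI : Fact (Nat.card (𝓞 L ⧸ P)).Prime := ⟨hcard⟩
  have hnt : Nontrivial (𝓞 L ⧸ P) := by
    by_contra hn
    rw [not_nontrivial_iff_subsingleton] at hn
    have : Nat.card (𝓞 L ⧸ P) = 1 := Nat.card_of_subsingleton 0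
    exact hcard.one_lt.ne' this
  rcases AddSubgroup.eq_bot_or_eq_top_of_prime_card
    (AddSubgroup.zmultiples (1 : 𝓞 L ⧸ P)) with h | h
  · exfalso
    have h1 : (1 : 𝓞 L ⧸ P) ∈ AddSubgroup.zmultiples (1 : 𝓞 L ⧸ P) :=
      AddSubgroup.mem_zmultiples _
    rw [h, AddSubgroup.mem_bot] at h1
    exact one_ne_zero h1
  · have h1 : Ideal.Quotient.mk P x ∈ AddSubgroup.zmultiples (1 : 𝓞 L ⧸ P) := by
      rw [h]
      exact AddSubgroup.mem_top _
    obtain ⟨a, ha⟩ := AddSubgroup.mem_zmultiples_iff.mp h1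
    refine ⟨a, ?_⟩
    rw [← Ideal.Quotient.eq_zero_iff_mem, map_sub, map_intCast, ← ha, zsmul_one, sub_self]

theorem frob_of_inert (c : L ≃ₐ[K] L) (hc : ∀ x, c (c x) = x)
    (hfix : ∀ x, c x = x → ∃ a : K, algebraMap K L a = x) (P : Ideal (𝓞 L)) (hP : P.IsPrime)
    (ℓ : ℕ) (hℓ : ℓ.Prime)
    (h1 : Ideal.absNorm (P.comap (algebraMap (𝓞 K) (𝓞 L))) = ℓ) (h2 : Ideal.absNorm P ≠ ℓ) :
    ∀ x y : 𝓞 L, (y : L) = c (x : L) → x ^ ℓ - y ∈ P := by
  have hp : (P.comap (algebraMap (𝓞 K) (𝓞 L))).IsPrime := hP.comap _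
  have hb : P ≠ ⊥ := by
    intro hb
    refine h86ne_bot _ hℓ h1 ?_
    rw [hb, eq_bot_iff]
    intro a ha
    rw [Ideal.mem_comap, Ideal.mem_bot] at ha
    rw [Ideal.mem_bot]
    have hinj : Function.Injective (algebraMap (𝓞 K) (𝓞 L)) :=
      RingOfIntegers.algebraMap.injective K L
    exact hinj (by rw [ha, map_zero])
  have hm : P.IsMaximal := hP.isMaximal hb
  have hfin : Finite (𝓞 L ⧸ P) := Ideal.finiteQuotientOfFreeOfNeBot P hb
  letI : Fintype (𝓞 L ⧸ P) := Fintype.ofFinite (𝓞 L ⧸ P)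
  letI : Field (𝓞 L ⧸ P) := Ideal.Quotient.field P
  haveI : Fact ℓ.Prime := ⟨hℓ⟩
  -- the characteristic
  have hℓP : ((ℓ : ℕ) : 𝓞 L) ∈ P := by
    have h3 := Ideal.absNorm_mem (P.comap (algebraMap (𝓞 K) (𝓞 L)))
    rw [h1, Ideal.mem_comap, map_natCast] at h3
    exact h3
  haveI hchar : CharP (𝓞 L ⧸ P) ℓ := by
    rw [CharP.charP_iff_prime_eq_zero hℓ]
    rw [← map_natCast (Ideal.Quotient.mk P), Ideal.Quotient.eq_zero_iff_mem]
    exact hℓP
  set q : 𝓞 L →+* 𝓞 L ⧸ P := Ideal.Quotient.mk P with hq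
  have hK : ∀ a : 𝓞 K, q (algebraMap (𝓞 K) (𝓞 L) a) ^ ℓ = q (algebraMap (𝓞 K) (𝓞 L) a) := by
    intro a
    have h3 := h86pow _ hp hℓ h1 a
    rw [Ideal.mem_comap, map_sub, map_pow, ← Ideal.Quotient.eq_zero_iff_mem, map_sub, map_pow,
      sub_eq_zero] at h3
    exact h3
  have hss : ∀ x : 𝓞 L, h86s c (h86s c x) = x := fun x => h86coe_inj (by
    rw [h86s_coe, h86s_coe, hc])
  have hprod : ∀ x : 𝓞 L, (q x ^ ℓ - q x) * (q x ^ ℓ - q (h86s c x)) = 0 := by
    intro x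
    obtain ⟨t, ht⟩ := h86fix c hfix (x + h86s c x) (by rw [map_add, hss, add_comm])
    obtain ⟨n, hn⟩ := h86fix c hfix (x * h86s c x) (by rw [map_mul, hss, mul_comm])
    have ht' := hK t
    have hn' := hK n
    rw [ht, map_add, add_pow_char] at ht'
    rw [hn, map_mul, mul_pow] at hn'
    have e1 : q (h86s c x) ^ ℓ = q x + q (h86s c x) - q x ^ ℓ := by rw [← ht']; ring
    rw [e1] at hn'
    linear_combination -hn'
  have hadd : ∀ x y : 𝓞 L, q (x + y) ^ ℓ = q x ^ ℓ + q y ^ ℓ := fun x y => by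
    rw [map_add, add_pow_char]
  -- some element is not fixed by the Frobenius
  have hx0 : ∃ x₀ : 𝓞 L, q x₀ ^ ℓ ≠ q x₀ := by
    by_contra hall
    push Not at hall
    apply h2
    have hroot : ∀ z : 𝓞 L ⧸ P, z ^ ℓ = z := by
      intro z
      obtain ⟨x, rfl⟩ := Ideal.Quotient.mk_surjective z
      exact hall x
    have hle : Fintype.card (𝓞 L ⧸ P) ≤ ℓ := by
      have hne : (Polynomial.X ^ ℓ - Polynomial.X : Polynomial (𝓞 L ⧸ P)) ≠ 0 :=
        FiniteField.X_pow_card_sub_X_ne_zero _ hℓ.one_lt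
      have hdeg : (Polynomial.X ^ ℓ - Polynomial.X : Polynomial (𝓞 L ⧸ P)).natDegree = ℓ :=
        FiniteField.X_pow_card_sub_X_natDegree_eq _ hℓ.one_lt
      calc Fintype.card (𝓞 L ⧸ P) = (Finset.univ : Finset (𝓞 L ⧸ P)).card := Finset.card_univ.symm
        _ ≤ (Polynomial.X ^ ℓ - Polynomial.X : Polynomial (𝓞 L ⧸ P)).natDegree := by
            refine Polynomial.card_le_degree_of_subset_roots ?_
            intro z _
            rw [Polynomial.mem_roots hne, Polynomial.IsRoot.def]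
            simp [hroot z]
        _ = ℓ := hdeg
    obtain ⟨n, -, hn⟩ := FiniteField.card (𝓞 L ⧸ P) ℓ
    have hge : ℓ ≤ Fintype.card (𝓞 L ⧸ P) := by
      rw [hn]
      exact Nat.le_self_pow n.ne_zero ℓ
    rw [← h86card, Nat.card_eq_fintype_card]
    exact le_antisymm hle hge
  obtain ⟨x₀, hx₀⟩ := hx0
  have hx₀' : q x₀ ^ ℓ = q (h86s c x₀) := by
    rcases mul_eq_zero.mp (hprod x₀) with h | h
    · exact absurd (sub_eq_zero.mp h) hx₀
    · exact sub_eq_zero.mp h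
  intro x y hxy
  have hy : y = h86s c x := h86coe_inj (by rw [hxy, h86s_coe])
  rw [hy, ← Ideal.Quotient.eq_zero_iff_mem, map_sub, map_pow]
  by_contra hne
  have hxA : q x ^ ℓ = q x := by
    rcases mul_eq_zero.mp (hprod x) with h | h
    · exact sub_eq_zero.mp h
    · exact absurd h hne
  rcases mul_eq_zero.mp (hprod (x₀ + x)) with h | h
  · rw [sub_eq_zero, hadd, map_add, hxA] at h
    exact hx₀ (add_right_cancel h)
  · rw [sub_eq_zero, hadd, map_add (h86s c), map_add, hx₀'] at h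
    exact hne (sub_eq_zero.mpr (add_left_cancel h))

theorem conjI_isPrime (c : L ≃ₐ[K] L) (P : Ideal (𝓞 L)) (hP : P.IsPrime) :
    (conjI c P).IsPrime := hP.comap _

theorem conjI_absNorm (c : L ≃ₐ[K] L) (P : Ideal (𝓞 L)) :
    Ideal.absNorm (conjI c P) = Ideal.absNorm P := by
  let e : 𝓞 L ≃+* 𝓞 L := RingOfIntegers.mapRingEquiv (c : L ≃+* L)
  have he : conjI c P = P.comap (e : 𝓞 L →+* 𝓞 L) := by
    ext x
    rfl
  rw [← h86card, ← h86card]
  refine Nat.card_congr (Ideal.quotientEquiv (conjI c P) P e ?_).toEquiv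
  rw [he]
  exact (Ideal.map_comap_of_surjective (e : 𝓞 L →+* 𝓞 L) e.surjective P).symm

theorem conjI_comap (c : L ≃ₐ[K] L) (P : Ideal (𝓞 L)) :
    (conjI c P).comap (algebraMap (𝓞 K) (𝓞 L)) = P.comap (algebraMap (𝓞 K) (𝓞 L)) := by
  ext a
  rw [Ideal.mem_comap, Ideal.mem_comap, h86mem_conjI, h86s_alg]

theorem finite_fixed (c : L ≃ₐ[K] L) (hne : ∃ x, c x ≠ x) :
    ∃ E : Finset (Ideal (𝓞 L)), ∀ P : Ideal (𝓞 L), P.IsPrime → (Ideal.absNorm P).Prime →
      conjI c P = P → P ∈ E := by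
  obtain ⟨x, hx⟩ := hne
  have hx0 : ∃ x₀ : 𝓞 L, h86s c x₀ ≠ x₀ := by
    by_contra hall
    push Not at hall
    apply hx
    obtain ⟨a, b, -, hab⟩ := IsFractionRing.div_surjective (𝓞 L) x
    rw [← hab, map_div₀]
    have ha := congrArg ((↑) : 𝓞 L → L) (hall a)
    have hb := congrArg ((↑) : 𝓞 L → L) (hall b)
    rw [h86s_coe] at ha hb
    change c (a : L) / c (b : L) = (a : L) / (b : L)
    rw [ha, hb]
  obtain ⟨x₀, hx₀⟩ := hx0
  set d : 𝓞 L := h86s c x₀ - x₀ with hd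
  have hd0 : d ≠ 0 := sub_ne_zero.mpr hx₀
  have hfin : {I : Ideal (𝓞 L) | Ideal.absNorm I ≤ Ideal.absNorm (Ideal.span {d})}.Finite :=
    Ideal.finite_setOfPred_absNorm_le _
  refine ⟨hfin.toFinset, ?_⟩
  intro P _ hPp hPc
  rw [Set.Finite.mem_toFinset]
  change Ideal.absNorm P ≤ Ideal.absNorm (Ideal.span {d})
  obtain ⟨a, ha⟩ := h86int P hPp x₀
  have ha' : h86s c x₀ - (a : 𝓞 L) ∈ P := by
    have h1 : x₀ - (a : 𝓞 L) ∈ conjI c P := by rw [hPc]; exact ha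
    rw [h86mem_conjI, map_sub, map_intCast] at h1
    exact h1
  have hdP : d ∈ P := by
    have h1 := P.sub_mem ha' ha
    have h2 : h86s c x₀ - (a : 𝓞 L) - (x₀ - (a : 𝓞 L)) = d := by rw [hd]; ring
    rwa [h2] at h1
  have hle : Ideal.span {d} ≤ P := (Ideal.span_singleton_le_iff_mem P).mpr hdP
  have hdvd := Ideal.absNorm_dvd_absNorm_of_le hle
  refine Nat.le_of_dvd ?_ hdvd
  rw [Nat.pos_iff_ne_zero, Ne, Ideal.absNorm_eq_zero_iff, Ideal.span_singleton_eq_bot]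
  exact hd0

theorem absNorm_comap (P : Ideal (𝓞 L)) (hP : P.IsPrime) (h : (Ideal.absNorm P).Prime) :
    Ideal.absNorm (P.comap (algebraMap (𝓞 K) (𝓞 L))) = Ideal.absNorm P := by
  rw [← h86card, ← h86card]
  refine Nat.card_congr (Equiv.ofBijective
    (Ideal.quotientMap P (algebraMap (𝓞 K) (𝓞 L)) le_rfl) ⟨Ideal.quotientMap_injective, ?_⟩)
  intro z
  obtain ⟨x, rfl⟩ := Ideal.Quotient.mk_surjective z
  obtain ⟨a, ha⟩ := h86int P h x
  refine ⟨Ideal.Quotient.mk _ (a : 𝓞 K), ?_⟩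
  rw [Ideal.quotientMap_mk, map_intCast]
  rw [← sub_eq_zero, ← map_sub, Ideal.Quotient.eq_zero_iff_mem]
  have := P.neg_mem ha
  rwa [neg_sub] at this

end Pool.Agent.Helper31.TT
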