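import Pool.Agent.Helper31.TT.Over
import Pool.Agent.Helper31.TT.ZBounds

/-!
# TT-11  Upper bound for the sum over the prime ideals

* `prod_le_sum_ideals`: `∏_{P ∈ T} (1 + x_P) = ∑_{A ⊆ T} ∏_{P ∈ A} x_P` (`Finset.prod_one_add` or `Finset.prod_add_one`),
  `x_P = N(P) ^ (-s)`, `∏_{P ∈ A} x_P = N(∏_A P) ^ (-s)`; the ideals `∏_{P ∈ A} P` for different `A` are different
  (`P ∣ ∏_A` iff `P ∈ A` for primes `P ∈ T`: `Prime.dvd_finsetProd_iff`, associated primes are equal): `J` = their set.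
* `zeta_up`: `log ∏ (1 + x_P) ≤ log (C₀/(s - 1))`; `log (1 + x) ≥ x - x ^ 2` for `x ≥ 0`; `∑ x_P ^ 2 ≤ ∑ N ^ (-2) ≤ C₁`
  (`absNorm_pow_sum_le`, `s > 1`).
-/

set_option autoImplicit false

namespace Pool.Agent.Helper31.TT

open NumberField

private theorem zua_inj {L : Type} [Field L] [NumberField L] {T A B : Finset (Ideal (𝓞 L))}
    (hT : ∀ P ∈ T, P.IsPrime ∧ P ≠ ⊥) (hA : A ⊆ T) (hB : B ⊆ T)
    (h : ∏ P ∈ A, P = ∏ P ∈ B, P) : A ⊆ B := by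
  intro P hP
  obtain ⟨h1, h2⟩ := hT P (hA hP)
  have hp : Prime P := Ideal.prime_of_isPrime h2 h1
  have hd : P ∣ ∏ Q ∈ B, Q := by
    rw [← h]
    exact Finset.dvd_prod_of_mem _ hP
  obtain ⟨Q, hQ, hPQ⟩ := (hp.dvd_finsetProd_iff (fun Q : Ideal (𝓞 L) => Q)).1 hd
  obtain ⟨h3, h4⟩ := hT Q (hB hQ)
  have hle : Q ≤ P := Ideal.dvd_iff_le.1 hPQ
  have hm : Q.IsMaximal := Ideal.IsPrime.isMaximal h3 h4
  have he : Q = P := hm.eq_of_le h1.ne_top hle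
  rw [← he]
  exact hQ

theorem prod_le_sum_ideals (L : Type) [Field L] [NumberField L] (T : Finset (Ideal (𝓞 L)))
    (hT : ∀ P ∈ T, P.IsPrime ∧ P ≠ ⊥) : ∃ J : Finset (Ideal (𝓞 L)), (∀ I ∈ J, I ≠ ⊥) ∧
      ∀ s : ℝ, ∏ P ∈ T, (1 + (Ideal.absNorm P : ℝ) ^ (-s)) =
        ∑ I ∈ J, (Ideal.absNorm I : ℝ) ^ (-s) := by
  classical
  refine ⟨T.powerset.image (fun A => ∏ P ∈ A, P), ?_, ?_⟩
  · intro I hI
    obtain ⟨A, hA, rfl⟩ := Finset.mem_image.1 hI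
    have h1 : ∏ P ∈ A, P ≠ (0 : Ideal (𝓞 L)) := by
      rw [Finset.prod_ne_zero_iff]
      intro P hP
      exact (hT P (Finset.mem_powerset.1 hA hP)).2
    exact h1
  · intro s
    rw [Finset.prod_one_add, Finset.sum_image]
    · refine Finset.sum_congr rfl fun A hA => ?_
      rw [map_prod, Nat.cast_prod]
      exact Real.finsetProd_rpow A _ (fun P _ => Nat.cast_nonneg _) (-s)
    · intro A hA B hB h
      have hA' := Finset.mem_powerset.1 hA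
      have hB' := Finset.mem_powerset.1 hB
      exact Finset.Subset.antisymm (zua_inj hT hA' hB' h) (zua_inj hT hB' hA' h.symm)

private theorem zua_log {x : ℝ} (hx : 0 ≤ x) : x ≤ Real.log (1 + x) + x ^ 2 := by
  have h0 : (0 : ℝ) < 1 + x := by linarith
  have h1 := Real.one_sub_inv_le_log_of_pos h0
  have h2 : x - x ^ 2 ≤ 1 - (1 + x)⁻¹ := by
    have h3 : 1 - (1 + x)⁻¹ = x / (1 + x) := by
      field_simp
      ring
    rw [h3, le_div_iff₀ h0]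
    nlinarith [sq_nonneg x, mul_nonneg hx (sq_nonneg x)]
  linarith

theorem zeta_up (L : Type) [Field L] [NumberField L] :
    ∃ C : ℝ, ∀ s : ℝ, 1 < s → s ≤ 2 → ∀ T : Finset (Ideal (𝓞 L)),
      (∀ P ∈ T, P.IsPrime ∧ P ≠ ⊥) →
      ∑ P ∈ T, (Ideal.absNorm P : ℝ) ^ (-s) ≤ Real.log (1 / (s - 1)) + C := by
  obtain ⟨c, C₀, _, hC₀, hz⟩ := zeta_bounds L
  obtain ⟨C₁, _, h1⟩ := absNorm_pow_sum_le L
  refine ⟨Real.log C₀ + C₁, fun s hs hs2 T hT => ?_⟩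
  obtain ⟨J, hJ0, hJ⟩ := prod_le_sum_ideals L T hT
  have hup := (hz s hs hs2).1 J hJ0
  rw [← hJ s] at hup
  have hx : ∀ P ∈ T, (0 : ℝ) ≤ (Ideal.absNorm P : ℝ) ^ (-s) := fun P _ =>
    Real.rpow_nonneg (Nat.cast_nonneg _) _
  have hpos : 0 < ∏ P ∈ T, (1 + (Ideal.absNorm P : ℝ) ^ (-s)) :=
    Finset.prod_pos fun P hP => by linarith [hx P hP]
  have hs1 : 0 < s - 1 := by linarith
  have h2 : Real.log (∏ P ∈ T, (1 + (Ideal.absNorm P : ℝ) ^ (-s))) ≤ Real.log (C₀ / (s - 1)) :=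
    Real.log_le_log hpos hup
  have h3 : Real.log (∏ P ∈ T, (1 + (Ideal.absNorm P : ℝ) ^ (-s))) =
      ∑ P ∈ T, Real.log (1 + (Ideal.absNorm P : ℝ) ^ (-s)) :=
    Real.log_prod (fun P hP => by
      have := hx P hP
      positivity)
  have h4 : Real.log (C₀ / (s - 1)) = Real.log (1 / (s - 1)) + Real.log C₀ := by
    rw [Real.log_div hC₀.ne' hs1.ne', one_div, Real.log_inv]
    ring
  have h5 : ∑ P ∈ T, ((Ideal.absNorm P : ℝ) ^ (-s)) ^ 2 ≤ C₁ := by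
    refine le_trans (Finset.sum_le_sum fun P hP => ?_) (h1 T hT).1
    have hN : 1 ≤ (Ideal.absNorm P : ℝ) := by
      have h6 : Ideal.absNorm P ≠ 0 := fun h => (hT P hP).2 (Ideal.absNorm_eq_zero_iff.1 h)
      exact_mod_cast Nat.one_le_iff_ne_zero.2 h6
    rw [← Real.rpow_natCast, ← Real.rpow_mul (by linarith)]
    apply Real.rpow_le_rpow_of_exponent_le hN
    push_cast
    linarith
  have h6 : ∑ P ∈ T, (Ideal.absNorm P : ℝ) ^ (-s) ≤
      ∑ P ∈ T, (Real.log (1 + (Ideal.absNorm P : ℝ) ^ (-s)) +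
        ((Ideal.absNorm P : ℝ) ^ (-s)) ^ 2) :=
    Finset.sum_le_sum fun P hP => zua_log (hx P hP)
  rw [Finset.sum_add_distrib, ← h3] at h6
  linarith

end Pool.Agent.Helper31.TT
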