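import Pool.Agent.Helper31.TT.Dens
import Pool.Agent.Helper31.TT.ZUp
import Pool.Agent.Helper31.TT.Inv

/-!
# TT-14  The primes at which the involution is a Frobenius

* `split_sum`: `T` a finite set of prime ideals `𝔭` of `K` of prime norm, each with a prime ideal `P` of `L` over it with the same
  norm. Let `E` be the finite set of `finite_fixed`, `C = 2 |E|`. Choose `P(𝔭)`; `T' = {P(𝔭), conjI c (P(𝔭))}` for the `𝔭` with
  `conjI c (P(𝔭)) ≠ P(𝔭)`: `2` different ideals of the same norm for each such `𝔭`, different for different `𝔭`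
  (the comap to `K` is `𝔭`, `conjI_comap`). The other `𝔭` have `P(𝔭) ∈ E`, there are at most `|E|` of them
  (`𝔭` is the comap of `P(𝔭)`), with `N ^ (-s) ≤ 1`.
* `frob_density`: `zeta_low K` gives `T` with `∑_T ≥ log (1/(s-1)) - C₁`. `T = T₁ ∪ T₂`, `T₂` = those with a prime ideal of `L` over it of
  the same norm: `2 ∑_{T₂} ≤ log (1/(s-1)) + C₂` by `split_sum` and `zeta_up L`. So `∑_{T₁} ≥ (1/2) log (1/(s-1)) - C`. For `𝔭 ∈ T₁`, `ℓ = absNorm 𝔭`,
  there is a prime ideal `P` of `𝓞 L` over `𝔭` (`Ideal.exists_ideal_over_prime_of_isIntegral`, comap `= 𝔭`), `absNorm P ≠ ℓ`, so `ℓ` is in the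
  set (`frob_of_inert`; `ℓ = absNorm 𝔭 ∈ 𝔭`). `lowerDensity_of_ideals` with `δ = 1/2`.
-/

set_option autoImplicit false

namespace Pool.Agent.Helper31.TT

open NumberField

variable {K L : Type} [Field K] [NumberField K] [Field L] [NumberField L] [Algebra K L]

theorem split_sum (c : L ≃ₐ[K] L) (hne : ∃ x, c x ≠ x) :
    ∃ C : ℝ, ∀ s : ℝ, 1 < s → ∀ T : Finset (Ideal (𝓞 K)),
      (∀ p ∈ T, (Ideal.absNorm p).Prime ∧ ∃ P : Ideal (𝓞 L), P.IsPrime ∧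
        Ideal.absNorm P = Ideal.absNorm p ∧ P.comap (algebraMap (𝓞 K) (𝓞 L)) = p) →
      ∃ T' : Finset (Ideal (𝓞 L)), (∀ P ∈ T', P.IsPrime ∧ (Ideal.absNorm P).Prime) ∧
        2 * ∑ p ∈ T, (Ideal.absNorm p : ℝ) ^ (-s) ≤
          ∑ P ∈ T', (Ideal.absNorm P : ℝ) ^ (-s) + C := by
  classical
  obtain ⟨E, hE⟩ := finite_fixed c hne
  refine ⟨2 * (E.card : ℝ), fun s hs T hT => ?_⟩
  choose! F hF using fun p hp => (hT p hp).2
  have hcm : ∀ p ∈ T, (F p).comap (algebraMap (𝓞 K) (𝓞 L)) = p := fun p hp => (hF p hp).2.2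
  have hinj : ∀ S : Finset (Ideal (𝓞 K)), S ⊆ T → Set.InjOn F S := by
    intro S hS p hp p' hp' h
    rw [← hcm p (hS hp), ← hcm p' (hS hp'), h]
  have hinj' : ∀ S : Finset (Ideal (𝓞 K)), S ⊆ T → Set.InjOn (fun p => conjI c (F p)) S := by
    intro S hS p hp p' hp' h
    have h2 : conjI c (F p) = conjI c (F p') := h
    rw [← hcm p (hS hp), ← hcm p' (hS hp'), ← conjI_comap c (F p), h2, conjI_comap]
  obtain ⟨T₁, hT₁⟩ : ∃ T₁ : Finset (Ideal (𝓞 K)), T₁ = T.filter fun p => ¬ conjI c (F p) = F p :=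
    ⟨_, rfl⟩
  obtain ⟨T₂, hT₂⟩ : ∃ T₂ : Finset (Ideal (𝓞 K)), T₂ = T.filter fun p => conjI c (F p) = F p :=
    ⟨_, rfl⟩
  have h1T : T₁ ⊆ T := by rw [hT₁]; exact Finset.filter_subset _ _
  have h2T : T₂ ⊆ T := by rw [hT₂]; exact Finset.filter_subset _ _
  have hsplit : ∑ p ∈ T₂, (Ideal.absNorm p : ℝ) ^ (-s) + ∑ p ∈ T₁, (Ideal.absNorm p : ℝ) ^ (-s) =
      ∑ p ∈ T, (Ideal.absNorm p : ℝ) ^ (-s) := by
    rw [hT₁, hT₂]
    exact Finset.sum_filter_add_sum_filter_not T _ _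
  have hdisj : Disjoint (T₁.image F) (T₁.image fun p => conjI c (F p)) := by
    rw [Finset.disjoint_left]
    intro Q hQ hQ'
    obtain ⟨p, hp, rfl⟩ := Finset.mem_image.1 hQ
    obtain ⟨p', hp', h⟩ := Finset.mem_image.1 hQ'
    have h3 : p' = p := by
      rw [← hcm p (h1T hp), ← h, conjI_comap, hcm p' (h1T hp')]
    rw [h3] at h
    rw [hT₁] at hp
    exact (Finset.mem_filter.1 hp).2 h
  refine ⟨T₁.image F ∪ T₁.image fun p => conjI c (F p), ?_, ?_⟩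
  · intro Q hQ
    rcases Finset.mem_union.1 hQ with hQ | hQ
    · obtain ⟨p, hp, rfl⟩ := Finset.mem_image.1 hQ
      obtain ⟨h3, h4, -⟩ := hF p (h1T hp)
      refine ⟨h3, ?_⟩
      rw [h4]
      exact (hT p (h1T hp)).1
    · obtain ⟨p, hp, rfl⟩ := Finset.mem_image.1 hQ
      obtain ⟨h3, h4, -⟩ := hF p (h1T hp)
      refine ⟨conjI_isPrime c _ h3, ?_⟩
      rw [conjI_absNorm, h4]
      exact (hT p (h1T hp)).1
  · have hA : ∑ P ∈ T₁.image F, (Ideal.absNorm P : ℝ) ^ (-s) =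
        ∑ p ∈ T₁, (Ideal.absNorm p : ℝ) ^ (-s) := by
      rw [Finset.sum_image (hinj T₁ h1T)]
      refine Finset.sum_congr rfl fun p hp => ?_
      rw [(hF p (h1T hp)).2.1]
    have hB : ∑ P ∈ T₁.image (fun p => conjI c (F p)), (Ideal.absNorm P : ℝ) ^ (-s) =
        ∑ p ∈ T₁, (Ideal.absNorm p : ℝ) ^ (-s) := by
      rw [Finset.sum_image (hinj' T₁ h1T)]
      refine Finset.sum_congr rfl fun p hp => ?_
      rw [conjI_absNorm, (hF p (h1T hp)).2.1]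
    have hC : ∑ p ∈ T₂, (Ideal.absNorm p : ℝ) ^ (-s) ≤ E.card := by
      have h5 : ∑ p ∈ T₂, (Ideal.absNorm p : ℝ) ^ (-s) ≤ ∑ p ∈ T₂, (1 : ℝ) := by
        refine Finset.sum_le_sum fun p hp => ?_
        have h6 : (1 : ℝ) ≤ Ideal.absNorm p := by
          exact_mod_cast (hT p (h2T hp)).1.one_lt.le
        exact Real.rpow_le_one_of_one_le_of_nonpos h6 (by linarith)
      rw [Finset.sum_const, nsmul_eq_mul, mul_one] at h5
      refine h5.trans ?_
      have h7 : T₂.card ≤ E.card := by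
        refine Finset.card_le_card_of_injOn F (fun p hp => ?_) (hinj T₂ h2T)
        have hp' : p ∈ T.filter fun p => conjI c (F p) = F p := by
          rw [← hT₂]
          exact hp
        obtain ⟨hpT, hpc⟩ := Finset.mem_filter.1 hp'
        obtain ⟨h3, h4, -⟩ := hF p hpT
        refine hE (F p) h3 ?_ hpc
        rw [h4]
        exact (hT p hpT).1
      exact_mod_cast h7
    rw [Finset.sum_union hdisj, hA, hB, ← hsplit]
    linarith

/-- The primes `ℓ` such that `c` is the Frobenius automorphism of a prime ideal over `ℓ`. -/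
def frobPrimes (c : L ≃ₐ[K] L) : Set ℕ :=
  {ℓ | ℓ.Prime ∧ ∃ P : Ideal (𝓞 L), P.IsPrime ∧ (ℓ : 𝓞 L) ∈ P ∧
    ∀ x y : 𝓞 L, (y : L) = c (x : L) → x ^ ℓ - y ∈ P}

theorem frob_density (c : L ≃ₐ[K] L) (hc : ∀ x, c (c x) = x)
    (hfix : ∀ x, c x = x → ∃ a : K, algebraMap K L a = x) (hne : ∃ x, c x ≠ x) :
    LowerDensity (frobPrimes c) (1 / 2 / Module.finrank ℚ K) := by
  classical
  refine lowerDensity_of_ideals K (frobPrimes c) (1 / 2) ?_
  obtain ⟨C₁, h1⟩ := zeta_low K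
  obtain ⟨C₂, h2⟩ := split_sum c hne
  obtain ⟨C₃, h3⟩ := zeta_up L
  refine ⟨C₁ + (C₂ + C₃) / 2, fun s hs1 hs2 => ?_⟩
  obtain ⟨T, hT, hTle⟩ := h1 s hs1 hs2
  obtain ⟨R, hR⟩ : ∃ R : Ideal (𝓞 K) → Prop, R = fun p => ∃ P : Ideal (𝓞 L), P.IsPrime ∧
      Ideal.absNorm P = Ideal.absNorm p ∧ P.comap (algebraMap (𝓞 K) (𝓞 L)) = p := ⟨_, rfl⟩
  obtain ⟨T', hT', hle⟩ := h2 s hs1 (T.filter R) (by
    intro p hp
    obtain ⟨hpT, hpR⟩ := Finset.mem_filter.1 hp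
    rw [hR] at hpR
    exact ⟨(hT p hpT).2, hpR⟩)
  have h4 := h3 s hs1 hs2 T' (by
    intro P hP
    obtain ⟨h5, h6⟩ := hT' P hP
    refine ⟨h5, ?_⟩
    rintro rfl
    rw [Ideal.absNorm_bot] at h6
    exact Nat.not_prime_zero h6)
  have h5 := Finset.sum_filter_add_sum_filter_not T R
    (fun P => (Ideal.absNorm P : ℝ) ^ (-s))
  refine ⟨T.filter fun p => ¬ R p, fun p hp => ?_, by linarith⟩
  obtain ⟨hpT, hpR⟩ := Finset.mem_filter.1 hp
  obtain ⟨hpp, hpN⟩ := hT p hpT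
  refine ⟨hpp, hpN, hpN, ?_⟩
  have := hpp
  obtain ⟨P, -, hP, hPp⟩ := Ideal.exists_ideal_over_prime_of_isIntegral p (⊥ : Ideal (𝓞 L)) (by
    intro x hx
    have hx' : algebraMap (𝓞 K) (𝓞 L) x = 0 := hx
    have hx0 : x = 0 := by
      apply FaithfulSMul.algebraMap_injective (𝓞 K) (𝓞 L)
      rw [hx', map_zero]
    rw [hx0]
    exact p.zero_mem)
  refine ⟨P, hP, ?_, ?_⟩
  · have h6 := Ideal.absNorm_mem p
    rw [← hPp, Ideal.mem_comap, map_natCast] at h6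
    rwa [hPp] at h6
  · refine frob_of_inert c hc hfix P hP (Ideal.absNorm p) hpN (by rw [hPp]) ?_
    intro h7
    apply hpR
    rw [hR]
    exact ⟨P, hP, h7, hPp⟩

end Pool.Agent.Helper31.TT
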