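import Pool.Agent.Helper31.TT.Defs
import Pool.Agent.Helper2.Tate.Poly

/-!
# TT-26  The Tate part modulo `ℓ` (general form of TT-04)
-/

set_option autoImplicit false

namespace Pool.Agent.Helper31.TT

open Polynomial Pool.Agent.Helper2.Tate

private theorem coeff_zero_pr (A : Multiset ℤ) : (pr A).coeff 0 = 1 := by
  induction A using Multiset.induction_on with
  | empty => simp [pr]
  | cons α A ih =>
    rw [pr_cons, mul_coeff_zero, ih]
    simp

private theorem map_pr_eq (ℓ : ℕ) (A : Multiset ℤ) (hA : ∀ α ∈ A, ((α : ℤ) : ZMod ℓ) = 1) :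
    (pr A).map (Int.castRingHom (ZMod ℓ)) = (1 - X) ^ (Multiset.card A) := by
  induction A using Multiset.induction_on with
  | empty => simp [pr]
  | cons α A ih =>
    rw [pr_cons, Polynomial.map_mul, ih (fun β hβ => hA β (Multiset.mem_cons_of_mem hβ)),
      Multiset.card_cons, pow_succ, mul_comm]
    congr 1
    have h := hA α (Multiset.mem_cons_self α A)
    rw [Polynomial.map_sub, Polynomial.map_mul, Polynomial.map_one, Polynomial.map_C,
      Polynomial.map_X, eq_intCast, h, C_1, one_mul]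

/-- the multiset of the `u ^ j` with multiplicities `m j` -/
private def ms (u : ℤ) (N : ℕ) (m : ℕ → ℕ) : Multiset ℤ :=
  ∑ j ∈ Finset.range N, Multiset.replicate (m j) (u ^ j)

private theorem mem_ms {u : ℤ} {N : ℕ} {m : ℕ → ℕ} {α : ℤ} (h : α ∈ ms u N m) :
    ∃ j, α = u ^ j := by
  unfold ms at h
  rw [Multiset.mem_sum] at h
  obtain ⟨j, -, hj⟩ := h
  exact ⟨j, Multiset.eq_of_mem_replicate hj⟩

private theorem card_ms (u : ℤ) (N : ℕ) (m : ℕ → ℕ) :
    Multiset.card (ms u N m) = ∑ j ∈ Finset.range N, m j := by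
  unfold ms
  induction N with
  | zero => simp
  | succ N ih =>
    rw [Finset.sum_range_succ, Finset.sum_range_succ, Multiset.card_add, ih,
      Multiset.card_replicate]

private theorem sum_ms (u : ℤ) (N : ℕ) (m : ℕ → ℕ) (n : ℕ) :
    ((ms u N m).map (fun α => α ^ n)).sum = ∑ j ∈ Finset.range N, (m j : ℤ) * (u ^ n) ^ j := by
  unfold ms
  induction N with
  | zero => simp
  | succ N ih =>
    rw [Finset.sum_range_succ, Finset.sum_range_succ, Multiset.map_add, Multiset.sum_add, ih]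
    congr 1
    rw [Multiset.map_replicate, Multiset.sum_replicate, nsmul_eq_mul, ← pow_mul, ← pow_mul,
      mul_comm N n]

theorem tate_part_gen (c : ℤ[X]) (u : ℤ) (ℓ : ℕ) (hu : (u : ZMod ℓ) = 1) :
    ∃ (A B : ℤ[X]) (a b : ℕ → ℤ) (α β : ℕ), A.coeff 0 = 1 ∧ B.coeff 0 = 1 ∧
      LD (A : PowerSeries ℤ) (PowerSeries.mk (fun n => if n = 0 then 0 else a n)) ∧
      LD (B : PowerSeries ℤ) (PowerSeries.mk (fun n => if n = 0 then 0 else b n)) ∧
      (∀ n : ℕ, 1 ≤ n → a n - b n = c.eval (u ^ n)) ∧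
      A.map (Int.castRingHom (ZMod ℓ)) = (1 - X) ^ α ∧
      B.map (Int.castRingHom (ZMod ℓ)) = (1 - X) ^ β ∧ (α : ℤ) - β = c.eval 1 := by
  classical
  set N := c.natDegree + 1 with hN
  set MA := ms u N (fun j => (c.coeff j).toNat) with hMA
  set MB := ms u N (fun j => (-c.coeff j).toNat) with hMB
  have hdiff : ∀ j, (((c.coeff j).toNat : ℕ) : ℤ) - (((-c.coeff j).toNat : ℕ) : ℤ) = c.coeff j := by
    intro j; omega
  have h1 : ∀ (m : ℕ → ℕ), ∀ α ∈ ms u N m, ((α : ℤ) : ZMod ℓ) = 1 := by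
    intro m α hα
    obtain ⟨j, rfl⟩ := mem_ms hα
    rw [Int.cast_pow, hu, one_pow]
  refine ⟨pr MA, pr MB, fun n => (MA.map (fun α => α ^ n)).sum,
    fun n => (MB.map (fun α => α ^ n)).sum, Multiset.card MA, Multiset.card MB,
    coeff_zero_pr _, coeff_zero_pr _, LD_pr MA, LD_pr MB, ?_, ?_, ?_, ?_⟩
  · intro n _
    show (MA.map (fun α => α ^ n)).sum - (MB.map (fun α => α ^ n)).sum = _
    rw [hMA, hMB, sum_ms, sum_ms, ← Finset.sum_sub_distrib, eval_eq_sum_range]
    refine Finset.sum_congr rfl (fun j _ => ?_)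
    rw [← sub_mul, hdiff]
  · rw [hMA, map_pr_eq ℓ _ (h1 _)]
  · rw [hMB, map_pr_eq ℓ _ (h1 _)]
  · rw [hMA, hMB, card_ms, card_ms]
    push_cast
    rw [← Finset.sum_sub_distrib, eval_eq_sum_range]
    refine Finset.sum_congr rfl (fun j _ => ?_)
    rw [one_pow, mul_one]
    omega

end Pool.Agent.Helper31.TT
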