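import Pool.Agent.Helper31.TT.GStep
import Pool.Agent.Helper31.TT.BaseCh
import Pool.Agent.Helper31.TT.TatePartG

/-!
# TT-27  The congruence for a tower of Galois coverings, general form

The proof of TT-23 (`GCong.lean`) with an arbitrary Tate part.
-/

set_option autoImplicit false

namespace Pool.Agent.Helper31.TT

open Polynomial Pool.Agent.Helper2.Tate

variable {F : Type} [Field F] [Fintype F]

private theorem gc_c0 (p : ℤ[X]) (k : ℕ) (hp : p.coeff 0 = 1) : (p ^ k).coeff 0 = 1 := by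
  rw [coeff_zero_eq_eval_zero, eval_pow, ← coeff_zero_eq_eval_zero, hp, one_pow]

theorem ltower_cong_gen (V W : AffVar F) (F' : Type) [Field F'] [Fintype F'] [Algebra F F']
    (V' W' : AffVar F') (c c' P Q Pm : ℤ[X]) (ℓ : ℕ) (hℓ : ℓ.Prime)
    (hF' : ℓ ∣ Fintype.card F' - 1) (k : ℕ) (hV : LTower ℓ (V.baseChange F') k V')
    (hW : LTower ℓ (W.baseChange F') k W') (hQ : Q.Monic) (hPm : Pm.Monic)
    (hrP : croots Pm = (croots P).map (fun α => α ^ Module.finrank F F'))
    (hPc : Counts V W c P) (hQc : Counts V' W' c' Q) :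
    ∃ x y : ℕ, (x : ℤ) - y = (ℓ : ℤ) ^ k * c.eval 1 - c'.eval 1 ∧
      (1 - X) ^ y * Q.reverse.map (Int.castRingHom (ZMod ℓ)) =
      (1 - X) ^ x * (Pm.reverse.map (Int.castRingHom (ZMod ℓ))) ^ (ℓ ^ k) := by
  have hfact : Fact ℓ.Prime := ⟨hℓ⟩
  have hq0 : 0 < Fintype.card F' := Fintype.card_pos
  have hcard : Fintype.card F' = Fintype.card F ^ Module.finrank F F' :=
    Module.card_eq_pow_finrank
  have hm0 : 0 < Module.finrank F F' := by
    rcases Nat.eq_zero_or_pos (Module.finrank F F') with h | h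
    · rw [h, pow_zero] at hcard
      have h1 : 1 < Fintype.card F' := Fintype.one_lt_card
      omega
    · exact h
  obtain ⟨t₁, ht₁⟩ := ltower_count (V.baseChange F') V' ℓ hℓ k hV
  obtain ⟨t₂, ht₂⟩ := ltower_count (W.baseChange F') W' ℓ hℓ k hW
  have hbV := baseChange_count V F'
  have hbW := baseChange_count W F'
  generalize hs : Module.finrank F F' = m at *
  obtain ⟨u, hu⟩ : ∃ u : ℤ, u = (Fintype.card F' : ℤ) := ⟨_, rfl⟩
  have hu1 : (u : ZMod ℓ) = 1 := by
    have h1 : (((Fintype.card F' - 1 : ℕ)) : ZMod ℓ) = 0 :=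
      (ZMod.natCast_eq_zero_iff _ _).2 hF'
    rw [Nat.cast_sub hq0, Nat.cast_one, sub_eq_zero] at h1
    rw [hu, Int.cast_natCast, h1]
  obtain ⟨A, B, a, b, α, β, hA0, hB0, hA, hB, hab, hAm, hBm, hαβ⟩ := tate_part_gen c u ℓ hu1
  obtain ⟨A', B', a', b', α', β', hA0', hB0', hA', hB', hab', hAm', hBm', hαβ'⟩ :=
    tate_part_gen c' u ℓ hu1
  obtain ⟨pP, hpP⟩ : ∃ pP : ℕ → ℤ, ∀ n, pP n = (V.count (m * n) : ℤ) - (W.count (m * n) : ℤ) -
      c.eval (u ^ n) := ⟨_, fun n => rfl⟩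
  obtain ⟨pQ, hpQ⟩ : ∃ pQ : ℕ → ℤ, ∀ n, pQ n = (V'.count n : ℤ) - (W'.count n : ℤ) -
      c'.eval (u ^ n) := ⟨_, fun n => rfl⟩
  have hun : ∀ n : ℕ, (Fintype.card F : ℤ) ^ (m * n) = u ^ n := by
    intro n
    rw [hu, hcard, pow_mul]
    push_cast
    rfl
  have hPs' : ∀ n : ℕ, 1 ≤ n →
      (((Pm.map (Int.castRingHom ℂ)).roots.map (fun α => α ^ n)).sum : ℂ) = pP n := by
    intro n hn
    have h1 := hPc (m * n) (Nat.mul_pos hm0 hn)
    have h2 : ((Pm.map (Int.castRingHom ℂ)).roots.map (fun α => α ^ n)).sum =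
        powSum P (m * n) := by
      change ((croots Pm).map (fun α => α ^ n)).sum = _
      rw [hrP, Multiset.map_map]
      unfold powSum
      congr 1
      apply Multiset.map_congr rfl
      intro z _
      simp only [Function.comp, pow_mul]
    rw [h2, hpP, ← hun]
    push_cast
    rw [h1]
    push_cast
    ring
  have hQs' : ∀ n : ℕ, 1 ≤ n →
      (((Q.map (Int.castRingHom ℂ)).roots.map (fun α => α ^ n)).sum : ℂ) = pQ n := by
    intro n hn
    have h1 := hQc n hn
    have h2 : ((Q.map (Int.castRingHom ℂ)).roots.map (fun α => α ^ n)).sum = powSum Q n := rfl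
    rw [h2, hpQ, hu]
    push_cast
    rw [h1]
    push_cast
    ring
  obtain ⟨L, hL⟩ : ∃ L : ℤ[X], L = A' * Q.reverse * B ^ (ℓ ^ k) := ⟨_, rfl⟩
  obtain ⟨G, hG⟩ : ∃ G : ℤ[X], G = B' * (A * Pm.reverse) ^ (ℓ ^ k) := ⟨_, rfl⟩
  have hLL : LD (L : PowerSeries ℤ) (PowerSeries.mk (fun n => if n = 0 then 0 else a' n) +
      PowerSeries.mk (fun n => if n = 0 then 0 else pQ n) +
      (ℓ ^ k) • PowerSeries.mk (fun n => if n = 0 then 0 else b n)) := by
    rw [hL, Polynomial.coe_mul, Polynomial.coe_mul, Polynomial.coe_pow]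
    exact (hA'.mul (LD_reverse Q hQ pQ hQs')).mul (hB.pow _)
  have hLG : LD (G : PowerSeries ℤ) (PowerSeries.mk (fun n => if n = 0 then 0 else b' n) +
      (ℓ ^ k) • (PowerSeries.mk (fun n => if n = 0 then 0 else a n) +
      PowerSeries.mk (fun n => if n = 0 then 0 else pP n))) := by
    rw [hG, Polynomial.coe_mul, Polynomial.coe_pow, Polynomial.coe_mul]
    exact hB'.mul ((hA.mul (LD_reverse Pm hPm pP hPs')).pow _)
  have hL0 : L.coeff 0 = 1 := by
    rw [hL, mul_coeff_zero, mul_coeff_zero, hA0', coeff_zero_reverse_monic Q hQ,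
      gc_c0 _ _ hB0]
    norm_num
  have hG0 : G.coeff 0 = 1 := by
    have h1 : (A * Pm.reverse).coeff 0 = 1 := by
      rw [mul_coeff_zero, hA0, coeff_zero_reverse_monic Pm hPm, mul_one]
    rw [hG, mul_coeff_zero, hB0', gc_c0 _ _ h1, mul_one]
  have hcong := mod_identity (ℓ := ℓ) L G hL0 hG0 _ _ (fun n => t₁ n - t₂ n) hLL hLG (by
      ext n
      rw [map_sub, map_add, map_add, map_add, map_nsmul, map_nsmul, map_add,
        PowerSeries.coeff_C_mul,
        PowerSeries.coeff_mk, PowerSeries.coeff_mk, PowerSeries.coeff_mk, PowerSeries.coeff_mk,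
        PowerSeries.coeff_mk, PowerSeries.coeff_mk, PowerSeries.coeff_mk, nsmul_eq_mul,
        nsmul_eq_mul]
      rcases Nat.eq_zero_or_pos n with rfl | hn
      · simp
      · simp only [if_neg (show ¬ n = 0 by omega)]
        have e1 := (ht₁ n hn).2
        have e2 := (ht₂ n hn).2
        have e3 := hab n hn
        have e4 := hab' n hn
        have e5 := hpP n
        have e6 := hpQ n
        rw [hbV n] at e1
        rw [hbW n] at e2
        push_cast
        linear_combination e6 - (ℓ : ℤ) ^ k * e5 + e1 - e2 + e4 - (ℓ : ℤ) ^ k * e3) (by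
      intro n hn
      exact dvd_sub (ht₁ n hn).1 (ht₂ n hn).1)
  have hmap : L.map (Int.castRingHom (ZMod ℓ)) = G.map (Int.castRingHom (ZMod ℓ)) := by
    ext n
    rw [coeff_map, coeff_map, ← sub_eq_zero, ← map_sub, eq_intCast,
      ZMod.intCast_zmod_eq_zero_iff_dvd]
    exact hcong n
  rw [hL, hG, Polynomial.map_mul, Polynomial.map_mul, Polynomial.map_mul, Polynomial.map_pow,
    Polynomial.map_pow, Polynomial.map_mul, hAm, hBm, hAm', hBm'] at hmap
  refine ⟨β' + ℓ ^ k * α, α' + ℓ ^ k * β, ?_, ?_⟩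
  · rw [← hαβ, ← hαβ']
    push_cast
    ring
  · rw [pow_add, pow_add, mul_comm (ℓ ^ k) β, mul_comm (ℓ ^ k) α, pow_mul, pow_mul]
    rw [mul_pow] at hmap
    linear_combination hmap

end Pool.Agent.Helper31.TT
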