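import Pool.Agent.Helper31.TT.Defs
import Pool.Agent.Helper2.Tate.Count

/-!
# TT-21  The number of points of a cyclic covering and of a tower, modulo powers of `ℓ`

`Φ x i = x i ^ q` is the Frobenius map. It commutes with `polyMap φ` for polynomials `φ` over `F`
(`aeval (Φ x) g = (aeval x g) ^ q`, see `Step.lean`), maps points of `V` to points of `V` and conversely, and
`V.points n` = the points with `Φ^[n] x = x`.
* `cyclic_count`: `T` = the points `x` of `V` over the extension of degree `n` such that no `y` over `x` (points of `V'` with `π y = x`) has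
  `Φ^[n] y = y`; `t = |T|`. For `x ∈ V.points n`: the fibre over `x` is not empty and has exactly `ℓ` elements `τ^[i] y`, `i < ℓ` (`τ^[ℓ] y = y`, `τ z ≠ z` for all
  points `z` and `ℓ` prime: the minimal period of `y` under `τ` divides `ℓ` and is not `1`; `Function.minimalPeriod`); `Φ^[n]` commutes with `τ`:
  if one `y` of the fibre is fixed by `Φ^[n]` then all are. So `|V'.points n| = ℓ (|V.points n| - |T|)` (count by fibres:
  `Finset.card_eq_sum_card_fiberwise`; `π` maps `V'.points n` to `V.points n`).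
  `ℓ ^ v(n) ∣ |T|`: `Helper2.Tate.pow_dvd_ncard` (`Φ`, `T`): `T` is finite (`points_finite`), `Φ` maps `T` to `T` (if `y` over `Φ x` is
  fixed by `Φ^[n]` then `Φ^[n-1] y` is over `x` (as `Φ^[n] x = x`) and fixed), `Φ^[n] x = x`; and if `ℓ ∣ n` and `Φ^[n/ℓ] x = x` for an `x ∈ T`,
  take `y` over `x`: `Φ^[n/ℓ] y = τ^[a] y` for some `a`, so `Φ^[n] y = τ^[a ℓ] y = y` (commute, iterate `ℓ` times), a contradiction.
* `ltower_count`: induction on the tower as in `tower_count` of `Step.lean`.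
-/

set_option autoImplicit false

namespace Pool.Agent.Helper31.TT

variable {F : Type} [Field F] [Fintype F]

private theorem tg_q2 : 2 ≤ Fintype.card F := Fintype.one_lt_card

private theorem tg_points_finite (V : AffVar F) (n : ℕ) (hn : 1 ≤ n) : (V.points n).Finite := by
  have h1 : (Helper2.Tate.Kn (AlgebraicClosure F) (Fintype.card F) n).Finite :=
    Helper2.Tate.Kn_finite _ _ tg_q2 hn
  refine (Set.Finite.pi (fun _ : Fin V.dim => h1)).subset ?_
  intro x hx i _
  exact hx.2 i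

/-- The `s`-th power of the Frobenius as a map over `F`. -/
private noncomputable def tg_fr (s : ℕ) : AlgebraicClosure F →ₐ[F] AlgebraicClosure F :=
  (FiniteField.frobeniusAlgHom F (AlgebraicClosure F)) ^ s

private theorem tg_fr_apply (s : ℕ) (c : AlgebraicClosure F) :
    tg_fr s c = c ^ (Fintype.card F ^ s) := by
  unfold tg_fr
  rw [AlgHom.coe_pow, FiniteField.coe_frobeniusAlgHom, pow_iterate]

/-- The `s`-th power of the Frobenius on affine space. -/
private noncomputable def tg_Fr {m : ℕ} (s : ℕ) (x : Fin m → AlgebraicClosure F) :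
    Fin m → AlgebraicClosure F :=
  fun i => x i ^ (Fintype.card F ^ s)

private theorem tg_aeval {m : ℕ} (s : ℕ) (x : Fin m → AlgebraicClosure F)
    (g : MvPolynomial (Fin m) F) :
    MvPolynomial.aeval (tg_Fr s x) g =
      (MvPolynomial.aeval x g) ^ (Fintype.card F ^ s) := by
  have h1 : (tg_fr s).comp (MvPolynomial.aeval x) =
      MvPolynomial.aeval (fun i => tg_fr s (x i)) := MvPolynomial.comp_aeval _ _
  have h2 := DFunLike.congr_fun h1 g
  rw [AlgHom.comp_apply, tg_fr_apply] at h2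
  rw [h2]
  simp only [tg_fr_apply]
  rfl

private theorem tg_isPoint {V : AffVar F} (s : ℕ) {x : Fin V.dim → AlgebraicClosure F}
    (hx : V.IsPoint x) : V.IsPoint (tg_Fr s x) := by
  have hq : Fintype.card F ^ s ≠ 0 := pow_ne_zero _ (by have := tg_q2 (F := F); omega)
  constructor
  · intro g hg
    rw [tg_aeval, hx.1 g hg, zero_pow hq]
  · rw [tg_aeval]
    exact pow_ne_zero _ hx.2

private theorem tg_polyMap {m n : ℕ} (φ : Fin n → MvPolynomial (Fin m) F) (s : ℕ)
    (x : Fin m → AlgebraicClosure F) : polyMap φ (tg_Fr s x) = tg_Fr s (polyMap φ x) := by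
  funext i
  exact tg_aeval s x (φ i)

private theorem tg_Fr_add {m : ℕ} (s t : ℕ) (x : Fin m → AlgebraicClosure F) :
    tg_Fr s (tg_Fr t x) = tg_Fr (s + t) x := by
  funext i
  simp only [tg_Fr]
  rw [← pow_mul, ← pow_add, add_comm]

private theorem tg_Fr_iter {m : ℕ} (s n : ℕ) (x : Fin m → AlgebraicClosure F) :
    (tg_Fr s)^[n] x = tg_Fr (s * n) x := by
  induction n with
  | zero =>
    funext i
    simp [tg_Fr]
  | succ n ih =>
    rw [Function.iterate_succ_apply', ih, tg_Fr_add]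
    congr 1
    ring

private theorem tg_mem_points {V : AffVar F} {n : ℕ} {x : Fin V.dim → AlgebraicClosure F} :
    x ∈ V.points n ↔ V.IsPoint x ∧ tg_Fr n x = x := by
  unfold AffVar.points tg_Fr
  rw [Set.mem_ofPred_eq, funext_iff]

theorem cyclic_count (V V' : AffVar F) (ℓ : ℕ) (hℓ : ℓ.Prime) (h : CyclicCover ℓ V V') (n : ℕ)
    (hn : 1 ≤ n) : ∃ t : ℤ, (ℓ : ℤ) ^ padicValNat ℓ n ∣ t ∧
      (V'.count n : ℤ) = ℓ * (V.count n : ℤ) - ℓ * t := by
  obtain ⟨π, τ, hpt, hsurj, hfib⟩ := h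
  -- iterates of `τ`
  have hτpt : ∀ (i : ℕ) (y), V'.IsPoint y → V'.IsPoint ((polyMap τ)^[i] y) := by
    intro i
    induction i with
    | zero => intro y hy; exact hy
    | succ i ih =>
      intro y hy
      rw [Function.iterate_succ_apply]
      exact ih _ (hpt y hy).2.1
  have hτπ : ∀ (i : ℕ) (y), V'.IsPoint y → polyMap π ((polyMap τ)^[i] y) = polyMap π y :=
    fun i y hy => (hfib y _ hy (hτpt i y hy)).2 ⟨i, rfl⟩
  have hτper : ∀ y, V'.IsPoint y → Function.IsPeriodicPt (polyMap τ) ℓ y :=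
    fun y hy => (hpt y hy).2.2.2
  have hτmin : ∀ y, V'.IsPoint y → Function.minimalPeriod (polyMap τ) y = ℓ := by
    intro y hy
    have h1 : Function.minimalPeriod (polyMap τ) y ∣ ℓ := (hτper y hy).minimalPeriod_dvd
    rcases (Nat.dvd_prime hℓ).1 h1 with h2 | h2
    · exfalso
      have h3 := Function.isPeriodicPt_minimalPeriod (polyMap τ) y
      rw [h2] at h3
      exact (hpt y hy).2.2.1 h3
    · exact h2
  have hτFr : ∀ (s i : ℕ) (y : Fin V'.dim → AlgebraicClosure F),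
      tg_Fr s ((polyMap τ)^[i] y) = (polyMap τ)^[i] (tg_Fr s y) := by
    intro s i
    induction i with
    | zero => intro y; rfl
    | succ i ih =>
      intro y
      rw [Function.iterate_succ_apply, ih, ← tg_polyMap, ← Function.iterate_succ_apply]
  -- the set `T`
  set T : Set (Fin V.dim → AlgebraicClosure F) :=
    {x | x ∈ V.points n ∧ ∀ y, V'.IsPoint y → polyMap π y = x → tg_Fr n y ≠ y} with hT
  have hTsub : T ⊆ V.points n := fun x hx => hx.1
  have hfin := tg_points_finite V n hn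
  have hTfin : T.Finite := hfin.subset hTsub
  have hdvd : ℓ ^ padicValNat ℓ n ∣ T.ncard := by
    refine Helper2.Tate.pow_dvd_ncard ℓ hℓ (tg_Fr 1) n hn T hTfin ?_ ?_ ?_
    · rintro x ⟨hx, hxT⟩
      have hx' := tg_mem_points.1 hx
      refine ⟨tg_mem_points.2 ⟨tg_isPoint 1 hx'.1, ?_⟩, ?_⟩
      · rw [tg_Fr_add, add_comm, ← tg_Fr_add, hx'.2]
      · intro y hy hyx hfix
        refine hxT (tg_Fr (n - 1) y) (tg_isPoint _ hy) ?_ ?_
        · rw [tg_polyMap, hyx, tg_Fr_add, Nat.sub_add_cancel hn]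
          exact hx'.2
        · rw [tg_Fr_add, add_comm, ← tg_Fr_add, hfix]
    · rintro x ⟨hx, _⟩
      rw [tg_Fr_iter, one_mul]
      exact (tg_mem_points.1 hx).2
    · intro hd x hxT hxf
      rw [tg_Fr_iter, one_mul] at hxf
      obtain ⟨y, hy, hyx⟩ := hsurj x (tg_mem_points.1 hxT.1).1
      have h1 : polyMap π (tg_Fr (n / ℓ) y) = polyMap π y := by
        rw [tg_polyMap, hyx, hxf]
      obtain ⟨a, ha⟩ := (hfib y _ hy (tg_isPoint _ hy)).1 h1
      have h2 : ∀ j : ℕ, tg_Fr (n / ℓ * j) y = (polyMap τ)^[a * j] y := by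
        intro j
        induction j with
        | zero =>
          funext i
          simp [tg_Fr]
        | succ j ih =>
          rw [Nat.mul_succ, add_comm, ← tg_Fr_add, ih, hτFr, ha, ← Function.iterate_add_apply,
            ← Nat.mul_succ]
      apply hxT.2 y hy hyx
      have h3 := h2 ℓ
      rw [Nat.div_mul_cancel hd] at h3
      rw [h3]
      exact (hτper y hy).const_mul a
  refine ⟨(T.ncard : ℤ), by exact_mod_cast hdvd, ?_⟩
  -- counting by fibres
  have hS : ∀ x ∈ V.points n \ T, ∃ y, V'.IsPoint y ∧ polyMap π y = x ∧ tg_Fr n y = y := by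
    rintro x ⟨hx, hxT⟩
    by_contra hcon
    apply hxT
    refine ⟨hx, fun y hy hyx hf => hcon ⟨y, hy, hyx, hf⟩⟩
  choose! y₀ hy₀ using hS
  have himg : (fun p : (Fin V.dim → AlgebraicClosure F) × Fin ℓ =>
      (polyMap τ)^[(p.2 : ℕ)] (y₀ p.1)) '' ((V.points n \ T) ×ˢ (Set.univ : Set (Fin ℓ))) =
      V'.points n := by
    ext y
    constructor
    · rintro ⟨⟨x, i⟩, ⟨hx, _⟩, rfl⟩
      obtain ⟨h1, _, h3⟩ := hy₀ x hx
      refine tg_mem_points.2 ⟨hτpt _ _ h1, ?_⟩
      simp only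
      rw [hτFr, h3]
    · intro hy
      obtain ⟨h1, h2⟩ := tg_mem_points.1 hy
      have hx : polyMap π y ∈ V.points n \ T := by
        refine ⟨tg_mem_points.2 ⟨(hpt y h1).1, ?_⟩, ?_⟩
        · rw [← tg_polyMap, h2]
        · intro hT'
          exact hT'.2 y h1 rfl h2
      obtain ⟨h3, h4, _⟩ := hy₀ _ hx
      obtain ⟨a, ha⟩ := (hfib _ _ h3 h1).1 h4.symm
      refine ⟨(polyMap π y, ⟨a % ℓ, Nat.mod_lt _ hℓ.pos⟩), ⟨hx, Set.mem_univ _⟩, ?_⟩
      simp only
      rw [(hτper _ h3).iterate_mod_apply a]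
      exact ha.symm
  have hinj : Set.InjOn (fun p : (Fin V.dim → AlgebraicClosure F) × Fin ℓ =>
      (polyMap τ)^[(p.2 : ℕ)] (y₀ p.1)) ((V.points n \ T) ×ˢ (Set.univ : Set (Fin ℓ))) := by
    rintro ⟨x, i⟩ ⟨hx, _⟩ ⟨x', i'⟩ ⟨hx', _⟩ hxx
    simp only at hx hx' hxx
    obtain ⟨h1, h2, _⟩ := hy₀ x hx
    obtain ⟨h1', h2', _⟩ := hy₀ x' hx'
    have h3 : x = x' := by
      have h4 := congrArg (polyMap π) hxx
      rw [hτπ _ _ h1, hτπ _ _ h1', h2, h2'] at h4
      exact h4
    subst h3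
    have h5 : (i : ℕ) = (i' : ℕ) := by
      have h6 := hτmin _ h1
      exact Function.iterate_injOn_Iio_minimalPeriod (by rw [h6]; exact i.2)
        (by rw [h6]; exact i'.2) hxx
    rw [Fin.ext h5]
  have hcard : (V'.points n).ncard = (V.points n \ T).ncard * ℓ := by
    rw [← himg, Set.InjOn.ncard_image hinj, Set.ncard_prod, Set.ncard_univ, Nat.card_fin]
  have hdiff : (V.points n \ T).ncard + T.ncard = (V.points n).ncard :=
    Set.ncard_sdiff_add_ncard_of_subset hTsub hfin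
  unfold AffVar.count
  rw [hcard]
  have h7 : ((V.points n).ncard : ℤ) = ((V.points n \ T).ncard : ℤ) + (T.ncard : ℤ) := by
    exact_mod_cast hdiff.symm
  rw [h7]
  push_cast
  ring

theorem ltower_count (V V' : AffVar F) (ℓ : ℕ) (hℓ : ℓ.Prime) (k : ℕ) (hT : LTower ℓ V k V') :
    ∃ t : ℕ → ℤ, ∀ n : ℕ, 1 ≤ n → (ℓ : ℤ) ^ padicValNat ℓ n ∣ t n ∧
      (V'.count n : ℤ) = (ℓ : ℤ) ^ k * (V.count n : ℤ) - ℓ * t n := by
  induction hT with
  | zero => exact ⟨fun _ => 0, fun n _ => ⟨dvd_zero _, by simp⟩⟩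
  | succ k V' V'' hV h ih =>
    obtain ⟨t₀, ht₀⟩ := ih
    have h1 : ∀ n : ℕ, ∃ t : ℤ, 1 ≤ n → (ℓ : ℤ) ^ padicValNat ℓ n ∣ t ∧
        (V''.count n : ℤ) = ℓ * (V'.count n : ℤ) - ℓ * t := by
      intro n
      by_cases hn : 1 ≤ n
      · obtain ⟨t, ht⟩ := cyclic_count V' V'' ℓ hℓ h n hn
        exact ⟨t, fun _ => ht⟩
      · exact ⟨0, fun hn' => absurd hn' hn⟩
    choose t₁ ht₁ using h1
    refine ⟨fun n => ℓ * t₀ n + t₁ n, fun n hn => ⟨?_, ?_⟩⟩
    · exact dvd_add ((ht₀ n hn).1.mul_left _) (ht₁ n hn).1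
    · rw [(ht₁ n hn).2, (ht₀ n hn).2, pow_succ]
      ring

end Pool.Agent.Helper31.TT
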