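import Pool.Agent.Helper31.TT.Red

/-!
# TT-28  Reductions of the roots, general form
-/

set_option autoImplicit false

namespace Pool.Agent.Helper31.TT

open Polynomial

/-- the roots as algebraic integers, and the reductions of the reversed polynomial -/
private theorem exists_roots (P : ℤ[X]) (hP : P.Monic) :
    ∃ A : Multiset (integralClosure ℤ ℂ),
      A.map (fun z : integralClosure ℤ ℂ => (z : ℂ)) = croots P ∧
      ∀ (κ : Type) [Field κ] (r : integralClosure ℤ ℂ →+* κ),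
        P.reverse.map (Int.castRingHom κ) = Pool.Agent.Helper2.Tate.pr (A.map r) := by
  classical
  have hint : ∀ α ∈ croots P, α ∈ integralClosure ℤ ℂ :=
    fun α hα => isIntegral_of_mem_croots hP hα
  obtain ⟨A, hA⟩ : ∃ A : Multiset (integralClosure ℤ ℂ),
      A.map (fun z : integralClosure ℤ ℂ => (z : ℂ)) = croots P :=
    ⟨(croots P).pmap (fun α h => ⟨α, h⟩) hint, by
      rw [Multiset.map_pmap]
      simp only
      rw [Multiset.pmap_eq_map, Multiset.map_id']⟩
  have hmapr : P.reverse.map (Int.castRingHom (integralClosure ℤ ℂ)) =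
      Pool.Agent.Helper2.Tate.pr A := by
    have hinj : Function.Injective (Polynomial.map (algebraMap (integralClosure ℤ ℂ) ℂ)) :=
      map_injective _ Subtype.val_injective
    apply hinj
    rw [Polynomial.map_map]
    have h3 : (algebraMap (integralClosure ℤ ℂ) ℂ).comp (Int.castRingHom _) =
        Int.castRingHom ℂ := RingHom.ext_int _ _
    have h4 : (P.map (Int.castRingHom ℂ)).roots =
        A.map (fun z : integralClosure ℤ ℂ => (z : ℂ)) := hA.symm
    rw [h3, Pool.Agent.Helper2.Tate.reverse_map P hP, h4]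
    unfold Pool.Agent.Helper2.Tate.pr
    rw [Polynomial.map_multiset_prod, Multiset.map_map, Multiset.map_map]
    congr 1
    apply Multiset.map_congr rfl
    intro z _
    simp
  refine ⟨A, hA, fun κ _ r => ?_⟩
  have h5 : Int.castRingHom κ = r.comp (Int.castRingHom _) := RingHom.ext_int _ _
  rw [h5, ← Polynomial.map_map, hmapr]
  unfold Pool.Agent.Helper2.Tate.pr
  rw [Polynomial.map_multiset_prod, Multiset.map_map, Multiset.map_map]
  congr 1
  apply Multiset.map_congr rfl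
  intro z _
  simp

/-- the congruence after reduction -/
private theorem red_cong (ℓ : ℕ) (hℓ : ℓ.Prime) (Ps Qs : ℤ[X]) (N x y : ℕ)
    (hcong : (1 - X) ^ y * Qs.reverse.map (Int.castRingHom (ZMod ℓ)) =
      (1 - X) ^ x * (Ps.reverse.map (Int.castRingHom (ZMod ℓ))) ^ N)
    {κ : Type} [Field κ] (r : integralClosure ℤ ℂ →+* κ) (hr : r (ℓ : integralClosure ℤ ℂ) = 0)
    (AP AQ : Multiset (integralClosure ℤ ℂ))
    (hP : Ps.reverse.map (Int.castRingHom κ) = Pool.Agent.Helper2.Tate.pr (AP.map r))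
    (hQ : Qs.reverse.map (Int.castRingHom κ) = Pool.Agent.Helper2.Tate.pr (AQ.map r)) :
    (1 - X) ^ y * Pool.Agent.Helper2.Tate.pr (AQ.map r) =
      (1 - X) ^ x * (Pool.Agent.Helper2.Tate.pr (AP.map r)) ^ N := by
  have hchar : CharP κ ℓ := by
    have h12 : (ℓ : κ) = 0 := by simpa using hr
    exact (CharP.charP_iff_prime_eq_zero hℓ).2 h12
  let _ : Algebra (ZMod ℓ) κ := ZMod.algebra κ ℓ
  have hρ : Int.castRingHom κ = (algebraMap (ZMod ℓ) κ).comp (Int.castRingHom (ZMod ℓ)) :=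
    RingHom.ext_int _ _
  have h1 := congrArg (Polynomial.map (algebraMap (ZMod ℓ) κ)) hcong
  rw [Polynomial.map_mul, Polynomial.map_mul, Polynomial.map_pow, Polynomial.map_pow,
    Polynomial.map_pow, Polynomial.map_sub, Polynomial.map_one, Polynomial.map_X,
    Polynomial.map_map, Polynomial.map_map, ← hρ, hP, hQ] at h1
  exact h1

/-- the reduction of a root of `Q` is `1` or the reduction of a root of `P` -/
theorem red_root_gen (ℓ : ℕ) (hℓ : ℓ.Prime) (Ps Qs : ℤ[X]) (hPs : Ps.Monic) (hQs : Qs.Monic)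
    (N x y : ℕ)
    (hcong : (1 - X) ^ y * Qs.reverse.map (Int.castRingHom (ZMod ℓ)) =
      (1 - X) ^ x * (Ps.reverse.map (Int.castRingHom (ZMod ℓ))) ^ N)
    {κ : Type} [Field κ] (r : integralClosure ℤ ℂ →+* κ) (hr : r (ℓ : integralClosure ℤ ℂ) = 0)
    (z : integralClosure ℤ ℂ) (hz : (z : ℂ) ∈ croots Qs) (hz0 : r z ≠ 0) :
    r z = 1 ∨ ∃ a : integralClosure ℤ ℂ, (a : ℂ) ∈ croots Ps ∧ r z = r a := by
  classical
  obtain ⟨AP, hAP, hAP2⟩ := exists_roots Ps hPs
  obtain ⟨AQ, hAQ, hAQ2⟩ := exists_roots Qs hQs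
  have h1 := red_cong ℓ hℓ Ps Qs N x y hcong r hr AP AQ (hAP2 κ r) (hAQ2 κ r)
  have hzA : z ∈ AQ := by
    rw [← hAQ, Multiset.mem_map] at hz
    obtain ⟨w, hw, hwz⟩ := hz
    rwa [← Subtype.ext hwz]
  have h2 : (Pool.Agent.Helper2.Tate.pr (AQ.map r)).eval (r z)⁻¹ = 0 := by
    unfold Pool.Agent.Helper2.Tate.pr
    rw [eval_multiset_prod, Multiset.map_map]
    apply Multiset.prod_eq_zero
    rw [Multiset.mem_map]
    refine ⟨r z, Multiset.mem_map_of_mem r hzA, ?_⟩
    simp [hz0]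
  have h3 := congrArg (Polynomial.eval (r z)⁻¹) h1
  rw [eval_mul, eval_mul, h2, mul_zero, eval_pow, eval_pow, eval_sub, eval_one, eval_X] at h3
  rcases mul_eq_zero.1 h3.symm with h4 | h4
  · left
    have h5 := eq_zero_of_pow_eq_zero h4
    rw [sub_eq_zero] at h5
    rw [← inv_inv (r z), ← h5, inv_one]
  · right
    have h5 := eq_zero_of_pow_eq_zero h4
    unfold Pool.Agent.Helper2.Tate.pr at h5
    rw [eval_multiset_prod, Multiset.map_map, Multiset.map_map, Multiset.prod_eq_zero_iff,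
      Multiset.mem_map] at h5
    obtain ⟨a, ha, ha2⟩ := h5
    refine ⟨a, ?_, ?_⟩
    · rw [← hAP]
      exact Multiset.mem_map_of_mem _ ha
    · simp only [Function.comp_apply, eval_sub, eval_one, eval_mul, eval_C, eval_X] at ha2
      have h6 : r a * (r z)⁻¹ = 1 := (sub_eq_zero.1 ha2).symm
      exact ((mul_inv_eq_one₀ hz0).1 h6).symm

/-- the number of the roots of `Q` with reduction `1` if no root of `P` has this reduction -/
theorem red_count_one (ℓ : ℕ) (hℓ : ℓ.Prime) (Ps Qs : ℤ[X]) (hPs : Ps.Monic) (hQs : Qs.Monic)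
    (N x y : ℕ)
    (hcong : (1 - X) ^ y * Qs.reverse.map (Int.castRingHom (ZMod ℓ)) =
      (1 - X) ^ x * (Ps.reverse.map (Int.castRingHom (ZMod ℓ))) ^ N)
    {κ : Type} [Field κ] (r : integralClosure ℤ ℂ →+* κ) (hr : r (ℓ : integralClosure ℤ ℂ) = 0)
    (hno : ∀ a : integralClosure ℤ ℂ, (a : ℂ) ∈ croots Ps → r a ≠ 1)
    (S : Set ℂ) [DecidablePred (fun z : ℂ => z ∈ S)]
    (hS : ∀ z : integralClosure ℤ ℂ, (z : ℂ) ∈ croots Qs → (z : ℂ) ∈ S → r z = 1) :
    (((croots Qs).filter (fun z => z ∈ S)).card : ℤ) ≤ x - y := by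
  classical
  obtain ⟨AP, hAP, hAP2⟩ := exists_roots Ps hPs
  obtain ⟨AQ, hAQ, hAQ2⟩ := exists_roots Qs hQs
  have h1 := red_cong ℓ hℓ Ps Qs N x y hcong r hr AP AQ (hAP2 κ r) (hAQ2 κ r)
  obtain ⟨hQ1, hQ2⟩ := Pool.Agent.Helper2.Tate.rootMultiplicity_pr (AQ.map r)
  obtain ⟨hP1, hP2⟩ := Pool.Agent.Helper2.Tate.rootMultiplicity_pr (AP.map r)
  have hX : (1 - X : κ[X]) = C (-1) * (X - C 1) := by simp
  have hX0 : (1 - X : κ[X]) ≠ 0 := by
    intro h
    have := congrArg (fun p => coeff p 0) h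
    simp at this
  have hXm : ∀ n : ℕ, ((1 - X : κ[X]) ^ n).rootMultiplicity 1 = n := by
    intro n
    induction n with
    | zero => simp
    | succ n ih =>
      rw [pow_succ, rootMultiplicity_mul (mul_ne_zero (pow_ne_zero _ hX0) hX0), ih]
      congr 1
      rw [hX, rootMultiplicity_mul (by rw [← hX]; exact hX0), rootMultiplicity_X_sub_C_self,
        rootMultiplicity_C, zero_add]
  have hPN : ((Pool.Agent.Helper2.Tate.pr (AP.map r)) ^ N).rootMultiplicity 1 = 0 := by
    rw [rootMultiplicity_eq_zero_iff]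
    intro h
    exfalso
    rw [IsRoot, eval_pow] at h
    have h5 := eq_zero_of_pow_eq_zero h
    have h6 : 0 < (Pool.Agent.Helper2.Tate.pr (AP.map r)).rootMultiplicity 1 :=
      (rootMultiplicity_pos hP2).2 h5
    rw [hP1, Multiset.count_pos, Multiset.mem_map] at h6
    obtain ⟨a, ha, ha1⟩ := h6
    refine hno a ?_ ha1
    rw [← hAP]
    exact Multiset.mem_map_of_mem _ ha
  have h2 := congrArg (rootMultiplicity 1) h1
  rw [rootMultiplicity_mul (mul_ne_zero (pow_ne_zero _ hX0) hQ2),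
    rootMultiplicity_mul (mul_ne_zero (pow_ne_zero _ hX0) (pow_ne_zero _ hP2)), hXm, hXm, hPN, hQ1,
    add_zero] at h2
  have h3 : ((croots Qs).filter (fun z => z ∈ S)).card ≤ (AQ.map r).count 1 := by
    rw [← hAQ, Multiset.count, Multiset.countP_map, Multiset.filter_map, Multiset.card_map]
    apply Multiset.card_le_card
    rw [Multiset.le_filter]
    refine ⟨Multiset.filter_le _ _, ?_⟩
    intro z hz
    rw [Multiset.mem_filter] at hz
    refine (hS z ?_ hz.2).symm
    rw [← hAQ]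
    exact Multiset.mem_map_of_mem _ hz.1
  have h4 : ((y + (AQ.map r).count 1 : ℕ) : ℤ) = x := by exact_mod_cast h2
  push_cast at h4
  have h5 : (((croots Qs).filter (fun z => z ∈ S)).card : ℤ) ≤ ((AQ.map r).count 1 : ℕ) := by
    exact_mod_cast h3
  linarith

end Pool.Agent.Helper31.TT
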