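import Pool.Agent.Helper31.TT.PowPoly
import Pool.Agent.Helper31.TT.GCongG
import Pool.Agent.Helper31.TT.RedG
import Pool.Agent.Helper31.TT.Conj

/-!
# TT-29  The first part of the theorem, with an arbitrary Tate part

`m₀ = [F' : F]`, `q' = |F'|`, `(z u ^ m₀) ^ (2 j) = q' ^ (w j)`: `ξ = (z u ^ m₀) ^ 2 / q' ^ w` is a root of unity, a primitive `m`-th one.
`r` is a reduction of the ring of algebraic integers to a field of characteristic `ℓ`; `r q' = 1`. For every `i` prime to `m` there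
are roots `z_i` of `Q`, `u_i` of `B` with `(z_i u_i ^ m₀) ^ 2 = ξ ^ i q' ^ w`, so `r z_i ≠ 0` and `r z_i = r(α_i) ^ m₀`, `α_i = 1` or a root of
`P`, hence `r(ξ) ^ i = r(α_i u_i) ^ (2 m₀)`. So the `φ(n)` powers of `r(ξ)` of the same order `n` are among the
`r(α u) ^ (2 m₀)`, `φ(n) ≤ (deg P + 1) deg B`. If `r z = r(α) ^ m₀` for a root `α` of `P` then, as `m₀ ∣ M (ℓ - 1) ℓ ^ a`,
`r((α u) ^ (2 n M)) ^ (ℓ - 1) = 1` (the power `ℓ ^ a` does not matter in characteristic `ℓ`), a contradiction (`key`). So `r z = 1`, and no root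
`α` of `P` has `r(α) ^ m₀ = 1`: then exactly `ℓ ^ k c(1) - c'(1)` roots of `Q` have reduction `1`.
-/

set_option autoImplicit false

namespace Pool.Agent.Helper31.TT

open Polynomial

/-- the primitive roots of unity of order `n` which are powers of an element, with exponents prime to a multiple of `n` -/
private theorem totient_le_card {κ : Type} [Field κ] [DecidableEq κ] (x : κ) (m n : ℕ)
    (hm : 0 < m) (hn : orderOf x = n) (hnm : n ∣ m) (A : Finset κ)
    (hA : ∀ i : ℕ, i.Coprime m → x ^ i ∈ A) : n.totient ≤ A.card := by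
  have hn0 : 0 < n := Nat.pos_of_dvd_of_pos hnm hm
  have : NeZero n := ⟨hn0.ne'⟩
  have : NeZero m := ⟨hm.ne'⟩
  rw [← ZMod.card_units_eq_totient n]
  -- every unit modulo `n` lifts to a unit modulo `m`
  have hsurj := ZMod.unitsMap_surjective hnm
  choose g hg using hsurj
  have key : ∀ v : (ZMod n)ˣ, x ^ ((v : ZMod n).val) ∈ A := by
    intro v
    have h1 : ((g v : ZMod m).val).Coprime m := ZMod.val_coe_unit_coprime (g v)
    have h2 : x ^ ((g v : ZMod m).val) = x ^ ((v : ZMod n).val) := by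
      rw [← pow_mod_orderOf, hn]
      have h3 : (((g v : ZMod m).val : ℕ) : ZMod n) = (v : ZMod n) := by
        have h4 := congrArg (fun a : (ZMod n)ˣ => (a : ZMod n)) (hg v)
        simp only [ZMod.unitsMap_val] at h4
        rw [ZMod.natCast_val]
        exact h4
      have h5 := congrArg ZMod.val h3
      rw [ZMod.val_natCast] at h5
      rw [h5]
    rw [← h2]
    exact hA _ h1
  rw [← Finset.card_univ]
  refine Finset.card_le_card_of_injOn (fun v => x ^ ((v : ZMod n).val)) (fun v _ => key v) ?_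
  intro v _ v' _ h
  have h2 : x ^ ((v : ZMod n).val) = x ^ ((v' : ZMod n).val) := h
  have h1 : (v : ZMod n).val = (v' : ZMod n).val := by
    refine pow_injOn_Iio_orderOf ?_ ?_ h2
    · rw [Set.mem_Iio, hn]; exact ZMod.val_lt _
    · rw [Set.mem_Iio, hn]; exact ZMod.val_lt _
  exact Units.ext (ZMod.val_injective n h1)

variable {F : Type} [Field F] [Fintype F]

/-- the reduction of a root `z` of `Q` with `z u ^ m₀` supersingular is not the one of a root of `P` -/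
private theorem key (P B Q R Pm : ℤ[X]) (M m₀ q : ℕ) (hP : P.Monic)
    (hB : B.Monic) (hQ : Q.Monic) (hR : R.Monic) (hPm : Pm.Monic)
    (hrP : croots Pm = (croots P).map (fun α => α ^ m₀))
    (hroots : ∀ α ∈ croots P, ∀ u ∈ croots B, ∀ n : ℕ, 0 < n →
      n.totient ≤ (P.natDegree + 1) * B.natDegree →
      ∃ i : ℕ, (α * u) ^ (2 * n * M * i) ∈ croots R)
    (ℓ : ℕ) (hℓ : ℓ.Prime) (hno : NoRootMod R ℓ) (hq0 : 0 < q) (hF' : ℓ ∣ q - 1)
    (hdeg : ∃ a : ℕ, m₀ ∣ M * (ℓ - 1) * ℓ ^ a) (N sx sy : ℕ)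
    (hcong : (1 - X) ^ sy * Q.reverse.map (Int.castRingHom (ZMod ℓ)) =
      (1 - X) ^ sx * (Pm.reverse.map (Int.castRingHom (ZMod ℓ))) ^ N)
    {κ : Type} [Field κ] (r : integralClosure ℤ ℂ →+* κ) (hr : r (ℓ : integralClosure ℤ ℂ) = 0)
    (z : integralClosure ℤ ℂ) (hz : (z : ℂ) ∈ croots Q) (u : ℂ)
    (hu : u ∈ croots B) (j w : ℕ) (hj : 0 < j)
    (heq : ((z : ℂ) * u ^ m₀) ^ (2 * j) = (q : ℂ) ^ (w * j)) :
    r z = 1 ∧ ∀ a : integralClosure ℤ ℂ, (a : ℂ) ∈ croots Pm → r z ≠ r a := by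
  classical
  have := Fact.mk hℓ
  have hchar : CharP κ ℓ := by
    have h12 : (ℓ : κ) = 0 := by simpa using hr
    exact (CharP.charP_iff_prime_eq_zero hℓ).2 h12
  set g : ℕ := q ^ w with hg
  have hg0 : (g : ℂ) ≠ 0 := by
    rw [hg]; exact_mod_cast (pow_pos hq0 w).ne'
  have hqκ : ((q : ℕ) : κ) = 1 := by
    have h4 : ((q - 1 : ℕ) : κ) = 0 := (CharP.cast_eq_zero_iff κ ℓ _).2 hF'
    rw [Nat.cast_sub hq0, Nat.cast_one, sub_eq_zero] at h4
    exact h4
  have hgκ : ((g : ℕ) : κ) = 1 := by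
    rw [hg, Nat.cast_pow, hqκ, one_pow]
  -- the root of unity
  set ξ : ℂ := ((z : ℂ) * u ^ m₀) ^ 2 / g with hξ
  have hξg : ((z : ℂ) * u ^ m₀) ^ 2 = ξ * g := by rw [hξ, div_mul_cancel₀ _ hg0]
  have hξj : ξ ^ j = 1 := by
    rw [hξ, div_pow, ← pow_mul, heq, hg]
    push_cast
    rw [← pow_mul, div_self]
    exact pow_ne_zero _ (by exact_mod_cast hq0.ne')
  set m := orderOf ξ with hm
  have hfin : IsOfFinOrder ξ := isOfFinOrder_iff_pow_eq_one.2 ⟨j, hj, hξj⟩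
  have hm0 : 0 < m := hfin.orderOf_pos
  have hprim : IsPrimitiveRoot ξ m := IsPrimitiveRoot.orderOf ξ
  have hξint : IsIntegral ℤ ξ := ⟨X ^ j - 1, monic_X_pow_sub_C 1 hj.ne', by simp [hξj]⟩
  set ξ' : integralClosure ℤ ℂ := ⟨ξ, hξint⟩ with hξ'
  set x : κ := r ξ' with hx
  have hxm : x ^ m = 1 := by
    have h1 : ξ' ^ m = 1 := by
      apply Subtype.ext
      change ξ ^ m = 1
      exact pow_orderOf_eq_one ξ
    rw [hx, ← map_pow, h1, map_one]
  have hξ0 : r ξ' ≠ 0 := by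
    intro h0
    rw [hx, h0, zero_pow hm0.ne'] at hxm
    exact zero_ne_one hxm
  set n := orderOf x with hn
  have hnm : n ∣ m := orderOf_dvd_of_pow_eq_one hxm
  have hn0 : 0 < n := Nat.pos_of_dvd_of_pos hnm hm0
  obtain ⟨Bm, hBm, hrB⟩ := exists_powPoly B hB m₀
  have hintP : ∀ α : ℂ, α ∈ croots P → IsIntegral ℤ α := fun α h => isIntegral_of_mem_croots hP h
  have hintB : ∀ α : ℂ, α ∈ croots B → IsIntegral ℤ α := fun α h => isIntegral_of_mem_croots hB h
  have hintQ : ∀ α : ℂ, α ∈ croots Q → IsIntegral ℤ α := fun α h => isIntegral_of_mem_croots hQ h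
  have hum : u ^ m₀ ∈ croots Bm := by
    rw [hrB]; exact Multiset.mem_map_of_mem (fun α => α ^ m₀) hu
  -- a power of a root of `P`
  have hpow : ∀ a' : integralClosure ℤ ℂ, (a' : ℂ) ∈ croots Pm →
      ∃ a : integralClosure ℤ ℂ, (a : ℂ) ∈ croots P ∧ r a' = r a ^ m₀ := by
    intro a' ha'
    rw [hrP] at ha'
    obtain ⟨α, hα, hαa⟩ := Multiset.mem_map.1 ha'
    refine ⟨⟨α, hintP α hα⟩, hα, ?_⟩
    rw [← map_pow]
    congr 1
    apply Subtype.ext
    push_cast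
    exact hαa.symm
  -- the equation for a pair of roots
  have hpair : ∀ (i : ℕ) (z' u' : ℂ) (hz' : z' ∈ croots Q) (hu' : u' ∈ croots B),
      (z' * u' ^ m₀) ^ 2 = ξ ^ i * g →
      (r ⟨z', hintQ z' hz'⟩ * r ⟨u', hintB u' hu'⟩ ^ m₀) ^ 2 = x ^ i := by
    intro i z' u' hz' hu' h1
    have h2 : ((⟨z', hintQ z' hz'⟩ : integralClosure ℤ ℂ) *
        (⟨u', hintB u' hu'⟩ : integralClosure ℤ ℂ) ^ m₀) ^ 2 =
        ξ' ^ i * (g : integralClosure ℤ ℂ) := by
      apply Subtype.ext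
      push_cast
      exact h1
    have h3 := congrArg r h2
    rwa [map_pow, map_mul, map_mul, map_pow, map_pow, map_natCast, hgκ, mul_one] at h3
  -- the reduction of a pair of roots
  have hi : ∀ i : ℕ, i.Coprime m → ∃ a b : integralClosure ℤ ℂ,
      ((a : ℂ) = 1 ∨ (a : ℂ) ∈ croots P) ∧
      (b : ℂ) ∈ croots B ∧ x ^ i = (r (a * b)) ^ (2 * m₀) := by
    intro i hi
    obtain ⟨z', hz', v', hv', h1⟩ :=
      exists_conj Q Bm hQ hBm z (u ^ m₀) ξ hz hum m hm0 hprim g hξg i hi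
    rw [hrB] at hv'
    obtain ⟨u', hu', huv⟩ := Multiset.mem_map.1 hv'
    rw [← huv] at h1
    have h3 := hpair i z' u' hz' hu' h1
    set z1 : integralClosure ℤ ℂ := ⟨z', hintQ z' hz'⟩ with hz1
    set b : integralClosure ℤ ℂ := ⟨u', hintB u' hu'⟩ with hb
    have hz10 : r z1 ≠ 0 := by
      intro h0
      rw [h0, zero_mul, zero_pow two_ne_zero] at h3
      exact (pow_ne_zero _ hξ0) h3.symm
    rcases red_root_gen ℓ hℓ Pm Q hPm hQ N sx sy hcong r hr z1 hz' hz10 with h5 | ⟨a', ha', hra⟩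
    · refine ⟨1, b, Or.inl rfl, hu', ?_⟩
      rw [← h3, h5, one_mul, one_mul, ← pow_mul, mul_comm m₀]
    · obtain ⟨a, ha, h6⟩ := hpow a' ha'
      refine ⟨a, b, Or.inr ha, hu', ?_⟩
      rw [← h3, hra, h6, map_mul, ← mul_pow, ← pow_mul, mul_comm m₀]
  -- the bound for the order
  have hle : n.totient ≤ (P.natDegree + 1) * B.natDegree := by
    set A : Finset κ := (((insert 1 (croots P).toFinset) ×ˢ (croots B).toFinset).image
      (fun y : ℂ × ℂ => if h : IsIntegral ℤ (y.1 * y.2) then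
        (r ⟨y.1 * y.2, h⟩) ^ (2 * m₀) else 0)) with hA
    have h1 := totient_le_card x m n hm0 hn.symm hnm A (by
      intro i hic
      obtain ⟨a, b, ha, hb, hab⟩ := hi i hic
      rw [hA, Finset.mem_image]
      refine ⟨((a : ℂ), (b : ℂ)), ?_, ?_⟩
      · rw [Finset.mem_product, Finset.mem_insert, Multiset.mem_toFinset, Multiset.mem_toFinset]
        exact ⟨ha, hb⟩
      · have h2 : IsIntegral ℤ ((a : ℂ) * (b : ℂ)) := (a * b).2
        rw [dif_pos h2, hab]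
        rfl)
    refine h1.trans (Finset.card_image_le.trans ?_)
    rw [Finset.card_product]
    refine Nat.mul_le_mul ((Finset.card_insert_le _ _).trans
      (Nat.succ_le_succ ((Multiset.toFinset_card_le _).trans ?_)))
      ((Multiset.toFinset_card_le _).trans ?_)
    · exact (card_roots' _).trans natDegree_map_le
    · exact (card_roots' _).trans natDegree_map_le
  have h1 : ((z : ℂ) * u ^ m₀) ^ 2 = ξ ^ 1 * g := by rw [pow_one]; exact hξg
  have h3 := hpair 1 z u hz hu h1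
  have hz' : (⟨(z : ℂ), hintQ z hz⟩ : integralClosure ℤ ℂ) = z := rfl
  rw [hz'] at h3
  set b : integralClosure ℤ ℂ := ⟨u, hintB u hu⟩ with hb
  have hz10 : r z ≠ 0 := by
    intro h0
    rw [h0, zero_mul, zero_pow two_ne_zero] at h3
    exact (pow_ne_zero _ hξ0) h3.symm
  have hne : ∀ a : integralClosure ℤ ℂ, (a : ℂ) ∈ croots Pm → r z ≠ r a := by
    intro a' ha' hza
    obtain ⟨a, ha, h6⟩ := hpow a' ha'
    have hab : x = (r (a * b)) ^ (2 * m₀) := by
      rw [← pow_one x, ← h3, hza, h6, map_mul, ← mul_pow, ← pow_mul, mul_comm m₀]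
    obtain ⟨e', hmem⟩ := hroots a ha b hu n hn0 hle
    obtain ⟨e, he'⟩ : ∃ e, e = 2 * n * M * e' := ⟨_, rfl⟩
    rw [← he'] at hmem
    refine red_noRoot ℓ hℓ R hR hno r hr ((a * b) ^ e) (by push_cast; exact hmem) ?_
    obtain ⟨t, ht⟩ := hdeg
    obtain ⟨s, hs⟩ := ht
    -- the power `ℓ ^ t` does not matter
    have h10 : (r ((a * b) ^ e) ^ (ℓ - 1)) ^ (ℓ ^ t) = 1 := by
      have h7 : e * (ℓ - 1) * ℓ ^ t = 2 * m₀ * (n * (e' * s)) := by
        calc e * (ℓ - 1) * ℓ ^ t = 2 * n * e' * (M * (ℓ - 1) * ℓ ^ t) := by rw [he']; ring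
          _ = 2 * m₀ * (n * (e' * s)) := by rw [hs]; ring
      rw [map_pow, ← pow_mul, ← pow_mul, ← mul_assoc, h7, pow_mul, ← hab, pow_mul, hn,
        pow_orderOf_eq_one, one_pow]
    have h11 : (r ((a * b) ^ e) ^ (ℓ - 1) - 1) ^ (ℓ ^ t) = 0 := by
      rw [sub_pow_char_pow, h10, one_pow, sub_self]
    exact sub_eq_zero.1 (pow_eq_zero_iff (pow_ne_zero _ hℓ.ne_zero) |>.1 h11)
  refine ⟨?_, hne⟩
  rcases red_root_gen ℓ hℓ Pm Q hPm hQ N sx sy hcong r hr z hz hz10 with h5 | ⟨a', ha', hra⟩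
  · exact h5
  · exact absurd hra (hne a' ha')

theorem part_one_count (V W : AffVar F) (c P B R : ℤ[X]) (M : ℕ)
    (hP : P.Monic) (hB : B.Monic) (hR : R.Monic) (hPc : Counts V W c P)
    (hroots : ∀ α ∈ croots P, ∀ u ∈ croots B, ∀ n : ℕ, 0 < n →
      n.totient ≤ (P.natDegree + 1) * B.natDegree →
      ∃ i : ℕ, (α * u) ^ (2 * n * M * i) ∈ croots R)
    (ℓ : ℕ) (hℓ : ℓ.Prime) (hno : NoRootMod R ℓ)
    (F' : Type) [Field F'] [Fintype F'] [Algebra F F'] (hF' : ℓ ∣ Fintype.card F' - 1)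
    (hdeg : ∃ a : ℕ, Module.finrank F F' ∣ M * (ℓ - 1) * ℓ ^ a) (k : ℕ) (V' W' : AffVar F')
    (hV : LTower ℓ (V.baseChange F') k V') (hW : LTower ℓ (W.baseChange F') k W')
    (c' Q : ℤ[X]) (hQ : Q.Monic) (hQc : Counts V' W' c' Q) (u : ℂ) (hu : u ∈ croots B) :
    (ssCount (Fintype.card F') Q (u ^ Module.finrank F F') : ℤ) ≤
      max 0 ((ℓ : ℤ) ^ k * c.eval 1 - c'.eval 1) := by
  classical
  have := Fact.mk hℓ
  obtain ⟨κ, _, r, hr⟩ := Pool.Agent.Helper2.Tate.exists_reduction ℓ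
  obtain ⟨Pm, hPm, hrP⟩ := exists_powPoly P hP (Module.finrank F F')
  obtain ⟨sx, sy, hxy, hcong⟩ :=
    ltower_cong_gen V W F' V' W' c c' P Q Pm ℓ hℓ hF' k hV hW hQ hPm hrP hPc hQc
  set S : Set ℂ := {z | ∃ j w : ℕ, 0 < j ∧
    (z * u ^ Module.finrank F F') ^ (2 * j) = (Fintype.card F' : ℂ) ^ (w * j)} with hS
  have hcount : ssCount (Fintype.card F') Q (u ^ Module.finrank F F') =
      ((croots Q).filter (fun z => z ∈ S)).card := by
    unfold ssCount
    congr 1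
  have hkey : ∀ z : integralClosure ℤ ℂ, (z : ℂ) ∈ croots Q → (z : ℂ) ∈ S →
      r z = 1 ∧ ∀ a : integralClosure ℤ ℂ, (a : ℂ) ∈ croots Pm → r z ≠ r a := by
    rintro z hz ⟨j, w, hj, heq⟩
    exact key P B Q R Pm M (Module.finrank F F') (Fintype.card F') hP hB hQ hR hPm hrP
      hroots ℓ hℓ hno Fintype.card_pos hF' hdeg (ℓ ^ k) sx sy hcong r hr z hz u hu j w hj heq
  rw [hcount]
  rcases Multiset.empty_or_exists_mem ((croots Q).filter (fun z => z ∈ S)) with h0 | ⟨z, hz⟩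
  · rw [h0, Multiset.card_zero]
    simp
  · refine le_max_of_le_right ?_
    rw [← hxy]
    rw [Multiset.mem_filter] at hz
    have hzi : IsIntegral ℤ z := isIntegral_of_mem_croots hQ hz.1
    obtain ⟨h1, h2⟩ := hkey ⟨z, hzi⟩ hz.1 hz.2
    refine red_count_one ℓ hℓ Pm Q hPm hQ (ℓ ^ k) sx sy hcong r hr ?_ S
      (fun z' hz' hzS => (hkey z' hz' hzS).1)
    intro a ha ha1
    exact h2 a ha (h1.trans ha1.symm)

end Pool.Agent.Helper31.TT
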