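import Pool.Agent.Helper31.TT.Defs

/-!
# TT-08  Prime ideals over the rational primes

* `card_over_le`: at most `[K : ℚ]` prime ideals contain `p`. `Ideal.primesOver`/`Ideal.sum_ramification_inertia` (`∑ e f = n`),
  or: `∏_{P ∈ T} P` divides `(p)` (distinct nonzero primes are coprime), so `p ^ |T| ≤ ∏ absNorm P ∣ absNorm (p) = p ^ n`
  (every `absNorm P` is a power `≥ p` of `p`). There may be such a lemma in `Helper79/GA` or `Helper38/TW`.
* `exists_prime_mem`: `absNorm P` is a prime power (`Ideal.absNorm`, `P ∩ ℤ = (p)`, `𝓞 K ⧸ P` is a finite field of characteristic `p`;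
  `Ideal.absNorm_mem`, `FiniteField.card`), and `p ∈ P`.
* `absNorm_pow_sum_le`: group the `P` by the prime `p ∈ P`: `absNorm P ≥ p`, at most `n = [K : ℚ]` primes for each `p`,
  `∑_p p ^ (-2) ≤ ∑_{m ≥ 1} m ^ (-2) ≤ 2` over any finite set. If `absNorm P` is not prime then `absNorm P ≥ p ^ 2`.
* `sum_deg_one_le`: fibres of `absNorm` on `T` have at most `n` elements by `card_over_le` (`absNorm P ∈ P`).
-/

set_option autoImplicit false

namespace Pool.Agent.Helper31.TT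

open NumberField

private theorem ov_absNorm (K : Type) [Field K] [NumberField K] (p : ℕ) (hp : p.Prime)
    (P : Ideal (𝓞 K)) (hP : P.IsPrime) (hm : (p : 𝓞 K) ∈ P) :
    ∃ f : ℕ, 0 < f ∧ Ideal.absNorm P = p ^ f := by
  have h1 : Ideal.absNorm P ∣ p ^ Module.finrank ℤ (𝓞 K) := by
    rw [← Ideal.absNorm_span_natCast]
    exact Ideal.absNorm_dvd_absNorm_of_le ((Ideal.span_singleton_le_iff_mem P).2 hm)
  obtain ⟨f, _, hf⟩ := (Nat.dvd_prime_pow hp).1 h1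
  refine ⟨f, Nat.pos_of_ne_zero fun h0 => ?_, hf⟩
  rw [h0, pow_zero, Ideal.absNorm_eq_one_iff] at hf
  exact hP.ne_top hf

private theorem ov_ne_bot (K : Type) [Field K] [NumberField K] (p : ℕ) (hp : p.Prime)
    (P : Ideal (𝓞 K)) (hm : (p : 𝓞 K) ∈ P) : P ≠ ⊥ := by
  rintro rfl
  rw [Ideal.mem_bot] at hm
  exact hp.ne_zero (by exact_mod_cast hm)

theorem card_over_le (K : Type) [Field K] [NumberField K] (p : ℕ) (hp : p.Prime)
    (T : Finset (Ideal (𝓞 K))) (hT : ∀ P ∈ T, P.IsPrime ∧ (p : 𝓞 K) ∈ P) :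
    T.card ≤ Module.finrank ℚ K := by
  have hdvd : (∏ P ∈ T, P) ∣ Ideal.span {(p : 𝓞 K)} := by
    refine Finset.prod_primes_dvd _ (fun P hP => ?_) (fun P hP => ?_)
    · exact Ideal.prime_of_isPrime (ov_ne_bot K p hp P (hT P hP).2) (hT P hP).1
    · rw [Ideal.dvd_span_singleton]
      exact (hT P hP).2
  have h1 : Ideal.absNorm (∏ P ∈ T, P) ∣ p ^ Module.finrank ℤ (𝓞 K) := by
    rw [← Ideal.absNorm_span_natCast]
    exact Ideal.absNorm_dvd_absNorm_of_le (Ideal.le_of_dvd hdvd)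
  have h2 : p ^ T.card ∣ Ideal.absNorm (∏ P ∈ T, P) := by
    rw [map_prod, ← Finset.prod_const]
    refine Finset.prod_dvd_prod_of_dvd _ _ fun P hP => ?_
    obtain ⟨f, hf, hf'⟩ := ov_absNorm K p hp P (hT P hP).1 (hT P hP).2
    rw [hf']
    exact dvd_pow_self p hf.ne'
  rw [← RingOfIntegers.rank K]
  exact (Nat.pow_dvd_pow_iff_le_right hp.one_lt).1 (h2.trans h1)

theorem exists_prime_mem (K : Type) [Field K] [NumberField K] (P : Ideal (𝓞 K)) (hP : P.IsPrime)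
    (h0 : P ≠ ⊥) : ∃ p f : ℕ, p.Prime ∧ 0 < f ∧ (p : 𝓞 K) ∈ P ∧ Ideal.absNorm P = p ^ f := by
  have h1 : Ideal.absNorm P ≠ 0 := by
    rw [Ne, Ideal.absNorm_eq_zero_iff]
    exact h0
  have h2 : ∀ n : ℕ, n ≠ 0 → ((n : ℕ) : 𝓞 K) ∈ P → ∃ p : ℕ, p.Prime ∧ (p : 𝓞 K) ∈ P := by
    intro n
    induction n using Nat.strong_induction_on with
    | _ n ih =>
      intro hn hm
      by_cases hn1 : n = 1
      · exfalso
        rw [hn1, Nat.cast_one] at hm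
        exact hP.ne_top ((Ideal.eq_top_iff_one P).2 hm)
      obtain ⟨q, hq, m, hqm⟩ := Nat.exists_prime_and_dvd hn1
      rw [hqm, Nat.cast_mul] at hm
      rcases hP.mem_or_mem hm with h | h
      · exact ⟨q, hq, h⟩
      · have hm0 : m ≠ 0 := by
          rintro rfl
          exact hn (by rw [hqm, mul_zero])
        refine ih m ?_ hm0 h
        rw [hqm]
        nlinarith [hq.two_le, Nat.pos_of_ne_zero hm0]
  obtain ⟨p, hp, hpm⟩ := h2 _ h1 (Ideal.absNorm_mem P)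
  obtain ⟨f, hf, hf'⟩ := ov_absNorm K p hp P hP hpm
  exact ⟨p, f, hp, hf, hpm, hf'⟩

private theorem ov_sum (K : Type) [Field K] [NumberField K] :
    ∃ C : ℝ, 0 < C ∧ ∀ (T : Finset (Ideal (𝓞 K))) (g : Ideal (𝓞 K) → ℕ),
      (∀ P ∈ T, P.IsPrime ∧ (g P).Prime ∧ (g P : 𝓞 K) ∈ P) →
      ∑ P ∈ T, (g P : ℝ) ^ (-2 : ℝ) ≤ C := by
  classical
  have hs : Summable fun m : ℕ => (m : ℝ) ^ (-2 : ℝ) :=
    Real.summable_nat_rpow.2 (by norm_num)
  have hn0 : 0 < (Module.finrank ℚ K : ℝ) := by exact_mod_cast Module.finrank_pos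
  have hnn : ∀ m : ℕ, 0 ≤ (m : ℝ) ^ (-2 : ℝ) := fun m => by positivity
  have ht0 : 0 ≤ ∑' m : ℕ, (m : ℝ) ^ (-2 : ℝ) := tsum_nonneg hnn
  refine ⟨Module.finrank ℚ K * (∑' m : ℕ, (m : ℝ) ^ (-2 : ℝ) + 1), by positivity,
    fun T g hT => ?_⟩
  rw [Finset.sum_comp (fun m : ℕ => (m : ℝ) ^ (-2 : ℝ)) g]
  calc ∑ b ∈ T.image g, (T.filter fun a => g a = b).card • (b : ℝ) ^ (-2 : ℝ)
      ≤ ∑ b ∈ T.image g, (Module.finrank ℚ K : ℝ) * (b : ℝ) ^ (-2 : ℝ) := by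
        refine Finset.sum_le_sum fun b hb => ?_
        obtain ⟨P, hP, hPb⟩ := Finset.mem_image.1 hb
        rw [nsmul_eq_mul]
        refine mul_le_mul_of_nonneg_right ?_ (hnn b)
        have h1 := card_over_le K b (hPb ▸ (hT P hP).2.1) (T.filter fun a => g a = b)
          (fun Q hQ => by
            obtain ⟨hQ1, hQ2⟩ := Finset.mem_filter.1 hQ
            exact ⟨(hT Q hQ1).1, hQ2 ▸ (hT Q hQ1).2.2⟩)
        exact_mod_cast h1
    _ = Module.finrank ℚ K * ∑ b ∈ T.image g, (b : ℝ) ^ (-2 : ℝ) := by rw [Finset.mul_sum]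
    _ ≤ Module.finrank ℚ K * (∑' m : ℕ, (m : ℝ) ^ (-2 : ℝ) + 1) := by
        refine mul_le_mul_of_nonneg_left ?_ hn0.le
        have h2 := hs.sum_le_tsum (T.image g) (fun m _ => hnn m)
        linarith

theorem absNorm_pow_sum_le (K : Type) [Field K] [NumberField K] :
    ∃ C : ℝ, 0 < C ∧ ∀ T : Finset (Ideal (𝓞 K)), (∀ P ∈ T, P.IsPrime ∧ P ≠ ⊥) →
      ∑ P ∈ T, (Ideal.absNorm P : ℝ) ^ (-2 : ℝ) ≤ C ∧
      ((∀ P ∈ T, ¬ (Ideal.absNorm P).Prime) → ∑ P ∈ T, (Ideal.absNorm P : ℝ) ^ (-1 : ℝ) ≤ C) := by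
  classical
  obtain ⟨C, hC, h⟩ := ov_sum K
  refine ⟨C, hC, fun T hT => ?_⟩
  have h1 : ∀ P : Ideal (𝓞 K), ∃ p f : ℕ, P ∈ T → p.Prime ∧ 0 < f ∧ (p : 𝓞 K) ∈ P ∧
      Ideal.absNorm P = p ^ f := by
    intro P
    by_cases hP : P ∈ T
    · obtain ⟨p, f, h1, h2, h3, h4⟩ := exists_prime_mem K P (hT P hP).1 (hT P hP).2
      exact ⟨p, f, fun _ => ⟨h1, h2, h3, h4⟩⟩
    · exact ⟨0, 0, fun h => absurd h hP⟩
  choose g f hgf using h1
  have h2 := h T g (fun P hP => ⟨(hT P hP).1, (hgf P hP).1, (hgf P hP).2.2.1⟩)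
  constructor
  · refine le_trans (Finset.sum_le_sum fun P hP => ?_) h2
    obtain ⟨hp, hf, _, hN⟩ := hgf P hP
    rw [hN]
    have hg0 : 0 < (g P : ℝ) := by exact_mod_cast hp.pos
    refine Real.rpow_le_rpow_of_nonpos hg0 ?_ (by norm_num)
    exact_mod_cast Nat.le_self_pow hf.ne' (g P)
  · intro hnp
    refine le_trans (Finset.sum_le_sum fun P hP => ?_) h2
    obtain ⟨hp, hf, _, hN⟩ := hgf P hP
    have hf2 : 2 ≤ f P := by
      by_contra hc
      have hf1 : f P = 1 := by omega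
      exact hnp P hP (by rw [hN, hf1, pow_one]; exact hp)
    rw [hN]
    have hg0 : 0 < (g P : ℝ) := by exact_mod_cast hp.pos
    have hg1 : 1 ≤ (g P : ℝ) := by exact_mod_cast hp.one_lt.le
    have h3 : (g P : ℝ) ^ (-2 : ℝ) = ((g P : ℝ) ^ (2 : ℕ)) ^ (-1 : ℝ) := by
      rw [← Real.rpow_natCast, ← Real.rpow_mul hg0.le]
      norm_num
    rw [h3, Nat.cast_pow]
    refine Real.rpow_le_rpow_of_nonpos (by positivity) ?_ (by norm_num)
    exact pow_le_pow_right₀ hg1 hf2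

theorem sum_deg_one_le (K : Type) [Field K] [NumberField K] (s : ℝ) (T : Finset (Ideal (𝓞 K)))
    (hT : ∀ P ∈ T, P.IsPrime ∧ (Ideal.absNorm P).Prime) :
    ∑ P ∈ T, (Ideal.absNorm P : ℝ) ^ (-s) ≤
      Module.finrank ℚ K * ∑ l ∈ T.image Ideal.absNorm, (l : ℝ) ^ (-s) := by
  classical
  rw [Finset.sum_comp (fun m : ℕ => (m : ℝ) ^ (-s)) (fun P : Ideal (𝓞 K) => Ideal.absNorm P),
    Finset.mul_sum]
  refine Finset.sum_le_sum fun b hb => ?_
  obtain ⟨P, hP, hPb⟩ := Finset.mem_image.1 hb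
  rw [nsmul_eq_mul]
  refine mul_le_mul_of_nonneg_right ?_ (by positivity)
  have h1 := card_over_le K b (hPb ▸ (hT P hP).2) (T.filter fun a => Ideal.absNorm a = b)
    (fun Q hQ => by
      obtain ⟨hQ1, hQ2⟩ := Finset.mem_filter.1 hQ
      exact ⟨(hT Q hQ1).1, hQ2 ▸ Ideal.absNorm_mem Q⟩)
  exact_mod_cast h1

end Pool.Agent.Helper31.TT
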