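import Pool.Agent.Helper31.TT.Defs

/-!
# TT-03  The polynomial of the powers of the roots

`exists_powPoly`: for monic integral `P` there is a monic integral polynomial with the roots `α ^ s`.

PROOF (choose one). (A) `A` = the multiset of the roots in `AlgebraicClosure ℚ` (or in `ℂ`); the polynomial `∏ (X - α ^ s)`
has integral coefficients (`IsIntegral ℤ`, the roots are integral) which are symmetric polynomials in the `α`, hence
rational: they are fixed by all automorphisms of `AlgebraicClosure ℚ` (an automorphism permutes the multiset of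
roots); a rational algebraic integer is an integer (`IsIntegrallyClosed`). (B) `P` is the characteristic polynomial of a matrix
`M` over `ℤ` (companion matrix, `Matrix.companion`/`charpoly`, or the left multiplication by `root P` on `AdjoinRoot P`,
`Algebra.leftMulMatrix`, `PowerBasis`): the roots of `(M ^ s).charpoly` over `ℂ` are the powers (if Mathlib has it, e.g.
`Matrix.charpoly` of a power or triangular form). (C) Look for such a lemma of the team:
(`Helper2/Tate/AllExt.lean`, `Helper14`, `Helper19`, ...); private copies or imports are fine.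
-/

set_option autoImplicit false

namespace Pool.Agent.Helper31.TT

open Polynomial

/-- if all elementary symmetric functions are integers, then also those of the powers -/
private theorem esymm_pow_int {n : ℕ} (f : Fin n → ℂ)
    (hf : ∀ j, ∃ z : ℤ, ((Finset.univ.val.map f : Multiset ℂ).esymm j) = (z : ℂ)) (s : ℕ) (j : ℕ) :
    ∃ z : ℤ, ((Finset.univ.val.map (fun i => f i ^ s) : Multiset ℂ).esymm j) = (z : ℂ) := by
  classical
  choose g hg using hf
  have hsym : (MvPolynomial.expand s (MvPolynomial.esymm (Fin n) ℤ j)).IsSymmetric := by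
    intro e
    rw [MvPolynomial.rename_expand, MvPolynomial.rename_esymm]
  obtain ⟨q, hq⟩ := MvPolynomial.esymmAlgHom_surjective (σ := Fin n) ℤ (n := n)
    (by simp) ⟨_, hsym⟩
  have hq' : MvPolynomial.aeval (fun i : Fin n ↦ MvPolynomial.esymm (Fin n) ℤ (i + 1)) q =
      MvPolynomial.expand s (MvPolynomial.esymm (Fin n) ℤ j) := by
    have := congrArg Subtype.val hq
    rwa [MvPolynomial.esymmAlgHom_apply] at this
  refine ⟨MvPolynomial.aeval (fun i : Fin n => g (i + 1)) q, ?_⟩
  rw [← MvPolynomial.aeval_esymm_eq_multiset_esymm (Fin n) ℤ]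
  have h1 : MvPolynomial.aeval (fun i => f i ^ s) (MvPolynomial.esymm (Fin n) ℤ j) =
      MvPolynomial.aeval f (MvPolynomial.expand s (MvPolynomial.esymm (Fin n) ℤ j)) := by
    have : (MvPolynomial.aeval (fun i => f i ^ s) : MvPolynomial (Fin n) ℤ →ₐ[ℤ] ℂ) =
        (MvPolynomial.aeval f).comp (MvPolynomial.expand s) := by
      apply MvPolynomial.algHom_ext
      intro i
      simp
    rw [this]; rfl
  rw [h1, ← hq', ← AlgHom.comp_apply]
  have h2 : ((MvPolynomial.aeval f).comp
      (MvPolynomial.aeval (fun i : Fin n ↦ MvPolynomial.esymm (Fin n) ℤ (i + 1))) :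
        MvPolynomial (Fin n) ℤ →ₐ[ℤ] ℂ) =
      ((Algebra.ofId ℤ ℂ).comp (MvPolynomial.aeval (fun i : Fin n => g (i + 1)))) := by
    apply MvPolynomial.algHom_ext
    intro i
    rw [AlgHom.comp_apply, AlgHom.comp_apply, MvPolynomial.aeval_X, MvPolynomial.aeval_X,
      MvPolynomial.aeval_esymm_eq_multiset_esymm, hg]
    rfl
  rw [h2]
  rfl

theorem exists_powPoly (P : ℤ[X]) (hP : P.Monic) (s : ℕ) :
    ∃ P' : ℤ[X], P'.Monic ∧ croots P' = (croots P).map (fun α => α ^ s) := by
  classical
  set PC := P.map (Int.castRingHom ℂ) with hPC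
  have hmon : PC.Monic := hP.map _
  have hcard : PC.roots.card = PC.natDegree := by
    exact (IsAlgClosed.splits PC).natDegree_eq_card_roots.symm
  have hes : ∀ j, ∃ z : ℤ, PC.roots.esymm j = (z : ℂ) := by
    intro j
    rcases le_or_gt j PC.natDegree with hj | hj
    · have h := Polynomial.coeff_eq_esymm_roots_of_card hcard (k := PC.natDegree - j) (by omega)
      rw [hmon.leadingCoeff, one_mul, show PC.natDegree - (PC.natDegree - j) = j by omega] at h
      refine ⟨(-1) ^ j * P.coeff (PC.natDegree - j), ?_⟩
      rw [hPC, Polynomial.coeff_map, ← hPC] at h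
      push_cast
      have h3 : ((P.coeff (PC.natDegree - j) : ℤ) : ℂ) = (-1) ^ j * PC.roots.esymm j := by
        simpa using h
      rw [h3, ← mul_assoc, ← mul_pow]
      simp
    · refine ⟨0, ?_⟩
      rw [Multiset.esymm, Multiset.powersetCard_eq_empty]
      · simp
      · rw [hcard]; exact hj
  obtain ⟨l, hl⟩ : ∃ l : List ℂ, PC.roots = (l : Multiset ℂ) := ⟨PC.roots.toList, by simp⟩
  have hl' : PC.roots = Finset.univ.val.map l.get := by
    rw [hl, Fin.univ_val_map]
    simp
  have hmap : PC.roots.map (fun α => α ^ s) = Finset.univ.val.map (fun i => l.get i ^ s) := by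
    rw [hl', Multiset.map_map]; rfl
  have hes2 : ∀ j, ∃ z : ℤ, (PC.roots.map (fun α => α ^ s)).esymm j = (z : ℂ) := by
    intro j
    rw [hmap]
    exact esymm_pow_int l.get (fun j => by rw [← hl']; exact hes j) s j
  set R := (PC.roots.map (fun α => α ^ s)) with hR
  have hmonQ : ((R.map (fun a => X - C a)).prod).Monic := monic_multiset_prod_of_monic _ _ (fun a _ => monic_X_sub_C a)
  have hlift : (R.map (fun a => X - C a)).prod ∈ Polynomial.lifts (Int.castRingHom ℂ) := by
    rw [Polynomial.lifts_iff_coeff_lifts]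
    intro k
    rcases le_or_gt k R.card with hk | hk
    · rw [Multiset.prod_X_sub_C_coeff R hk]
      obtain ⟨z, hz⟩ := hes2 (R.card - k)
      rw [hz]
      exact ⟨(-1) ^ (R.card - k) * z, by simp⟩
    · rw [Polynomial.coeff_eq_zero_of_natDegree_lt]
      · exact ⟨0, by simp⟩
      · rw [Polynomial.natDegree_multiset_prod_X_sub_C_eq_card]; exact hk
  obtain ⟨Q, hQ1, -, hQ2⟩ := Polynomial.lifts_and_natDegree_eq_and_monic hlift hmonQ
  refine ⟨Q, hQ2, ?_⟩
  rw [croots, hQ1, Polynomial.roots_multiset_prod_X_sub_C]
  rfl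

end Pool.Agent.Helper31.TT
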