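import Pool.Agent.Helper31.TT.Defs
import Pool.Agent.Helper2.Tate.Poly

/-!
# TT-06  Reductions of the roots

`r` is a ring homomorphism from the ring of algebraic integers (`integralClosure ℤ ℂ`) to a field `κ` with `r ℓ = 0`.
For monic integral `P` there is a multiset `A` of algebraic integers with `A.map (↑) = croots P`, and
`P.reverse.map (ℤ → κ) = ∏ (1 - r(α) X) = pr (A.map r)`: see the proof of `mult_le_of` in `Helper2/Tate/Cong.lean` (copy).
`ℤ → κ` factors through `ZMod ℓ` (`ZMod.algebra κ ℓ`, `CharP κ ℓ`; `RingHom.ext_int`).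
* `red_root`: `pr (A_Q.map r) = (pr (A_P.map r)) ^ N`; evaluate at `(r z)⁻¹`: the left hand side is `0` because of the factor
  `1 - r(z) X`, so some factor `1 - r(a) (r z)⁻¹` is `0` (`N` may be `0`: then the left hand side is `1`, a contradiction).
* `red_noRoot`: `y` a root of `R`, `r y ^ (ℓ - 1) = 1`: then `r y` is in the image of `ZMod ℓ` (the polynomial `X ^ (ℓ-1) - 1` has the
  `ℓ - 1` roots `algebraMap a`, `a ≠ 0`, `ZMod.pow_card_sub_one_eq_one`, and no more: compare degrees), `r y = algebraMap a`,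
  `a ≠ 0`, `(R.map ..).eval a` maps to `r (R(y)) = 0`: `a` is a root of `R` modulo `ℓ`, against `NoRootMod R ℓ`.
* `mem_croots`: `α ∈ croots P ↔ aeval α P = 0` (`mem_roots`, `P` monic); the roots are integral.
-/

set_option autoImplicit false

namespace Pool.Agent.Helper31.TT

open Polynomial

theorem mem_croots {P : ℤ[X]} (hP : P.Monic) {α : ℂ} : α ∈ croots P ↔ aeval α P = 0 := by
  unfold croots
  rw [mem_roots (hP.map _).ne_zero, IsRoot, eval_map, aeval_def, algebraMap_int_eq]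

theorem isIntegral_of_mem_croots {P : ℤ[X]} (hP : P.Monic) {α : ℂ} (h : α ∈ croots P) :
    IsIntegral ℤ α :=
  ⟨P, hP, (mem_croots hP).1 h⟩

/-- the roots as algebraic integers, and the reductions of the reversed polynomial -/
private theorem exists_roots (P : ℤ[X]) (hP : P.Monic) :
    ∃ A : Multiset (integralClosure ℤ ℂ),
      A.map (fun z : integralClosure ℤ ℂ => (z : ℂ)) = croots P ∧
      ∀ (κ : Type) [Field κ] (r : integralClosure ℤ ℂ →+* κ),
        P.reverse.map (Int.castRingHom κ) = Pool.Agent.Helper2.Tate.pr (A.map r) := by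
  classical
  have hint : ∀ α ∈ croots P, α ∈ integralClosure ℤ ℂ :=
    fun α hα => isIntegral_of_mem_croots hP hα
  obtain ⟨A, hA⟩ : ∃ A : Multiset (integralClosure ℤ ℂ),
      A.map (fun z : integralClosure ℤ ℂ => (z : ℂ)) = croots P :=
    ⟨(croots P).pmap (fun α h => ⟨α, h⟩) hint, by
      rw [Multiset.map_pmap]
      simp only
      rw [Multiset.pmap_eq_map, Multiset.map_id']⟩
  have hmapr : P.reverse.map (Int.castRingHom (integralClosure ℤ ℂ)) =
      Pool.Agent.Helper2.Tate.pr A := by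
    have hinj : Function.Injective (Polynomial.map (algebraMap (integralClosure ℤ ℂ) ℂ)) :=
      map_injective _ Subtype.val_injective
    apply hinj
    rw [Polynomial.map_map]
    have h3 : (algebraMap (integralClosure ℤ ℂ) ℂ).comp (Int.castRingHom _) =
        Int.castRingHom ℂ := RingHom.ext_int _ _
    have h4 : (P.map (Int.castRingHom ℂ)).roots =
        A.map (fun z : integralClosure ℤ ℂ => (z : ℂ)) := hA.symm
    rw [h3, Pool.Agent.Helper2.Tate.reverse_map P hP, h4]
    unfold Pool.Agent.Helper2.Tate.pr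
    rw [Polynomial.map_multiset_prod, Multiset.map_map, Multiset.map_map]
    congr 1
    apply Multiset.map_congr rfl
    intro z _
    simp
  refine ⟨A, hA, fun κ _ r => ?_⟩
  have h5 : Int.castRingHom κ = r.comp (Int.castRingHom _) := RingHom.ext_int _ _
  rw [h5, ← Polynomial.map_map, hmapr]
  unfold Pool.Agent.Helper2.Tate.pr
  rw [Polynomial.map_multiset_prod, Multiset.map_map, Multiset.map_map]
  congr 1
  apply Multiset.map_congr rfl
  intro z _
  simp

theorem red_root (ℓ : ℕ) (hℓ : ℓ.Prime) (Ps Qs : ℤ[X]) (hPs : Ps.Monic) (hQs : Qs.Monic) (N : ℕ)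
    (hcong : Qs.reverse.map (Int.castRingHom (ZMod ℓ)) =
      (Ps.reverse.map (Int.castRingHom (ZMod ℓ))) ^ N)
    {κ : Type} [Field κ] (r : integralClosure ℤ ℂ →+* κ) (hr : r (ℓ : integralClosure ℤ ℂ) = 0)
    (z : integralClosure ℤ ℂ) (hz : (z : ℂ) ∈ croots Qs) (hz0 : r z ≠ 0) :
    ∃ a : integralClosure ℤ ℂ, (a : ℂ) ∈ croots Ps ∧ r z = r a := by
  classical
  have hchar : CharP κ ℓ := by
    have h12 : (ℓ : κ) = 0 := by simpa using hr
    exact (CharP.charP_iff_prime_eq_zero hℓ).2 h12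
  let _ : Algebra (ZMod ℓ) κ := ZMod.algebra κ ℓ
  have hρ : Int.castRingHom κ = (algebraMap (ZMod ℓ) κ).comp (Int.castRingHom (ZMod ℓ)) :=
    RingHom.ext_int _ _
  obtain ⟨AP, hAP, hAP2⟩ := exists_roots Ps hPs
  obtain ⟨AQ, hAQ, hAQ2⟩ := exists_roots Qs hQs
  have h1 : Pool.Agent.Helper2.Tate.pr (AQ.map r) =
      (Pool.Agent.Helper2.Tate.pr (AP.map r)) ^ N := by
    rw [← hAQ2 κ r, ← hAP2 κ r, hρ, ← Polynomial.map_map, ← Polynomial.map_map, hcong,
      Polynomial.map_pow]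
  have hzA : z ∈ AQ := by
    rw [← hAQ, Multiset.mem_map] at hz
    obtain ⟨w, hw, hwz⟩ := hz
    rwa [← Subtype.ext hwz]
  have h2 : (Pool.Agent.Helper2.Tate.pr (AQ.map r)).eval (r z)⁻¹ = 0 := by
    unfold Pool.Agent.Helper2.Tate.pr
    rw [eval_multiset_prod, Multiset.map_map]
    apply Multiset.prod_eq_zero
    rw [Multiset.mem_map]
    refine ⟨r z, Multiset.mem_map_of_mem r hzA, ?_⟩
    simp [hz0]
  rw [h1, eval_pow] at h2
  have h3 := eq_zero_of_pow_eq_zero h2
  unfold Pool.Agent.Helper2.Tate.pr at h3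
  rw [eval_multiset_prod, Multiset.map_map, Multiset.map_map, Multiset.prod_eq_zero_iff,
    Multiset.mem_map] at h3
  obtain ⟨a, ha, ha2⟩ := h3
  refine ⟨a, ?_, ?_⟩
  · rw [← hAP]
    exact Multiset.mem_map_of_mem _ ha
  · simp only [Function.comp_apply, eval_sub, eval_one, eval_mul, eval_C, eval_X] at ha2
    have h4 : r a * (r z)⁻¹ = 1 := (sub_eq_zero.1 ha2).symm
    exact ((mul_inv_eq_one₀ hz0).1 h4).symm

theorem red_noRoot (ℓ : ℕ) (hℓ : ℓ.Prime) (R : ℤ[X]) (hR : R.Monic) (h : NoRootMod R ℓ)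
    {κ : Type} [Field κ] (r : integralClosure ℤ ℂ →+* κ) (hr : r (ℓ : integralClosure ℤ ℂ) = 0)
    (y : integralClosure ℤ ℂ) (hy : (y : ℂ) ∈ croots R) : r y ^ (ℓ - 1) ≠ 1 := by
  classical
  intro hpow
  have hfact : Fact ℓ.Prime := ⟨hℓ⟩
  have hchar : CharP κ ℓ := by
    have h12 : (ℓ : κ) = 0 := by simpa using hr
    exact (CharP.charP_iff_prime_eq_zero hℓ).2 h12
  have h1 : r y ^ ℓ = r y := by
    obtain ⟨m, rfl⟩ : ∃ m, ℓ = m + 1 := ⟨ℓ - 1, by have := hℓ.one_lt; omega⟩
    rw [Nat.add_sub_cancel] at hpow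
    rw [pow_succ, hpow, one_mul]
  have h2 : r y ∈ (⊥ : Subfield κ) := (Subfield.mem_bot_iff_pow_eq_self κ ℓ).2 h1
  obtain ⟨n, hn⟩ := (mem_bot_iff_intCast ℓ κ).1 h2
  -- `R (y) = 0`
  have h3 : R.eval₂ (Int.castRingHom (integralClosure ℤ ℂ)) y = 0 := by
    have hinj : Function.Injective (algebraMap (integralClosure ℤ ℂ) ℂ) := Subtype.val_injective
    apply hinj
    have h6 : (algebraMap (integralClosure ℤ ℂ) ℂ).comp (Int.castRingHom _) =
        Int.castRingHom ℂ := RingHom.ext_int _ _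
    have h7 := (mem_croots hR).1 hy
    rw [aeval_def, algebraMap_int_eq] at h7
    rw [hom_eval₂, h6, map_zero]
    exact h7
  have h8 : R.eval₂ (Int.castRingHom κ) (n : κ) = 0 := by
    have h9 := congrArg r h3
    rw [hom_eval₂, map_zero] at h9
    have h10 : r.comp (Int.castRingHom (integralClosure ℤ ℂ)) = Int.castRingHom κ :=
      RingHom.ext_int _ _
    rw [h10, ← hn] at h9
    exact h9
  have h11 : ((R.eval n : ℤ) : κ) = 0 := by
    have h12 := eval₂_at_intCast (Int.castRingHom κ) (p := R) n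
    rw [← h8]
    simpa using h12.symm
  have h13 : (ℓ : ℤ) ∣ R.eval n := (CharP.intCast_eq_zero_iff κ ℓ _).1 h11
  refine h (n : ZMod ℓ) ?_ ?_
  · intro hn0
    have h14 : (ℓ : ℤ) ∣ n := (ZMod.intCast_zmod_eq_zero_iff_dvd n ℓ).1 hn0
    have h15 : (n : κ) = 0 := (CharP.intCast_eq_zero_iff κ ℓ _).2 h14
    rw [← hn, h15, zero_pow (by have := hℓ.one_lt; omega)] at hpow
    exact zero_ne_one hpow
  · rw [eval_intCast_map]
    have h16 : ((R.eval n : ℤ) : ZMod ℓ) = 0 := (ZMod.intCast_zmod_eq_zero_iff_dvd _ ℓ).2 h13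
    simpa using h16

end Pool.Agent.Helper31.TT
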