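import Pool.Agent.Helper31.TT.FrobDens

/-!
# TT-15  Roots modulo the primes with a given Frobenius

`R` monic integral which splits over the number field `L`, with roots `β_i` (in `𝓞 L`): `R = ∏ (X - β_i)` over `𝓞 L`. Let `ℓ ∈ frobPrimes c`
with the prime ideal `P`, and let `a ∈ ZMod ℓ`, `a ≠ 0`, be a root of `R` modulo `ℓ`; `a` the class of the integer `b`. In
`κ = 𝓞 L ⧸ P` (a domain of characteristic `ℓ`): `0 = R(b) = ∏ (b - β_i)`, so `β = β_i ≡ b` mod `P` for some `i`; `β ≠ 0` because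
`b` is not in `P` (`ℤ ∩ P = (ℓ)`). `b ^ ℓ ≡ b` mod `ℓ`, so `β ^ ℓ ≡ b ≡ β` mod `P`, and `β ^ ℓ ≡ c β` mod `P`: `c β - β ∈ P`. By
hypothesis `c β ≠ β`. Let `M` be the product over the nonzero roots `β` of the absolute values of the norms of `c β - β` (nonzero):
`c β - β ∈ P` implies that the norm is in `P ∩ ℤ = (ℓ)` (`Algebra.norm` of an element is divisible by it;
`Ideal.absNorm_mem`/`Ideal.absNorm_span_singleton`, or `Algebra.norm_mem`), so `ℓ ∣ M`.
(With `c` an automorphism over `K`; only a map with `c (β)` integral is needed: `c` maps `𝓞 L` to `𝓞 L`.)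
-/

set_option autoImplicit false

namespace Pool.Agent.Helper31.TT

open NumberField Polynomial

variable {K L : Type} [Field K] [NumberField K] [Field L] [NumberField L] [Algebra K L]

omit [NumberField L] in
private theorem rr_dvd {P : Ideal (𝓞 L)} (hP : P.IsPrime) {ℓ : ℕ} (hℓ : ℓ.Prime)
    (hm : (ℓ : 𝓞 L) ∈ P) {n : ℕ} (hn : (n : 𝓞 L) ∈ P) : ℓ ∣ n := by
  by_contra hc
  have h1 : IsCoprime (ℓ : ℤ) (n : ℤ) :=
    Nat.isCoprime_iff_coprime.2 ((Nat.Prime.coprime_iff_not_dvd hℓ).2 hc)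
  obtain ⟨u, v, huv⟩ := h1
  apply hP.ne_top
  rw [Ideal.eq_top_iff_one]
  have h2 : (1 : 𝓞 L) = (u : 𝓞 L) * (ℓ : 𝓞 L) + (v : 𝓞 L) * (n : 𝓞 L) := by
    have h3 := congrArg (fun z : ℤ => (z : 𝓞 L)) huv
    push_cast at h3
    exact h3.symm
  rw [h2]
  exact P.add_mem (P.mul_mem_left _ hm) (P.mul_mem_left _ hn)

omit [NumberField L] in
private theorem rr_dvd_int {P : Ideal (𝓞 L)} {ℓ : ℕ} (hm : (ℓ : 𝓞 L) ∈ P) {z : ℤ}
    (hz : (ℓ : ℤ) ∣ z) : ((z : ℤ) : 𝓞 L) ∈ P := by
  obtain ⟨w, rfl⟩ := hz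
  push_cast
  exact P.mul_mem_right _ hm

open Classical in
/-- the element of the ring of integers -/
private noncomputable def rrg (x : L) : 𝓞 L :=
  if h : ∃ y : 𝓞 L, (y : L) = x then h.choose else 0

omit [NumberField L] in
private theorem rrg_coe {x : L} (h : IsIntegral ℤ x) : ((rrg x : 𝓞 L) : L) = x := by
  have h1 : ∃ y : 𝓞 L, (y : L) = x := ⟨⟨x, h⟩, rfl⟩
  unfold rrg
  rw [dif_pos h1]
  exact h1.choose_spec

theorem noRootMod_of_frob (c : L ≃ₐ[K] L) (R : ℤ[X]) (hR : R.Monic)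
    (hs : (R.map (Int.castRingHom L)).Splits)
    (hfix : ∀ x : L, x ≠ 0 → aeval x R = 0 → c x ≠ x) :
    ∃ M : ℕ, 0 < M ∧ ∀ ℓ ∈ frobPrimes c, ¬ ℓ ∣ M → NoRootMod R ℓ := by
  classical
  have hm : (R.map (Int.castRingHom L)).Monic := hR.map _
  have hroot : ∀ x ∈ (R.map (Int.castRingHom L)).roots, aeval x R = 0 := by
    intro x hx
    have h1 := (mem_roots hm.ne_zero).1 hx
    rw [IsRoot.def, eval_map] at h1
    rw [aeval_def]
    exact h1
  have hint : ∀ x : L, aeval x R = 0 → IsIntegral ℤ x := fun x hx => ⟨R, hR, hx⟩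
  have hintc : ∀ x : L, IsIntegral ℤ x → IsIntegral ℤ (c x) := fun x hx =>
    map_isIntegral_int (c : L →+* L) hx
  refine ⟨∏ x ∈ (R.map (Int.castRingHom L)).roots.toFinset.filter (fun x => x ≠ 0),
    Ideal.absNorm (Ideal.span {rrg (c x) - rrg x}), ?_, ?_⟩
  · refine Finset.prod_pos fun x hx => ?_
    rw [Finset.mem_filter, Multiset.mem_toFinset] at hx
    have h1 := hroot x hx.1
    rw [Nat.pos_iff_ne_zero, Ne, Ideal.absNorm_eq_zero_iff, Ideal.span_singleton_eq_bot]
    intro h2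
    have h3 := congrArg (fun y : 𝓞 L => (y : L)) (sub_eq_zero.1 h2)
    beta_reduce at h3
    rw [rrg_coe (hint x h1), rrg_coe (hintc x (hint x h1))] at h3
    exact hfix x hx.2 h1 h3
  · intro ℓ hℓ hM a ha hRa
    obtain ⟨hp, P, hP, hmem, hfrob⟩ := hℓ
    have : Fact ℓ.Prime := ⟨hp⟩
    obtain ⟨b, hb⟩ : ∃ b : ℕ, (b : ZMod ℓ) = a := ⟨a.val, ZMod.natCast_zmod_val a⟩
    have hbP : (b : 𝓞 L) ∉ P := by
      intro h
      exact ha (by rw [← hb]; exact (ZMod.natCast_eq_zero_iff _ _).2 (rr_dvd hP hp hmem h))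
    have hev : (ℓ : ℤ) ∣ R.eval (b : ℤ) := by
      rw [← ZMod.intCast_zmod_eq_zero_iff_dvd]
      rw [← hb, eval_map] at hRa
      have h1 := eval₂_at_intCast (p := R) (f := Int.castRingHom (ZMod ℓ)) (b : ℤ)
      simp only [Int.cast_natCast] at h1
      rw [h1] at hRa
      exact hRa
    have hprod : (((R.map (Int.castRingHom L)).roots.map
        (fun x => (b : 𝓞 L) - rrg x)).prod : 𝓞 L) = ((R.eval (b : ℤ) : ℤ) : 𝓞 L) := by
      apply RingOfIntegers.coe_injective
      have h1 : algebraMap (𝓞 L) L (((R.map (Int.castRingHom L)).roots.map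
          (fun x => (b : 𝓞 L) - rrg x)).prod) =
          ((R.map (Int.castRingHom L)).roots.map (fun x => (b : L) - x)).prod := by
        rw [map_multiset_prod, Multiset.map_map]
        congr 1
        refine Multiset.map_congr rfl fun x hx => ?_
        rw [Function.comp_apply, map_sub, map_natCast]
        congr 1
        exact rrg_coe (hint x (hroot x hx))
      have h2 : ((R.map (Int.castRingHom L)).roots.map (fun x => (b : L) - x)).prod =
          (R.map (Int.castRingHom L)).eval (b : L) := by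
        conv_rhs => rw [hs.eq_prod_roots_of_monic hm]
        rw [eval_multiset_prod, Multiset.map_map]
        congr 1
        refine Multiset.map_congr rfl fun x _ => ?_
        simp
      have h3 : (R.map (Int.castRingHom L)).eval (b : L) = ((R.eval (b : ℤ) : ℤ) : L) := by
        rw [eval_map]
        have h4 := eval₂_at_intCast (p := R) (f := Int.castRingHom L) (b : ℤ)
        simp only [Int.cast_natCast] at h4
        rw [h4]
        rfl
      exact (h1.trans (h2.trans h3)).trans (by simp)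
    have hPm : (((R.map (Int.castRingHom L)).roots.map
        (fun x => (b : 𝓞 L) - rrg x)).prod : 𝓞 L) ∈ P := by
      rw [hprod]
      exact rr_dvd_int hmem hev
    rw [hP.multiset_prod_mem_iff_exists_mem] at hPm
    obtain ⟨y, hy, hyP⟩ := hPm
    obtain ⟨x, hx, rfl⟩ := Multiset.mem_map.1 hy
    have hx0 := hroot x hx
    have hxi := hint x hx0
    have hxne : x ≠ 0 := by
      rintro rfl
      have h1 : (rrg (0 : L) : 𝓞 L) = 0 := by
        apply RingOfIntegers.coe_injective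
        exact (rrg_coe hxi).trans (by simp)
      rw [h1, sub_zero] at hyP
      exact hbP hyP
    have h1 : rrg x ^ ℓ - rrg (c x) ∈ P := by
      apply hfrob
      rw [rrg_coe hxi, rrg_coe (hintc x hxi)]
    have h2 : (b : 𝓞 L) ^ ℓ - (b : 𝓞 L) ∈ P := by
      have h3 : (ℓ : ℤ) ∣ (b : ℤ) ^ ℓ - (b : ℤ) := by
        rw [← ZMod.intCast_zmod_eq_zero_iff_dvd]
        push_cast
        rw [ZMod.pow_card, sub_self]
      have h4 := rr_dvd_int hmem h3
      push_cast at h4
      exact h4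
    have h3 : (b : 𝓞 L) ^ ℓ - rrg x ^ ℓ ∈ P :=
      P.mem_of_dvd (sub_dvd_pow_sub_pow _ _ ℓ) hyP
    have h4 : rrg (c x) - rrg x ∈ P := by
      have h5 : rrg (c x) - rrg x = -(rrg x ^ ℓ - rrg (c x)) - ((b : 𝓞 L) ^ ℓ - rrg x ^ ℓ) +
          ((b : 𝓞 L) ^ ℓ - (b : 𝓞 L)) + ((b : 𝓞 L) - rrg x) := by ring
      rw [h5]
      exact P.add_mem (P.add_mem (P.sub_mem (P.neg_mem h1) h3) h2) hyP
    have h5 : ((Ideal.absNorm (Ideal.span {rrg (c x) - rrg x}) : ℕ) : 𝓞 L) ∈ P :=
      (Ideal.span_singleton_le_iff_mem P).2 h4 (Ideal.absNorm_mem _)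
    have h6 := rr_dvd hP hp hmem h5
    exact hM (h6.trans (Finset.dvd_prod_of_mem
      (fun x => Ideal.absNorm (Ideal.span {rrg (c x) - rrg x})) (by
        rw [Finset.mem_filter, Multiset.mem_toFinset]
        exact ⟨hx, hxne⟩)))

end Pool.Agent.Helper31.TT
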